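import Mathlib

/-!
Statements (NOT results) of the pieces of the project AN (alternating groups as composition factors
of kernels of embedding problems in odd characteristic; owner helper25, problem MP_7f581e_nt).
-/

set_option autoImplicit false

namespace Pool.Agent.L7h25.AN

open Polynomial

/-- The pencil `P - tQ`: `P` is monic of degree `n > deg Q` and `P' Q - P Q' = c X^a (X - β)`. -/
structure Pen (K : Type) [Field K] (n a : ℕ) (P Q : K[X]) (c β : K) : Prop where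
  n5 : 5 ≤ n
  monic : P.Monic
  deg : P.natDegree = n
  degQ : Q.natDegree < n
  W : derivative P * Q - P * derivative Q = C c * X ^ a * (X - C β)
  c0 : c ≠ 0
  β0 : β ≠ 0
  P0 : P.eval 0 = 0
  Q0 : Q.eval 0 ≠ 0
  Pβ : P.eval β ≠ 0
  Qβ : Q.eval β ≠ 0

/-- The three explicit pencils (`p` does not divide `n (n - 1)`, `p` divides `n - 1`, `p` divides
`n`). -/
def Fam (K : Type) [Field K] (n : ℕ) (P Q : K[X]) : Prop :=
  (P = X ^ (n - 1) * (X - 1) ∧ Q = 1) ∨
  ((n : K) = 1 ∧ P = X ^ (n - 1) * (X - 1) ∧ Q = X ^ 2 - 2 * X + 2) ∨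
  ((n : K) = 0 ∧ P = X ^ (n - 2) * (X ^ 2 - 2 * X - 1) ∧ Q = 1)

/-- IRR. `H(x, Y) = (P(Y) Q(x) - P(x) Q(Y)) / (Y - x)` is irreducible over `κ(x)` (the outer
variable is `Y`). -/
def St_irr : Prop :=
  ∀ (κ : Type) [Field κ] [IsAlgClosed κ], (2 : κ) ≠ 0 → ∀ (n : ℕ) (P Q : κ[X]), 5 ≤ n →
    Fam κ n P Q → ∃ H : κ[X][X], (X - C X) * H = P.map C * C Q - C P * Q.map C ∧
      Irreducible (H.map (algebraMap κ[X] (RatFunc κ)))

/-- The Vandermonde product. -/
noncomputable def VV {N : Type} [Field N] {n : ℕ} (r : Fin n → N) : N :=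
  ∏ i, ∏ j ∈ Finset.Ioi i, (r j - r i)

/-- DISC. The discriminant of `P - tQ`. -/
def St_disc : Prop :=
  ∀ (K : Type) [Field K] (n a : ℕ) (P Q : K[X]) (c β : K), Pen K n a P Q c β →
    ∃ C0 : K, C0 ≠ 0 ∧ ∀ (N : Type) [Field N] [IsAlgClosed N] [Algebra K N] (t : N)
      (r : Fin n → N),
      P.map (algebraMap K N) - C t * Q.map (algebraMap K N) = ∏ i, (X - C (r i)) →
      VV r ^ 2 = algebraMap K N C0 * t ^ a * (t - algebraMap K N (P.eval β / Q.eval β))

/-- SWAP. An automorphism which fixes `t` and interchanges two roots of `P - tQ`. -/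
def St_swap : Prop :=
  ∀ (κ : Type) [Field κ] [IsAlgClosed κ] (n a : ℕ) (P Q : κ[X]) (c β : κ), Pen κ n a P Q c β →
    ∀ (N : Type) [Field N] [IsAlgClosed N] [Algebra κ N] (t : N), Transcendental κ t →
    Algebra.IsAlgebraic (IntermediateField.adjoin κ {t}) N → ∀ (r : Fin n → N),
    Function.Injective r →
    P.map (algebraMap κ N) - C t * Q.map (algebraMap κ N) = ∏ i, (X - C (r i)) →
    ∃ (σ : N ≃ₐ[κ] N) (i j : Fin n), i ≠ j ∧ σ t = t ∧ ∀ k, σ (r k) = r (Equiv.swap i j k)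

/-- The group of all `(w, γ)` in `S_n × Γ` (`S_n` is written as the wreath product `1 ≀ S_n`) with
`sign w = χ γ`. -/
def SgnFib (n : ℕ) {Γ : Type} [Group Γ] (χ : Γ →* ℤˣ) :
    Subgroup (((Fin n → Unit) ⋊[mulAutArrow] Equiv.Perm (Fin n)) × Γ) where
  carrier := {z | Equiv.Perm.sign z.1.right = χ z.2}
  one_mem' := by
    change Equiv.Perm.sign (1 : Equiv.Perm (Fin n)) = χ 1
    rw [map_one, map_one]
  mul_mem' := by
    intro a b ha hb
    change Equiv.Perm.sign (a.1.right * b.1.right) = χ (a.2 * b.2)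
    rw [map_mul, map_mul]
    exact congrArg₂ (· * ·) ha hb
  inv_mem' := by
    intro a ha
    change Equiv.Perm.sign (a.1.right)⁻¹ = χ (a.2)⁻¹
    rw [map_inv, map_inv]
    exact congrArg (·⁻¹) ha

/-- GRP. Semidirect products with kernel `A_n`; use `Pool.Agent.H302R6.aut_alt` (n ≥ 7) and
`exists_perm` (n = 5) of `Pool/Agent/H302R6/AutB.lean`. -/
def St_grp : Prop :=
  ∀ n : ℕ, 5 ≤ n → n ≠ 6 →
    IsSimpleGroup (alternatingGroup (Fin n)) ∧
    Subgroup.center (alternatingGroup (Fin n)) = ⊥ ∧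
    (∃ T : Subgroup (MulAut (alternatingGroup (Fin n))),
      IsCompl T (MulAut.conj : alternatingGroup (Fin n) →* _).range) ∧
    ∀ (Γ : Type) [Group Γ] (β : Γ →* MulAut (alternatingGroup (Fin n))),
      ∃ (χ : Γ →* ℤˣ) (Θ : (alternatingGroup (Fin n)) ⋊[β] Γ ≃* SgnFib n χ),
        ∀ x, (Θ x).1.2 = x.right

end Pool.Agent.L7h25.AN
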