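import Mathlib
import Pool.Agent.L7h25.AN.Stm

/-!
Collisions of the roots of `P - t Q` at the branch point `t₁`, and inertia.
-/

set_option autoImplicit false

namespace Pool.Agent.L7h25.AN

open Polynomial

theorem exists_inertia {R S G : Type} [CommRing R] [IsDedekindDomain R] [CommRing S]
    [IsDedekindDomain S] [Algebra R S] [Group G] [MulSemiringAction G S]
    [IsGaloisGroup G R S] [Finite G] [Module.Finite R S] [Module.IsTorsionFree R S]
    (p : Ideal R) (hp0 : p ≠ ⊥) [p.IsPrime] (m : Ideal S) [m.IsPrime] [m.LiesOver p]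
    [PerfectField p.ResidueField] (h : p.map (algebraMap R S) ≤ m ^ 2) :
    ∃ g ∈ m.inertia G, g ≠ 1 := by
  have hflat : Module.Flat R S := inferInstance
  have h1 := Ideal.card_inertia_eq_ramificationIdxIn (G := G) p m
  have h2 := Ideal.ramificationIdxIn_eq_ramificationIdx p m G
  have h3 := Ideal.ramificationIdx'_eq_ramificationIdx p m
  have hle : p.map (algebraMap R S) ≤ m := h.trans (Ideal.pow_le_self two_ne_zero)
  have h4 : Ideal.ramificationIdx' p m ≠ 1 := (Ideal.ramificationIdx'_ne_one_iff hle).2 h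
  have h5 : Nat.card (m.inertia G) ≠ 1 := by
    rw [h1, h2, ← h3 hp0]
    exact h4
  by_contra hcon
  push Not at hcon
  apply h5
  rw [Nat.card_eq_one_iff_unique]
  refine ⟨⟨fun a b => Subtype.ext ?_⟩, ⟨1⟩⟩
  rw [hcon a.1 a.2, hcon b.1 b.2]

section coll

variable {κ k : Type} [Field κ] [Field k] [Algebra κ k] {n a : ℕ} {P Q : κ[X]} {c β : κ}

/-- Collisions of roots of `P - t₁ Q` are at `β`. -/
theorem coll_eq (hP : Pen κ n a P Q c β) (ρ : Fin n → k)
    (h : P.map (algebraMap κ k) - C (algebraMap κ k (P.eval β / Q.eval β)) * Q.map (algebraMap κ k)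
      = ∏ i, (X - C (ρ i))) (i j : Fin n) (hij : i ≠ j) (hρ : ρ i = ρ j) :
    ρ i = algebraMap κ k β := by
  obtain ⟨t₁, ht₁⟩ : ∃ t₁, t₁ = P.eval β / Q.eval β := ⟨_, rfl⟩
  have ht0 : t₁ ≠ 0 := by
    rw [ht₁]
    exact div_ne_zero hP.Pβ hP.Qβ
  rw [← ht₁] at h
  obtain ⟨f, hf⟩ : ∃ f, f = P.map (algebraMap κ k) - C (algebraMap κ k t₁) *
      Q.map (algebraMap κ k) := ⟨_, rfl⟩
  rw [← hf] at h
  have hdvd : (X - C (ρ i)) ^ 2 ∣ f := by
    rw [h, sq]
    have h1 : ∏ l, (X - C (ρ l)) = (X - C (ρ i)) * ((X - C (ρ j)) *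
        ∏ l ∈ (Finset.univ.erase i).erase j, (X - C (ρ l))) := by
      rw [Finset.mul_prod_erase (Finset.univ.erase i) (fun l => X - C (ρ l))
        (Finset.mem_erase.2 ⟨hij.symm, Finset.mem_univ _⟩),
        Finset.mul_prod_erase Finset.univ (fun l => X - C (ρ l)) (Finset.mem_univ _)]
    rw [h1, ← hρ, ← mul_assoc]
    exact dvd_mul_right _ _
  have hf0 : f.eval (ρ i) = 0 := by
    obtain ⟨g, hg⟩ := hdvd
    rw [hg]
    simp
  have hf1 : (derivative f).eval (ρ i) = 0 := by
    obtain ⟨g, hg⟩ := hdvd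
    rw [hg]
    simp [derivative_mul, derivative_pow]
  have hW : derivative f * Q.map (algebraMap κ k) - f * derivative (Q.map (algebraMap κ k)) =
      (C c * X ^ a * (X - C β)).map (algebraMap κ k) := by
    rw [← hP.W, hf]
    simp only [derivative_sub, derivative_mul, derivative_C, Polynomial.map_sub,
      Polynomial.map_mul, derivative_map, zero_mul, zero_add]
    ring
  have h2 := congrArg (Polynomial.eval (ρ i)) hW
  rw [eval_sub, eval_mul, eval_mul, hf0, hf1, zero_mul, zero_mul, sub_zero, eval_map_algebraMap] at h2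
  simp only [map_mul, map_pow, map_sub, aeval_C, aeval_X] at h2
  have hc : algebraMap κ k c ≠ 0 := (_root_.map_ne_zero _).2 hP.c0
  have h3 := h2.symm
  rw [mul_eq_zero, mul_eq_zero] at h3
  rcases h3 with (h3 | h3) | h3
  · exact absurd h3 hc
  · exfalso
    have h4 : ρ i = 0 := by
      by_contra h0
      exact pow_ne_zero _ h0 h3
    rw [h4, hf, eval_sub, eval_mul, eval_C] at hf0
    have h5 : ∀ R : κ[X], (R.map (algebraMap κ k)).eval 0 = algebraMap κ k (R.eval 0) := by
      intro R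
      rw [← coeff_zero_eq_eval_zero, ← coeff_zero_eq_eval_zero, coeff_map]
    rw [h5, h5, hP.P0, map_zero, zero_sub, neg_eq_zero, mul_eq_zero] at hf0
    rcases hf0 with hf0 | hf0
    · exact ht0 ((map_eq_zero _).1 hf0)
    · exact hP.Q0 ((map_eq_zero _).1 hf0)
  · exact sub_eq_zero.1 h3

/-- There are no three roots of `P - t₁ Q` at `β`. -/
theorem coll_three (hP : Pen κ n a P Q c β) (ρ : Fin n → k)
    (h : P.map (algebraMap κ k) - C (algebraMap κ k (P.eval β / Q.eval β)) * Q.map (algebraMap κ k)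
      = ∏ i, (X - C (ρ i))) (i j l : Fin n) (hij : i ≠ j) (hil : i ≠ l) (hjl : j ≠ l)
    (hi : ρ i = algebraMap κ k β) (hj : ρ j = algebraMap κ k β) (hl : ρ l = algebraMap κ k β) :
    False := by
  obtain ⟨t₁, ht₁⟩ : ∃ t₁, t₁ = P.eval β / Q.eval β := ⟨_, rfl⟩
  rw [← ht₁] at h
  obtain ⟨b, hb⟩ : ∃ b, b = algebraMap κ k β := ⟨_, rfl⟩
  rw [← hb] at hi hj hl
  obtain ⟨f, hf⟩ : ∃ f, f = P.map (algebraMap κ k) - C (algebraMap κ k t₁) *
      Q.map (algebraMap κ k) := ⟨_, rfl⟩
  rw [← hf] at h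
  have hdvd : (X - C b) ^ 3 ∣ f := by
    have h1 : ∏ l', (X - C (ρ l')) = (X - C (ρ i)) * ((X - C (ρ j)) * ((X - C (ρ l)) *
        ∏ l' ∈ ((Finset.univ.erase i).erase j).erase l, (X - C (ρ l')))) := by
      rw [Finset.mul_prod_erase ((Finset.univ.erase i).erase j) (fun l' => X - C (ρ l'))
        (Finset.mem_erase.2 ⟨hjl.symm, Finset.mem_erase.2 ⟨hil.symm, Finset.mem_univ _⟩⟩),
        Finset.mul_prod_erase (Finset.univ.erase i) (fun l' => X - C (ρ l'))
        (Finset.mem_erase.2 ⟨hij.symm, Finset.mem_univ _⟩),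
        Finset.mul_prod_erase Finset.univ (fun l' => X - C (ρ l')) (Finset.mem_univ _)]
    rw [h, h1, hi, hj, hl]
    exact ⟨∏ l' ∈ ((Finset.univ.erase i).erase j).erase l, (X - C (ρ l')), by ring⟩
  have hdvd1 : (X - C b) ^ 2 ∣ derivative f := by
    obtain ⟨g, hg⟩ := hdvd
    refine ⟨C 3 * g + (X - C b) * derivative g, ?_⟩
    rw [hg]
    simp only [derivative_mul, derivative_pow, derivative_sub, derivative_X, derivative_C]
    simp
    ring
  have hW : derivative f * Q.map (algebraMap κ k) - f * derivative (Q.map (algebraMap κ k)) =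
      C (algebraMap κ k c) * X ^ a * (X - C b) := by
    have h0 : (C c * X ^ a * (X - C β)).map (algebraMap κ k) =
        C (algebraMap κ k c) * X ^ a * (X - C b) := by
      rw [hb]
      simp
    rw [← h0, ← hP.W, hf]
    simp only [derivative_sub, derivative_mul, derivative_C, Polynomial.map_sub,
      Polynomial.map_mul, derivative_map, zero_mul, zero_add]
    ring
  have hdvd2 : (X - C b) ^ 2 ∣ C (algebraMap κ k c) * X ^ a * (X - C b) := by
    rw [← hW]
    refine dvd_sub (hdvd1.mul_right _) ?_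
    exact ((pow_dvd_pow _ (by norm_num)).trans hdvd).mul_right _
  have hdvd3 : (X - C b) ∣ C (algebraMap κ k c) * X ^ a := by
    rw [sq] at hdvd2
    exact (mul_dvd_mul_iff_right (X_sub_C_ne_zero b)).1 hdvd2
  have h4 := (dvd_iff_isRoot.1 hdvd3).eq_zero
  rw [eval_mul, eval_C, eval_pow, eval_X, hb, ← map_pow, ← map_mul, map_eq_zero] at h4
  exact mul_ne_zero hP.c0 (pow_ne_zero _ hP.β0) h4

/-- Some root of `P - t₁ Q` is `β`, and `P - t₁ Q = (X - β)² g`. -/
theorem dvd_beta (hP : Pen κ n a P Q c β) :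
    (X - C β) ^ 2 ∣ P - C (P.eval β / Q.eval β) * Q := by
  obtain ⟨t₁, ht₁⟩ : ∃ t₁, t₁ = P.eval β / Q.eval β := ⟨_, rfl⟩
  rw [← ht₁]
  obtain ⟨f, hf⟩ : ∃ f, f = P - C t₁ * Q := ⟨_, rfl⟩
  rw [← hf]
  have hf0 : f.eval β = 0 := by
    rw [hf, eval_sub, eval_mul, eval_C, ht₁, div_mul_cancel₀ _ hP.Qβ, sub_self]
  have hW : derivative f * Q - f * derivative Q = C c * X ^ a * (X - C β) := by
    rw [← hP.W, hf]
    simp only [derivative_sub, derivative_mul, derivative_C, zero_mul, zero_add]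
    ring
  have h1 := congrArg (Polynomial.eval β) hW
  rw [eval_sub, eval_mul, eval_mul, hf0, zero_mul, sub_zero, eval_mul, eval_sub, eval_X, eval_C,
    sub_self, mul_zero, mul_eq_zero] at h1
  have hf1 : (derivative f).eval β = 0 := h1.resolve_right hP.Qβ
  obtain ⟨g, hg⟩ := dvd_iff_isRoot.2 (show f.IsRoot β from hf0)
  rw [hg] at hf1
  simp only [derivative_mul, derivative_sub, derivative_X, derivative_C, sub_zero, one_mul,
    eval_add, eval_mul, eval_sub, eval_X, eval_C, sub_self, zero_mul, add_zero] at hf1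
  obtain ⟨g', hg'⟩ := dvd_iff_isRoot.2 (show g.IsRoot β from hf1)
  exact ⟨g', by rw [hg, hg', sq, mul_assoc]⟩

end coll

end Pool.Agent.L7h25.AN
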