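import Mathlib
import Pool.Agent.L7h25.AN.SwapB

/-!
The piece SWAP.
-/

set_option autoImplicit false

namespace Pool.Agent.L7h25.AN

open Polynomial

/-- `swap_aux` for a Galois extension `M` of `κ(X)`. -/
theorem swap_gal {κ : Type} [Field κ] [IsAlgClosed κ] {n a : ℕ} {P Q : κ[X]} {c β : κ}
    (hP : Pen κ n a P Q c β) {M : Type} [Field M] [Algebra (RatFunc κ) M] [Algebra κ[X] M]
    [IsScalarTower κ[X] (RatFunc κ) M] [FiniteDimensional (RatFunc κ) M]
    [IsGalois (RatFunc κ) M] (r : Fin n → M)
    (hr : (P.map C - C X * Q.map C : κ[X][X]).map (algebraMap κ[X] M) = ∏ i, (X - C (r i)))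
    (hG : ∀ g : M ≃ₐ[RatFunc κ] M, (∀ i, g (r i) = r i) → g = 1) :
    ∃ (g : M ≃ₐ[RatFunc κ] M) (i j : Fin n), i ≠ j ∧ ∀ k, g (r k) = r (Equiv.swap i j k) := by
  classical
  let S := integralClosure κ[X] M
  have hdeg : (Q.map (C : κ →+* κ[X])).natDegree ≤ Q.natDegree := natDegree_map_le
  have hmon : (P.map C - C X * Q.map C : κ[X][X]).Monic := by
    have hm : (P.map (C : κ →+* κ[X])).Monic := hP.monic.map _
    refine hm.sub_of_left ?_
    refine (degree_lt_degree ?_)
    refine lt_of_le_of_lt (natDegree_C_mul_le _ _) (lt_of_le_of_lt hdeg ?_)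
    rw [natDegree_map_eq_of_injective C_injective, hP.deg]
    exact hP.degQ
  have hint : ∀ i, IsIntegral κ[X] (r i) := by
    intro i
    refine ⟨_, hmon, ?_⟩
    rw [← eval_map, hr, eval_prod]
    exact Finset.prod_eq_zero (Finset.mem_univ i) (by simp)
  let s : Fin n → S := fun i => ⟨r i, hint i⟩
  have i1 : IsDedekindDomain S := IsIntegralClosure.isDedekindDomain κ[X] (RatFunc κ) M S
  have i2 : Module.Finite κ[X] S := IsIntegralClosure.finite κ[X] (RatFunc κ) M S
  have i3 : IsFractionRing S M :=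
    IsIntegralClosure.isFractionRing_of_finite_extension κ[X] (RatFunc κ) M S
  have i4 : SMulCommClass (M ≃ₐ[RatFunc κ] M) κ[X] M := by
    refine ⟨fun g x y => ?_⟩
    rw [Algebra.smul_def, Algebra.smul_def, IsScalarTower.algebraMap_apply κ[X] (RatFunc κ) M,
      AlgEquiv.smul_def, AlgEquiv.smul_def, map_mul, AlgEquiv.commutes]
  have i5 : IsGaloisGroup (M ≃ₐ[RatFunc κ] M) κ[X] S :=
    IsGaloisGroup.of_isFractionRing (M ≃ₐ[RatFunc κ] M) κ[X] S (RatFunc κ) M
  have hinj : Function.Injective (algebraMap S M) := FaithfulSMul.algebraMap_injective S M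
  have i6 : Module.IsTorsionFree κ[X] S := by
    have h0 : Function.Injective (algebraMap κ[X] M) := by
      rw [IsScalarTower.algebraMap_eq κ[X] (RatFunc κ) M]
      exact (algebraMap (RatFunc κ) M).injective.comp (IsFractionRing.injective κ[X] (RatFunc κ))
    rw [Module.isTorsionFree_iff_algebraMap_injective]
    rw [IsScalarTower.algebraMap_eq κ[X] S M, RingHom.coe_comp] at h0
    exact Function.Injective.of_comp h0
  obtain ⟨g, i, j, hij, hg⟩ := swap_aux (G := M ≃ₐ[RatFunc κ] M) hP s (by
    apply Polynomial.map_injective (algebraMap S M) hinj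
    rw [Polynomial.map_map, ← IsScalarTower.algebraMap_eq, hr, Polynomial.map_prod]
    refine Finset.prod_congr rfl fun i _ => ?_
    rw [Polynomial.map_sub, map_X, map_C]
    rfl) (fun g hg => hG g fun i => by
      have h1 := congrArg (fun x : S => (x : M)) (hg i)
      exact h1)
  refine ⟨g, i, j, hij, fun k => ?_⟩
  have h1 := congrArg (fun x : S => (x : M)) (hg k)
  exact h1

theorem t_swap : St_swap := by
  intro κ _ _ n a P Q c β hP N _ _ _ t ht halg r hr hf
  classical
  let e := RatFunc.algEquivOfTranscendental t ht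
  let i1 : Algebra (RatFunc κ) N :=
    ((algebraMap (IntermediateField.adjoin κ {t}) N).comp
      (e : RatFunc κ →+* IntermediateField.adjoin κ {t})).toAlgebra
  have hmap : ∀ x : RatFunc κ, algebraMap (RatFunc κ) N x = (e x : N) := fun x => rfl
  let i2 : Algebra κ[X] N := ((algebraMap (RatFunc κ) N).comp
    (algebraMap κ[X] (RatFunc κ))).toAlgebra
  have i3 : IsScalarTower κ[X] (RatFunc κ) N := IsScalarTower.of_algebraMap_eq fun x => rfl
  have i4 : IsScalarTower κ (RatFunc κ) N := IsScalarTower.of_algebraMap_eq fun x => by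
    rw [hmap, AlgEquiv.commutes]
    rfl
  have hX : algebraMap (RatFunc κ) N RatFunc.X = t := by
    rw [hmap, RatFunc.algEquivOfTranscendental_X]
  have hN : Algebra.IsAlgebraic (RatFunc κ) N := by
    refine Algebra.IsAlgebraic.of_ringHom_of_comp_eq (S := IntermediateField.adjoin κ {t})
      (B := N) e (RingHom.id N) e.surjective Function.injective_id ?_
    rfl
  have hNc : IsAlgClosure (RatFunc κ) N := ⟨inferInstance, hN⟩
  have hNn : Normal (RatFunc κ) N := IsAlgClosure.normal (RatFunc κ) N
  -- the polynomial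
  obtain ⟨F, hF⟩ : ∃ F : (RatFunc κ)[X],
      F = (P.map C - C X * Q.map C : κ[X][X]).map (algebraMap κ[X] (RatFunc κ)) := ⟨_, rfl⟩
  have hXt : algebraMap κ[X] N X = t := by
    rw [IsScalarTower.algebraMap_apply κ[X] (RatFunc κ) N, RatFunc.algebraMap_X, hX]
  have hCx : (algebraMap κ[X] N).comp C = algebraMap κ N := by
    apply RingHom.ext
    intro x
    rw [RingHom.comp_apply, IsScalarTower.algebraMap_apply κ[X] (RatFunc κ) N,
      RatFunc.algebraMap_C, ← RatFunc.algebraMap_eq_C, ← IsScalarTower.algebraMap_apply]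
  have hfull : (P.map C - C X * Q.map C : κ[X][X]).map (algebraMap κ[X] N) =
      ∏ i, (X - C (r i)) := by
    rw [← hf]
    simp only [Polynomial.map_sub, Polynomial.map_mul, map_C, Polynomial.map_map, hXt, hCx]
  have hFN : F.map (algebraMap (RatFunc κ) N) = ∏ i, (X - C (r i)) := by
    rw [hF, Polynomial.map_map, ← IsScalarTower.algebraMap_eq, hfull]
  have hsplit : (F.map (algebraMap (RatFunc κ) N)).Splits := IsAlgClosed.splits _
  have hsep : F.Separable := by
    rw [← Polynomial.separable_map (algebraMap (RatFunc κ) N), hFN]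
    exact separable_prod_X_sub_C_iff.2 hr
  let M := IntermediateField.adjoin (RatFunc κ) (F.rootSet N)
  have i5 : F.IsSplittingField (RatFunc κ) M :=
    IntermediateField.adjoin_rootSet_isSplittingField hsplit
  have i6 : FiniteDimensional (RatFunc κ) M := IsSplittingField.finiteDimensional M F
  have i7 : IsGalois (RatFunc κ) M := IsGalois.of_separable_splitting_field hsep
  have hF0 : F.map (algebraMap (RatFunc κ) N) ≠ 0 := by
    rw [hFN]
    exact (monic_prod_of_monic _ _ fun i _ => monic_X_sub_C _).ne_zero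
  have hrM : ∀ i, r i ∈ F.rootSet N := by
    intro i
    rw [mem_rootSet']
    refine ⟨hF0, ?_⟩
    rw [aeval_def, ← eval_map, hFN, eval_prod]
    exact Finset.prod_eq_zero (Finset.mem_univ i) (by simp)
  have hrM' : ∀ x ∈ F.rootSet N, ∃ i, x = r i := by
    intro x hx
    rw [mem_rootSet'] at hx
    have h1 := hx.2
    rw [aeval_def, ← eval_map, hFN, eval_prod] at h1
    obtain ⟨i, -, hi⟩ := Finset.prod_eq_zero_iff.1 h1
    rw [eval_sub, eval_X, eval_C, sub_eq_zero] at hi
    exact ⟨i, hi⟩
  let ρ : Fin n → M := fun i => ⟨r i, IntermediateField.subset_adjoin _ _ (hrM i)⟩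
  have i8 : IsScalarTower κ[X] (RatFunc κ) M := inferInstance
  have i9 : IsScalarTower κ[X] M N := IsScalarTower.of_algebraMap_eq fun x => rfl
  obtain ⟨g, i, j, hij, hg⟩ := swap_gal hP (M := M) ρ (by
    apply Polynomial.map_injective (algebraMap M N) (algebraMap M N).injective
    rw [Polynomial.map_map, ← IsScalarTower.algebraMap_eq, hfull, Polynomial.map_prod]
    refine Finset.prod_congr rfl fun i _ => ?_
    rw [Polynomial.map_sub, map_X, map_C]
    rfl) (fun g hg => by
      apply AlgEquiv.ext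
      intro x
      have h1 : ∀ x : N, ∀ hx : x ∈ M, g ⟨x, hx⟩ = ⟨x, hx⟩ := by
        intro x hx
        induction hx using IntermediateField.adjoin_induction with
        | mem x hx =>
          obtain ⟨i, rfl⟩ := hrM' x hx
          exact hg i
        | algebraMap x => exact g.commutes x
        | add x y hx hy h1 h2 =>
          have h3 : (⟨x + y, add_mem hx hy⟩ : M) = ⟨x, hx⟩ + ⟨y, hy⟩ := rfl
          rw [h3, map_add, h1, h2]
        | inv x hx h1 =>
          have h3 : (⟨x⁻¹, inv_mem hx⟩ : M) = (⟨x, hx⟩ : M)⁻¹ := rfl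
          rw [h3, map_inv₀, h1]
        | mul x y hx hy h1 h2 =>
          have h3 : (⟨x * y, mul_mem hx hy⟩ : M) = ⟨x, hx⟩ * ⟨y, hy⟩ := rfl
          rw [h3, map_mul, h1, h2]
      exact h1 x.1 x.2)
  let σ : N ≃ₐ[RatFunc κ] N := g.liftNormal N
  refine ⟨σ.restrictScalars κ, i, j, hij, ?_, fun k => ?_⟩
  · change σ t = t
    rw [← hX, AlgEquiv.commutes]
  · change σ (r k) = _
    have h1 := g.liftNormal_commutes N (ρ k)
    rw [hg] at h1
    exact h1

end Pool.Agent.L7h25.AN
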