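import Mathlib
import Pool.Agent.L7h25.AN.Geo

/-!
The parameter `u`: pencils over `K(u)` whose discriminant is `δ` times a square.
-/

set_option autoImplicit false

namespace Pool.Agent.L7h25.AN

open Polynomial IntermediateField

theorem exists_roots {N : Type} [Field N] [IsAlgClosed N] (n : ℕ) (f : N[X]) (hf : f.Monic)
    (hn : f.natDegree = n) : ∃ r : Fin n → N, f = ∏ i, (X - C (r i)) := by
  have h1 := IsAlgClosed.splits f
  have h2 := h1.eq_prod_roots_of_monic hf
  have h3 : Multiset.card f.roots = n := by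
    rw [← hn]
    exact h1.natDegree_eq_card_roots.symm
  obtain ⟨l, hl⟩ : ∃ l : List N, (l : Multiset N) = f.roots := ⟨f.roots.toList, by simp⟩
  have h4 : l.length = n := by
    rw [← h3, ← hl, Multiset.coe_card]
  subst h4
  refine ⟨l.get, ?_⟩
  rw [h2, ← hl, Multiset.map_coe, Multiset.prod_coe]
  have h5 := List.prod_ofFn (f := fun i => X - C (l.get i))
  rw [← h5]
  have h6 : List.map (fun x => X - C x) (List.ofFn l.get) =
      List.ofFn ((fun x => X - C x) ∘ l.get) := List.map_ofFn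
  rw [List.ofFn_get] at h6
  rw [h6]
  rfl

theorem Pen.map {K K₀ : Type} [Field K] [Field K₀] [Algebra K K₀] {n a : ℕ} {P Q : K[X]} {c β : K}
    (hP : Pen K n a P Q c β) : Pen K₀ n a (P.map (algebraMap K K₀)) (Q.map (algebraMap K K₀))
      (algebraMap K K₀ c) (algebraMap K K₀ β) where
  n5 := hP.n5
  monic := hP.monic.map _
  deg := by rw [hP.monic.natDegree_map, hP.deg]
  degQ := lt_of_le_of_lt natDegree_map_le hP.degQ
  W := by
    have h1 := congrArg (Polynomial.map (algebraMap K K₀)) hP.W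
    simp only [Polynomial.map_sub, Polynomial.map_mul, Polynomial.map_pow, map_X, map_C,
      ← derivative_map] at h1
    exact h1
  c0 := (_root_.map_ne_zero _).2 hP.c0
  β0 := (_root_.map_ne_zero _).2 hP.β0
  P0 := by rw [← coeff_zero_eq_eval_zero, coeff_map, coeff_zero_eq_eval_zero, hP.P0, map_zero]
  Q0 := by
    rw [← coeff_zero_eq_eval_zero, coeff_map, coeff_zero_eq_eval_zero]
    exact (_root_.map_ne_zero _).2 hP.Q0
  Pβ := by
    rw [eval_map, eval₂_at_apply]
    exact (_root_.map_ne_zero _).2 hP.Pβ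
  Qβ := by
    rw [eval_map, eval₂_at_apply]
    exact (_root_.map_ne_zero _).2 hP.Qβ

/-- The sign of a permutation of the roots and the Vandermonde product. -/
theorem VV_perm {N : Type} [Field N] {n : ℕ} (r : Fin n → N) (π : Equiv.Perm (Fin n)) :
    VV (fun i => r (π i)) = ((Equiv.Perm.sign π : ℤˣ) : ℤ) • VV r := by
  have h1 := Equiv.Perm.prod_Ioi_comp_eq_sign_mul_prod π (f := fun i j => r j - r i)
    (fun i j => by ring)
  rw [VV, VV, h1, zsmul_eq_mul]

theorem VV_ne {N : Type} [Field N] {n : ℕ} (r : Fin n → N) (h : VV r ≠ 0) :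
    Function.Injective r := by
  have key : ∀ i j : Fin n, i < j → r i ≠ r j := by
    intro i j hij heq
    apply h
    rw [VV]
    refine Finset.prod_eq_zero (Finset.mem_univ i) ?_
    refine Finset.prod_eq_zero (Finset.mem_Ioi.2 hij) ?_
    rw [heq, sub_self]
  intro i j hij
  rcases lt_trichotomy i j with h1 | h1 | h1
  · exact absurd hij (key i j h1)
  · exact h1
  · exact absurd hij.symm (key j i h1)

theorem alg_of_mem {K₀ N : Type} [Field K₀] [Field N] [Algebra K₀ N] (u t : N)
    (hu : Transcendental K₀ u) (halg : Algebra.IsAlgebraic (adjoin K₀ {u}) N)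
    (hut : IsAlgebraic (adjoin K₀ {t}) u) :
    Transcendental K₀ t ∧ Algebra.IsAlgebraic (adjoin K₀ {t}) N := by
  constructor
  · intro ht
    apply hu
    have h1 : Algebra.IsAlgebraic K₀ (adjoin K₀ {t}) := isAlgebraic_adjoin_simple ht.isIntegral
    exact hut.restrictScalars K₀
  · have h1 : Algebra.IsAlgebraic (adjoin K₀ {t}) (adjoin (adjoin K₀ {t}) {u}) :=
      isAlgebraic_adjoin_simple hut.isIntegral
    have hle : ∀ x : N, x ∈ adjoin K₀ {u} → x ∈ adjoin (adjoin K₀ {t}) {u} := by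
      intro x hx
      have h2 : adjoin K₀ {u} ≤ (adjoin (adjoin K₀ {t}) {u}).restrictScalars K₀ := by
        rw [adjoin_le_iff, Set.singleton_subset_iff]
        exact mem_adjoin_simple_self _ u
      exact h2 hx
    let f : adjoin K₀ {u} →+* adjoin (adjoin K₀ {t}) {u} :=
      { toFun := fun x => ⟨x.1, hle x.1 x.2⟩
        map_one' := rfl
        map_mul' := fun _ _ => rfl
        map_zero' := rfl
        map_add' := fun _ _ => rfl }
    let _ : Algebra (adjoin K₀ {u}) (adjoin (adjoin K₀ {t}) {u}) := f.toAlgebra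
    have : IsScalarTower (adjoin K₀ {u}) (adjoin (adjoin K₀ {t}) {u}) N :=
      IsScalarTower.of_algebraMap_eq fun z => rfl
    have h3 : Algebra.IsAlgebraic (adjoin (adjoin K₀ {t}) {u}) N :=
      Algebra.IsAlgebraic.tower_top (K := adjoin K₀ {u}) (adjoin (adjoin K₀ {t}) {u})
    exact Algebra.IsAlgebraic.trans (adjoin K₀ {t}) (adjoin (adjoin K₀ {t}) {u}) N

/-- The parameter. -/
theorem exists_t {K K₀ N : Type} [Field K] [Field K₀] [Algebra K K₀] [Field N] [Algebra K₀ N]
    [Algebra K N] [IsScalarTower K K₀ N] (a : ℕ) (C0 δ t₁ : K) (ρ u : N) (hC : C0 ≠ 0)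
    (hδ : δ ≠ 0) (ht₁ : t₁ ≠ 0) (hρ : ρ ^ 2 = algebraMap K N δ) (hu : Transcendental K₀ u)
    (halg : Algebra.IsAlgebraic (adjoin K₀ {u}) N) :
    ∃ (t : N) (b : ℕ), Transcendental K₀ t ∧ Algebra.IsAlgebraic (adjoin K₀ {t}) N ∧
      (∀ σ : N ≃ₐ[K] N, σ u = u → σ t = t) ∧
      algebraMap K N C0 * t ^ a * (t - algebraMap K N t₁) = (ρ * u * t ^ b) ^ 2 := by
  have hC' : algebraMap K N C0 ≠ 0 := (_root_.map_ne_zero _).2 hC
  have hδ' : algebraMap K N δ ≠ 0 := (_root_.map_ne_zero _).2 hδ
  have ht' : algebraMap K N t₁ ≠ 0 := (_root_.map_ne_zero _).2 ht₁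
  have hu0 : u ≠ 0 := fun h => hu (h ▸ isAlgebraic_zero)
  have hmemK : ∀ (t : N) (x : K), algebraMap K N x ∈ adjoin K₀ {t} := fun t x => by
    rw [IsScalarTower.algebraMap_apply K K₀ N]
    exact IntermediateField.algebraMap_mem _ _
  have hutalg : ∀ t : N, u ^ 2 ∈ adjoin K₀ {t} → IsAlgebraic (adjoin K₀ {t}) u := by
    intro t ht
    refine IsAlgebraic.of_pow (n := 2) (by norm_num) ?_
    exact isAlgebraic_algebraMap (⟨u ^ 2, ht⟩ : adjoin K₀ {t})
  rcases Nat.even_or_odd a with ⟨b, hb⟩ | ⟨b, hb⟩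
  · -- `a` even
    obtain ⟨t, ht⟩ : ∃ t, t = algebraMap K N t₁ + algebraMap K N δ / algebraMap K N C0 * u ^ 2 :=
      ⟨_, rfl⟩
    have h1 : u ^ 2 = (t - algebraMap K N t₁) * algebraMap K N C0 / algebraMap K N δ := by
      rw [ht]
      field_simp
      ring
    have hmem : u ^ 2 ∈ adjoin K₀ {t} := by
      rw [h1]
      exact div_mem (mul_mem (sub_mem (mem_adjoin_simple_self _ t) (hmemK t t₁)) (hmemK t C0))
        (hmemK t δ)
    obtain ⟨h2, h3⟩ := alg_of_mem u t hu halg (hutalg t hmem)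
    refine ⟨t, b, h2, h3, fun σ hσ => ?_, ?_⟩
    · rw [ht, map_add, map_mul, map_div₀, map_pow, hσ, AlgEquiv.commutes, AlgEquiv.commutes,
        AlgEquiv.commutes]
    · have h4 : t - algebraMap K N t₁ = algebraMap K N δ / algebraMap K N C0 * u ^ 2 := by
        rw [ht]
        ring
      rw [h4, mul_pow, mul_pow, hρ, hb, ← two_mul, pow_mul']
      field_simp
  · -- `a` odd
    have hden : algebraMap K N C0 - algebraMap K N δ * u ^ 2 ≠ 0 := by
      intro h
      have h1 : u ^ 2 = algebraMap K N C0 / algebraMap K N δ := by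
        rw [eq_div_iff hδ']
        linear_combination -h
      apply hu
      refine IsAlgebraic.of_pow (n := 2) (by norm_num) ?_
      rw [h1, ← map_div₀, IsScalarTower.algebraMap_apply K K₀ N]
      exact isAlgebraic_algebraMap _
    obtain ⟨t, ht⟩ : ∃ t, t = algebraMap K N C0 * algebraMap K N t₁ /
      (algebraMap K N C0 - algebraMap K N δ * u ^ 2) := ⟨_, rfl⟩
    have ht0 : t ≠ 0 := by
      rw [ht]
      exact div_ne_zero (mul_ne_zero hC' ht') hden
    have h0 : t * (algebraMap K N C0 - algebraMap K N δ * u ^ 2) =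
        algebraMap K N C0 * algebraMap K N t₁ := by
      rw [ht, div_mul_cancel₀ _ hden]
    have h1 : u ^ 2 = algebraMap K N C0 * (t - algebraMap K N t₁) / (t * algebraMap K N δ) := by
      rw [eq_div_iff (mul_ne_zero ht0 hδ')]
      linear_combination -h0
    have hmem : u ^ 2 ∈ adjoin K₀ {t} := by
      rw [h1]
      exact div_mem (mul_mem (hmemK t C0) (sub_mem (mem_adjoin_simple_self _ t) (hmemK t t₁)))
        (mul_mem (mem_adjoin_simple_self _ t) (hmemK t δ))
    obtain ⟨h2, h3⟩ := alg_of_mem u t hu halg (hutalg t hmem)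
    refine ⟨t, b + 1, h2, h3, fun σ hσ => ?_, ?_⟩
    · rw [ht]
      simp only [map_div₀, map_mul, map_sub, map_pow, hσ, AlgEquiv.commutes]
    · have h4 : algebraMap K N C0 * (t - algebraMap K N t₁) = algebraMap K N δ * u ^ 2 * t := by
        linear_combination h0
      calc algebraMap K N C0 * t ^ a * (t - algebraMap K N t₁)
          = t ^ a * (algebraMap K N C0 * (t - algebraMap K N t₁)) := by ring
        _ = (ρ ^ 2) * u ^ 2 * (t ^ a * t) := by rw [h4, hρ]; ring
        _ = (ρ * u * t ^ (b + 1)) ^ 2 := by rw [hb]; ring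

end Pool.Agent.L7h25.AN
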