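import Mathlib
import Pool.Agent.L7h25.AN.AsmA
import Pool.Agent.L7h76.AN.Irr
import Pool.Agent.L7h76.AN.Disc

/-!
One of the three pencils exists in every case.
-/

set_option autoImplicit false
set_option linter.unusedSimpArgs false

namespace Pool.Agent.L7h25.AN

open Polynomial
theorem Fam.map {K K₀ : Type} [Field K] [Field K₀] [Algebra K K₀] {n : ℕ} {P Q : K[X]}
    (h : Fam K n P Q) :
    Fam K₀ n (P.map (algebraMap K K₀)) (Q.map (algebraMap K K₀)) := by
  rcases h with ⟨h1, h2⟩ | ⟨h0, h1, h2⟩ | ⟨h0, h1, h2⟩
  · exact Or.inl ⟨by rw [h1]; simp, by rw [h2]; simp⟩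
  · refine Or.inr (Or.inl ⟨?_, by rw [h1]; simp, by rw [h2]; simp⟩)
    rw [← map_natCast (algebraMap K K₀), h0, map_one]
  · refine Or.inr (Or.inr ⟨?_, by rw [h1]; simp, by rw [h2]; simp⟩)
    rw [← map_natCast (algebraMap K K₀), h0, map_zero]

/-- One of the three pencils exists in each case. -/
theorem exists_pen (K : Type) [Field K] (h2 : (2 : K) ≠ 0) (n : ℕ) (hn : 5 ≤ n) :
    ∃ (a : ℕ) (P Q : K[X]) (c β : K), Pen K n a P Q c β ∧ Fam K n P Q := by
  obtain ⟨m, rfl⟩ : ∃ m, n = m + 5 := ⟨n - 5, by omega⟩
  have hdegP : ((X : K[X]) ^ (m + 4) * (X - 1)).Monic ∧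
      ((X : K[X]) ^ (m + 4) * (X - 1)).natDegree = m + 5 := by
    have h1 : (X - 1 : K[X]) = X - C 1 := by rw [map_one]
    have h3 : ((X : K[X]) ^ (m + 4)).Monic := monic_X_pow _
    rw [h1]
    refine ⟨h3.mul (monic_X_sub_C 1), ?_⟩
    rw [h3.natDegree_mul (monic_X_sub_C 1), natDegree_X_pow, natDegree_X_sub_C]
  by_cases hn0 : ((m + 5 : ℕ) : K) = 0
  · -- third family
    refine ⟨m + 2, X ^ (m + 3) * (X ^ 2 - 2 * X - 1), 1, 2, -1, ?_, Or.inr (Or.inr ⟨hn0, rfl, rfl⟩)⟩
    have hmon2 : (X ^ 2 - 2 * X - 1 : K[X]).Monic ∧ (X ^ 2 - 2 * X - 1 : K[X]).natDegree = 2 := by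
      have h1 : (X ^ 2 - 2 * X - 1 : K[X]) = X ^ 2 + C (-2) * X + C (-1) := by
        rw [map_neg, map_neg, map_one, C_ofNat]
        ring
      rw [h1]
      constructor
      · monicity!
      · compute_degree!
    have h3 : ((X : K[X]) ^ (m + 3)).Monic := monic_X_pow _
    have hm : (m : K) = -5 := by
      push_cast at hn0
      linear_combination hn0
    exact
      { n5 := by omega
        monic := h3.mul hmon2.1
        deg := by rw [h3.natDegree_mul hmon2.1, natDegree_X_pow, hmon2.2]
        degQ := by rw [natDegree_one]; omega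
        W := by
          have hC : (C (m : K) : K[X]) = -5 := by rw [hm, map_neg, C_ofNat]
          simp only [derivative_mul, derivative_X_pow, derivative_sub, derivative_one,
            derivative_X, derivative_ofNat, map_add, map_natCast, Nat.cast_add, Nat.cast_ofNat,
            mul_one, mul_zero, sub_zero, zero_mul, zero_add, map_neg, map_one, map_ofNat,
            Nat.add_sub_cancel]
          rw [← C_eq_natCast, hC]
          simp only [show m + 3 - 1 = m + 2 from rfl, show 2 - 1 = 1 from rfl]
          ring
        c0 := h2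
        β0 := neg_ne_zero.2 one_ne_zero
        P0 := by simp
        Q0 := by simp
        Pβ := by
          simp only [eval_mul, eval_pow, eval_X, eval_sub, eval_one, eval_ofNat]
          refine mul_ne_zero (pow_ne_zero _ (neg_ne_zero.2 one_ne_zero)) ?_
          have : ((-1 : K) ^ 2 - 2 * -1 - 1) = 2 := by ring
          rw [this]
          exact h2
        Qβ := by simp }
  by_cases hn1 : ((m + 5 : ℕ) : K) = 1
  · -- second family
    refine ⟨m + 5, X ^ (m + 4) * (X - 1), X ^ 2 - 2 * X + 2, -1, 2, ?_,
      Or.inr (Or.inl ⟨hn1, rfl, rfl⟩)⟩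
    have hm : (m : K) = -4 := by
      push_cast at hn1
      linear_combination hn1
    exact
      { n5 := by omega
        monic := hdegP.1
        deg := hdegP.2
        degQ := by
          have h1 : (X ^ 2 - 2 * X + 2 : K[X]).natDegree ≤ 2 := by
            have h1 : (X ^ 2 - 2 * X + 2 : K[X]) = X ^ 2 + C (-2) * X + C 2 := by
              rw [map_neg, C_ofNat]
              ring
            rw [h1]
            compute_degree
          omega
        W := by
          have hC : (C (m : K) : K[X]) = -4 := by rw [hm, map_neg, C_ofNat]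
          simp only [derivative_mul, derivative_X_pow, derivative_sub, derivative_one,
            derivative_X, derivative_ofNat, map_add, map_natCast, Nat.cast_add, Nat.cast_ofNat,
            mul_one, mul_zero, sub_zero, zero_mul, zero_add, map_neg, map_one, map_ofNat,
            derivative_add]
          rw [← C_eq_natCast, hC]
          simp only [show m + 4 - 1 = m + 3 from rfl, show 2 - 1 = 1 from rfl]
          ring
        c0 := neg_ne_zero.2 one_ne_zero
        β0 := h2
        P0 := by simp
        Q0 := by simpa using h2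
        Pβ := by
          simp only [eval_mul, eval_pow, eval_X, eval_sub, eval_one]
          refine mul_ne_zero (pow_ne_zero _ h2) ?_
          have : (2 - 1 : K) = 1 := by ring
          rw [this]
          exact one_ne_zero
        Qβ := by
          simp only [eval_mul, eval_pow, eval_X, eval_sub, eval_add, eval_ofNat]
          have : (2 ^ 2 - 2 * 2 + 2 : K) = 2 := by ring
          rw [this]
          exact h2 }
  · -- first family
    have hn1' : ((m + 5 : ℕ) : K) - 1 ≠ 0 := sub_ne_zero.2 hn1
    refine ⟨m + 3, X ^ (m + 4) * (X - 1), 1, ((m + 5 : ℕ) : K),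
      (((m + 5 : ℕ) : K) - 1) / ((m + 5 : ℕ) : K), ?_, Or.inl ⟨rfl, rfl⟩⟩
    exact
      { n5 := by omega
        monic := hdegP.1
        deg := hdegP.2
        degQ := by rw [natDegree_one]; omega
        W := by
          have h4 : C ((m + 5 : ℕ) : K) * (X - C ((((m + 5 : ℕ) : K) - 1) / ((m + 5 : ℕ) : K))) =
              C ((m + 5 : ℕ) : K) * X - C (((m + 5 : ℕ) : K) - 1) := by
            rw [mul_sub, ← C_mul, mul_div_cancel₀ _ hn0]
          have h5 : C ((m + 5 : ℕ) : K) * X ^ (m + 3) *
              (X - C ((((m + 5 : ℕ) : K) - 1) / ((m + 5 : ℕ) : K))) =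
              X ^ (m + 3) * (C ((m + 5 : ℕ) : K) * X - C (((m + 5 : ℕ) : K) - 1)) := by
            rw [← h4]
            ring
          rw [h5]
          simp only [derivative_mul, derivative_X_pow, derivative_sub, derivative_one,
            derivative_X, map_add, map_natCast, Nat.cast_add, Nat.cast_ofNat,
            mul_one, mul_zero, sub_zero, map_one, map_ofNat, map_sub]
          simp only [show m + 4 - 1 = m + 3 from rfl]
          ring
        c0 := hn0
        β0 := div_ne_zero hn1' hn0
        P0 := by simp
        Q0 := by simp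
        Pβ := by
          simp only [eval_mul, eval_pow, eval_X, eval_sub, eval_one]
          refine mul_ne_zero (pow_ne_zero _ (div_ne_zero hn1' hn0)) ?_
          rw [sub_ne_zero, Ne, div_eq_one_iff_eq hn0]
          intro h
          exact one_ne_zero (sub_eq_self.1 h)
        Qβ := by simp }

end Pool.Agent.L7h25.AN
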