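import Mathlib
import Pool.Agent.L7h25.AN.AsmB
import Pool.Agent.N93.PP.AriP
import Pool.Agent.Y793.Tc

/-!
The arithmetic assembly: `A_n` and quadratic characters.
-/

set_option autoImplicit false

namespace Pool.Agent.L7h25.AN

open Polynomial IntermediateField
open Pool.Agent.H391R2 (Wr)
open Pool.Agent.H391R2.T4 (RegSol)

/-- A square root of a character (as in `Pool.Agent.N70.PP.exists_rho`). -/
theorem exists_rho (K L : Type) [Field K] [Field L] [Algebra K L]
    [FiniteDimensional K L] [IsGalois K L] (χ : (L ≃ₐ[K] L) →* ℤˣ) :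
    ∃ (ρ : L) (δ : K), ρ ≠ 0 ∧ algebraMap K L δ = ρ ^ 2 ∧
      ∀ h : L ≃ₐ[K] L, h ρ = ((χ h : ℤˣ) : ℤ) • ρ := by
  classical
  have hli : LinearIndependent L (fun h : L ≃ₐ[K] L => (h : L → L)) :=
    (linearIndependent_monoidHom L L).comp (fun h : L ≃ₐ[K] L => (h : L →* L))
      (fun h h' hh => AlgEquiv.ext fun x => DFunLike.congr_fun hh x)
  have hx : ∃ x : L, ∑ h : L ≃ₐ[K] L, ((χ h : ℤˣ) : ℤ) • h x ≠ 0 := by
    by_contra hcon
    push Not at hcon
    have h1 := Fintype.linearIndependent_iff.1 hli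
      (fun h => (((χ h : ℤˣ) : ℤ) : L)) (by
        funext x
        rw [Finset.sum_apply]
        simp only [Pi.smul_apply, smul_eq_mul, Pi.zero_apply]
        rw [← hcon x]
        refine Finset.sum_congr rfl fun h _ => ?_
        rw [zsmul_eq_mul]) 1
    rw [map_one] at h1
    simp at h1
  obtain ⟨x, hx⟩ := hx
  set ρ := ∑ h : L ≃ₐ[K] L, ((χ h : ℤˣ) : ℤ) • h x with hρ
  have h2 : ∀ h' : L ≃ₐ[K] L, h' ρ = ((χ h' : ℤˣ) : ℤ) • ρ := by
    intro h'
    rw [hρ, map_sum, Finset.smul_sum, ← Equiv.sum_comp (Equiv.mulLeft h')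
      (fun h => ((χ h' : ℤˣ) : ℤ) • ((χ h : ℤˣ) : ℤ) • h x)]
    refine Finset.sum_congr rfl fun h _ => ?_
    rw [map_zsmul, Equiv.coe_mulLeft, map_mul, smul_smul, Units.val_mul, ← mul_assoc]
    have h3 : ((χ h' : ℤˣ) : ℤ) * ((χ h' : ℤˣ) : ℤ) = 1 := by
      rcases Int.units_eq_one_or (χ h') with h4 | h4 <;> simp [h4]
    rw [h3, one_mul]
    rfl
  have h4 : ρ ^ 2 ∈ (⊥ : IntermediateField K L) := by
    rw [IsGalois.mem_bot_iff_fixed]
    intro h
    rw [map_pow, h2, zsmul_eq_mul, mul_pow]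
    rcases Int.units_eq_one_or (χ h) with h5 | h5 <;> simp [h5]
  obtain ⟨δ, hδ⟩ := IntermediateField.mem_bot.1 h4
  exact ⟨ρ, δ, hx, hδ, h2⟩

/-- A sign which multiplies a nonzero element trivially is `1`, in characteristic `≠ 2`. -/
theorem sign_eq {N : Type} [Field N] (h2 : (2 : N) ≠ 0) (a b : ℤˣ) (V : N) (hV : V ≠ 0)
    (h : ((a : ℤˣ) : ℤ) • V = ((b : ℤˣ) : ℤ) • V) : a = b := by
  have key : ∀ W : N, W = -W → W = 0 := by
    intro W hW
    have h1 : (2 : N) * W = 0 := by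
      rw [two_mul]
      nth_rewrite 2 [hW]
      rw [add_neg_cancel]
    exact (mul_eq_zero.1 h1).resolve_left h2
  rcases Int.units_eq_one_or a with ha | ha <;> rcases Int.units_eq_one_or b with hb | hb
  · rw [ha, hb]
  · rw [ha, hb] at h
    simp only [Units.val_one, Units.val_neg, one_smul, neg_smul] at h
    exact absurd (key V h) hV
  · rw [ha, hb] at h
    simp only [Units.val_one, Units.val_neg, one_smul, neg_smul] at h
    exact absurd (key V h.symm) hV
  · rw [ha, hb]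

/-- **The main arithmetic theorem**: the embedding problem `{(s, g) : sign s = χ g} → Gal(L/K)` has a
regular solution, `K` any infinite field of characteristic `≠ 2`. -/
theorem reg_sgnFib (K L : Type) [Field K] [Infinite K] [Field L] [Algebra K L]
    [FiniteDimensional K L] [IsGalois K L] (h2 : (2 : K) ≠ 0) (n : ℕ) (hn : 5 ≤ n)
    (χ : (L ≃ₐ[K] L) →* ℤˣ) :
    RegSol K L (SgnFib n χ) ((MonoidHom.snd (Wr Unit n) (L ≃ₐ[K] L)).comp (SgnFib n χ).subtype) := by
  classical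
  obtain ⟨a, P, Q, c, β, hP, hF⟩ := exists_pen K h2 n hn
  obtain ⟨C0, hC0, hdisc⟩ := Pool.Agent.L7h76.AN.st_disc K n a P Q c β hP
  obtain ⟨ρ, δ, hρ0, hδ, hρ⟩ := exists_rho K L χ
  have hδ0 : δ ≠ 0 := by
    intro h
    rw [h, map_zero] at hδ
    exact hρ0 (pow_eq_zero_iff (two_ne_zero) |>.1 hδ.symm)
  let K₀ := AlgebraicClosure K
  let jL : L →ₐ[K] K₀ := IsAlgClosed.lift
  let iL : Algebra L K₀ := jL.toRingHom.toAlgebra
  have tKL : IsScalarTower K L K₀ := .of_algebraMap_eq fun x => (jL.commutes x).symm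
  obtain ⟨N, i1, i2, i3, η, hη⟩ := Pool.Agent.Y793.exists_trb K₀ Unit
  let i4 : Algebra K N := ((algebraMap K₀ N).comp (algebraMap K K₀)).toAlgebra
  let i4L : Algebra L N := ((algebraMap K₀ N).comp (algebraMap L K₀)).toAlgebra
  have i5 : IsScalarTower K K₀ N := .of_algebraMap_eq fun _ => rfl
  have i5L : IsScalarTower L K₀ N := .of_algebraMap_eq fun _ => rfl
  have i6 : IsScalarTower K L N := .of_algebraMap_eq fun x => by
    rw [IsScalarTower.algebraMap_apply K K₀ N, IsScalarTower.algebraMap_apply K L K₀,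
      ← IsScalarTower.algebraMap_apply L K₀ N]
  have h2N : (2 : N) ≠ 0 := by
    rw [← map_ofNat (algebraMap K N) 2]
    exact (_root_.map_ne_zero _).2 h2
  obtain ⟨u, hu⟩ : ∃ u, u = η () := ⟨_, rfl⟩
  have hutr : Transcendental K₀ u := by
    rw [hu]
    exact hη.1.transcendental ()
  have hual : Algebra.IsAlgebraic (adjoin K₀ {u}) N := by
    have h3 := hη.isAlgebraic_field
    have h4 : Set.range η = {u} := by
      ext x
      constructor
      · rintro ⟨i, rfl⟩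
        rw [hu]
        rfl
      · rintro rfl
        exact ⟨(), hu.symm⟩
    rw [h4] at h3
    exact h3
  obtain ⟨t₁, ht₁⟩ : ∃ t₁, t₁ = P.eval β / Q.eval β := ⟨_, rfl⟩
  have ht₁0 : t₁ ≠ 0 := by
    rw [ht₁]
    exact div_ne_zero hP.Pβ hP.Qβ
  obtain ⟨ρN, hρN⟩ : ∃ ρN, ρN = algebraMap L N ρ := ⟨_, rfl⟩
  have hρN0 : ρN ≠ 0 := by
    rw [hρN]
    exact (_root_.map_ne_zero _).2 hρ0
  have hρ2 : ρN ^ 2 = algebraMap K N δ := by
    rw [hρN, ← map_pow, ← hδ, ← IsScalarTower.algebraMap_apply]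
  obtain ⟨t, b, httr, htal, htσ, htV⟩ := exists_t (K₀ := K₀) a C0 δ t₁ ρN u hC0 hδ0 ht₁0 hρ2 hutr
    hual
  have ht0 : t ≠ 0 := fun h => httr (h ▸ isAlgebraic_zero)
  have hu0 : u ≠ 0 := fun h => hutr (h ▸ isAlgebraic_zero)
  -- the roots
  obtain ⟨f, hf⟩ : ∃ f : N[X], f = P.map (algebraMap K N) - C t * Q.map (algebraMap K N) :=
    ⟨_, rfl⟩
  have hfm : f.Monic ∧ f.natDegree = n := by
    have h3 : (P.map (algebraMap K N)).Monic := hP.monic.map _
    have h4 : (P.map (algebraMap K N)).natDegree = n := by rw [hP.monic.natDegree_map, hP.deg]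
    have h5 : (C t * Q.map (algebraMap K N)).natDegree < n :=
      lt_of_le_of_lt (natDegree_C_mul_le _ _) (lt_of_le_of_lt natDegree_map_le hP.degQ)
    have h6 : (C t * Q.map (algebraMap K N)).degree < (P.map (algebraMap K N)).degree :=
      degree_lt_degree (by rw [h4]; exact h5)
    rw [hf]
    refine ⟨h3.sub_of_left h6, ?_⟩
    rw [natDegree_sub_eq_left_of_natDegree_lt (by rw [h4]; exact h5), h4]
  obtain ⟨r, hr⟩ := exists_roots n f hfm.1 hfm.2
  rw [hf] at hr
  have hV2 := hdisc N t r hr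
  rw [← ht₁, htV] at hV2
  obtain ⟨ε, hε⟩ : ∃ ε : ℤˣ, VV r = ((ε : ℤˣ) : ℤ) • (ρN * u * t ^ b) := by
    rcases sq_eq_sq_iff_eq_or_eq_neg.1 hV2 with h3 | h3
    · exact ⟨1, by rw [h3]; simp⟩
    · exact ⟨-1, by rw [h3]; simp⟩
  have hprod0 : ρN * u * t ^ b ≠ 0 := mul_ne_zero (mul_ne_zero hρN0 hu0) (pow_ne_zero _ ht0)
  have hεN : (((ε : ℤˣ) : ℤ) : N) ≠ 0 := by
    rcases Int.units_eq_one_or ε with h3 | h3 <;> simp [h3]
  have hV0 : VV r ≠ 0 := by
    rw [hε, zsmul_eq_mul]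
    exact mul_ne_zero hεN hprod0
  have hrinj : Function.Injective r := VV_ne r hV0
  have hVσ : ∀ (σ : N ≃+* N) (π : Equiv.Perm (Fin n)), (∀ k, σ (r k) = r (π k)) →
      σ (VV r) = ((Equiv.Perm.sign π : ℤˣ) : ℤ) • VV r := by
    intro σ π h3
    rw [← VV_perm, VV, VV, map_prod]
    refine Finset.prod_congr rfl fun i _ => ?_
    rw [map_prod]
    refine Finset.prod_congr rfl fun j _ => ?_
    rw [map_sub, h3, h3]
  refine Pool.Agent.N93.PP.t_ariP K L K₀ N Unit η hη Unit n (SgnFib n χ) r hrinj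
    (fun i _ => r i) (fun i => Function.injective_of_subsingleton _) ?_ ?_
  · -- automorphisms over `K(u)`
    intro σ hσ
    have hσu : σ u = u := by rw [hu]; exact hσ ()
    have hσt : σ t = t := htσ σ hσu
    obtain ⟨π, hπ⟩ := perm_of (κ := K) hrinj hr σ hσt
    have hnorm : Normal K L := inferInstance
    obtain ⟨h, hh⟩ : ∃ h : L ≃ₐ[K] L, ∀ x, σ (algebraMap L N x) = algebraMap L N (h x) :=
      ⟨σ.restrictNormal L, fun x => (σ.restrictNormal_commutes L x).symm⟩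
    have hsign : Equiv.Perm.sign π = χ h := by
      refine sign_eq h2N _ _ (VV r) hV0 ?_
      rw [← hVσ (σ : N ≃+* N) π hπ]
      change σ (VV r) = _
      rw [hε, map_zsmul, map_mul, map_mul, map_pow, hσu, hσt, hρN, hh, hρ, map_zsmul, smul_comm]
      simp only [zsmul_eq_mul]
      ring
    refine ⟨(⟨1, π⟩, h), hsign, hh, fun i => ⟨hπ i, fun _ => hπ i⟩⟩
  · rintro ⟨⟨w, π⟩, h⟩ hz hz2
    have hsign : Equiv.Perm.sign π = 1 := by
      have h3 : Equiv.Perm.sign π = χ h := hz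
      have h4 : h = 1 := hz2
      rw [h3, h4, map_one]
    obtain ⟨H, hH, hirr⟩ := Pool.Agent.L7h76.AN.st_irr K₀ (by
      rw [← map_ofNat (algebraMap K K₀) 2]
      exact (_root_.map_ne_zero _).2 h2) n _ _ hn (hF.map (K₀ := K₀))
    have hr' : (P.map (algebraMap K K₀)).map (algebraMap K₀ N) -
        C t * (Q.map (algebraMap K K₀)).map (algebraMap K₀ N) = ∏ i, (X - C (r i)) := by
      rw [Polynomial.map_map, Polynomial.map_map, ← IsScalarTower.algebraMap_eq, hr]
    obtain ⟨σ, hσt, hσ⟩ := geo_all (hP.map (K₀ := K₀)) H hH hirr httr htal hrinj hr' π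
    have hσu : σ u = u := by
      have h3 := hVσ (σ : N ≃+* N) π hσ
      rw [hsign, Units.val_one, one_smul] at h3
      change σ (VV r) = _ at h3
      have h4 : σ ρN = ρN := by
        rw [hρN, IsScalarTower.algebraMap_apply L K₀ N, AlgEquiv.commutes]
      rw [hε, map_zsmul, map_mul, map_mul, map_pow, hσt, h4, zsmul_eq_mul, zsmul_eq_mul] at h3
      have h5 := mul_left_cancel₀ hεN h3
      have h6 := mul_right_cancel₀ (pow_ne_zero b ht0) h5
      exact mul_left_cancel₀ hρN0 h6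
    refine ⟨σ, fun v => ?_, fun i => ⟨hσ i, fun _ => hσ i⟩⟩
    rw [show η v = u from hu.symm]
    exact hσu

end Pool.Agent.L7h25.AN
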