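import Mathlib
import Pool.Agent.L7h25.AN.Stm

/-!
Statements (NOT results) of the pieces of the project AN in characteristic two (owner helper25,
problem MP_7f581e_nt).
-/

set_option autoImplicit false

namespace Pool.Agent.L7h25.AN

open Polynomial

/-- The pencils `P - tQ` in characteristic two. `β` is the wildly ramified point; the branch point is
`t₁ = P(β) / Q(β)`. -/
def Fam2 (K : Type) [Field K] (n : ℕ) (P Q : K[X]) (β : K) : Prop :=
  (Even n ∧ β ≠ 0 ∧ β ≠ 1 ∧ P = X ^ (n - 1) * (X + 1) ∧ Q = X + C (β ^ 2)) ∨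
  (Odd n ∧ β = 1 ∧ ∃ b : K, b ≠ 0 ∧ b ≠ 1 ∧ P = X ^ (n - 2) * (X ^ 2 + C b * X + 1) ∧ Q = 1)

/-- The pencil `P - tQ`: `P` is monic of degree `n > deg Q`, `P' Q - P Q' = c X^a (X - β)^m` and
`P - t₁ Q` has a zero of order exactly `2` in `β`. -/
structure PenG (K : Type) [Field K] (n a m : ℕ) (P Q : K[X]) (c β : K) : Prop where
  n5 : 5 ≤ n
  monic : P.Monic
  deg : P.natDegree = n
  degQ : Q.natDegree < n
  m0 : m ≠ 0
  W : derivative P * Q - P * derivative Q = C c * X ^ a * (X - C β) ^ m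
  c0 : c ≠ 0
  β0 : β ≠ 0
  P0 : P.eval 0 = 0
  Q0 : Q.eval 0 ≠ 0
  Pβ : P.eval β ≠ 0
  Qβ : Q.eval β ≠ 0
  contact : ∃ g : K[X], P - C (P.eval β / Q.eval β) * Q = (X - C β) ^ 2 * g ∧ g.eval β ≠ 0

/-- PEN2. -/
def St_pen2 : Prop :=
  ∀ (K : Type) [Field K] [CharP K 2] (n : ℕ) (P Q : K[X]) (β : K), 5 ≤ n → Fam2 K n P Q β →
    ∃ a : ℕ, PenG K n a 2 P Q 1 β

/-- IRR2. -/
def St_irr2 : Prop :=
  ∀ (κ : Type) [Field κ] [IsAlgClosed κ] [CharP κ 2] (n : ℕ) (P Q : κ[X]) (β : κ), 5 ≤ n →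
    Fam2 κ n P Q β → ∃ H : κ[X][X], (X - C X) * H = P.map C * C Q - C P * Q.map C ∧
      Irreducible (H.map (algebraMap κ[X] (RatFunc κ)))

/-- Berlekamp's element. -/
noncomputable def TT {N : Type} [Field N] {n : ℕ} (r : Fin n → N) : N :=
  ∑ i, ∑ j ∈ Finset.Ioi i, r i / (r i + r j)

/-- Berlekamp's discriminant. -/
noncomputable def DD {N : Type} [Field N] {n : ℕ} (r : Fin n → N) : N :=
  ∑ i, ∑ j ∈ Finset.Ioi i, r i * r j / (r i + r j) ^ 2

/-- TT. -/
def St_tt : Prop :=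
  ∀ (N : Type) [Field N] [CharP N 2] (n : ℕ) (r : Fin n → N), Function.Injective r →
    TT r ^ 2 + TT r = DD r ∧
    ∀ π : Equiv.Perm (Fin n),
      TT (fun i => r (π i)) = TT r + (if Equiv.Perm.sign π = 1 then 0 else 1) ∧
      DD (fun i => r (π i)) = DD r

/-- VAL2. The terms of `DD` in valuation rings: poles are only at `s = t - t₁ = 0`, of order at
most `2`. -/
def St_val2 : Prop :=
  ∀ (K : Type) [Field K] [CharP K 2] (n : ℕ) (P Q : K[X]) (β : K), 5 ≤ n → Fam2 K n P Q β →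
    ∀ (N : Type) [Field N] [Algebra K N] (t : N), Transcendental K t → ∀ (r : Fin n → N),
    Function.Injective r →
    P.map (algebraMap K N) - C t * Q.map (algebraMap K N) = ∏ i, (X - C (r i)) →
    ∀ O : ValuationSubring N, (∀ x : K, algebraMap K N x ∈ O) → ∀ i j, i ≠ j →
      ((t - algebraMap K N (P.eval β / Q.eval β))⁻¹ ∈ O → r i * r j / (r i + r j) ^ 2 ∈ O) ∧
      ((t - algebraMap K N (P.eval β / Q.eval β)) ∈ O →
        (t - algebraMap K N (P.eval β / Q.eval β)) ^ 2 * (r i * r j / (r i + r j) ^ 2) ∈ O)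

/-- RAT. Elements of `K(s)` with poles only at `s = 0`, of order at most `2`. -/
def St_rat : Prop :=
  ∀ (K N : Type) [Field K] [Field N] [Algebra K N] (s D : N), Transcendental K s →
    D ∈ IntermediateField.adjoin K {s} →
    (∀ O : ValuationSubring N, (∀ x : K, algebraMap K N x ∈ O) →
      (s⁻¹ ∈ O → D ∈ O) ∧ (s ∈ O → s ^ 2 * D ∈ O)) →
    ∃ g0 g1 g2 : K, D = algebraMap K N g2 / s ^ 2 + algebraMap K N g1 / s + algebraMap K N g0

/-- TWO. Berlekamp's discriminant of `P - tQ`. -/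
def St_two : Prop :=
  ∀ (K : Type) [Field K] [CharP K 2] (n : ℕ) (P Q : K[X]) (β : K), 5 ≤ n → Fam2 K n P Q β →
    ∀ (N : Type) [Field N] [IsAlgClosed N] [Algebra K N] (t : N), Transcendental K t →
    ∀ (r : Fin n → N), Function.Injective r →
    P.map (algebraMap K N) - C t * Q.map (algebraMap K N) = ∏ i, (X - C (r i)) →
    ∃ g0 g1 g2 : K, DD r = algebraMap K N g2 / (t - algebraMap K N (P.eval β / Q.eval β)) ^ 2 +
      algebraMap K N g1 / (t - algebraMap K N (P.eval β / Q.eval β)) + algebraMap K N g0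

end Pool.Agent.L7h25.AN
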