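import Mathlib
import Pool.Agent.L7h25.AN.SwapA
import Pool.Agent.L7h25.AN.Stm2

/-!
Collisions of the roots of `P - t Q` at the branch point `t₁`, and inertia.
-/

set_option autoImplicit false

namespace Pool.Agent.L7h25.AN

open Polynomial

section coll

variable {κ k : Type} [Field κ] [Field k] [Algebra κ k] {n a m : ℕ} {P Q : κ[X]} {c β : κ}

/-- Collisions of roots of `P - t₁ Q` are at `β`. -/
theorem coll_eqG (hP : PenG κ n a m P Q c β) (ρ : Fin n → k)
    (h : P.map (algebraMap κ k) - C (algebraMap κ k (P.eval β / Q.eval β)) * Q.map (algebraMap κ k)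
      = ∏ i, (X - C (ρ i))) (i j : Fin n) (hij : i ≠ j) (hρ : ρ i = ρ j) :
    ρ i = algebraMap κ k β := by
  obtain ⟨t₁, ht₁⟩ : ∃ t₁, t₁ = P.eval β / Q.eval β := ⟨_, rfl⟩
  have ht0 : t₁ ≠ 0 := by
    rw [ht₁]
    exact div_ne_zero hP.Pβ hP.Qβ
  rw [← ht₁] at h
  obtain ⟨f, hf⟩ : ∃ f, f = P.map (algebraMap κ k) - C (algebraMap κ k t₁) *
      Q.map (algebraMap κ k) := ⟨_, rfl⟩
  rw [← hf] at h
  have hdvd : (X - C (ρ i)) ^ 2 ∣ f := by
    rw [h, sq]
    have h1 : ∏ l, (X - C (ρ l)) = (X - C (ρ i)) * ((X - C (ρ j)) *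
        ∏ l ∈ (Finset.univ.erase i).erase j, (X - C (ρ l))) := by
      rw [Finset.mul_prod_erase (Finset.univ.erase i) (fun l => X - C (ρ l))
        (Finset.mem_erase.2 ⟨hij.symm, Finset.mem_univ _⟩),
        Finset.mul_prod_erase Finset.univ (fun l => X - C (ρ l)) (Finset.mem_univ _)]
    rw [h1, ← hρ, ← mul_assoc]
    exact dvd_mul_right _ _
  have hf0 : f.eval (ρ i) = 0 := by
    obtain ⟨g, hg⟩ := hdvd
    rw [hg]
    simp
  have hf1 : (derivative f).eval (ρ i) = 0 := by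
    obtain ⟨g, hg⟩ := hdvd
    rw [hg]
    simp [derivative_mul, derivative_pow]
  have hW : derivative f * Q.map (algebraMap κ k) - f * derivative (Q.map (algebraMap κ k)) =
      (C c * X ^ a * (X - C β) ^ m).map (algebraMap κ k) := by
    rw [← hP.W, hf]
    simp only [derivative_sub, derivative_mul, derivative_C, Polynomial.map_sub,
      Polynomial.map_mul, derivative_map, zero_mul, zero_add]
    ring
  have h2 := congrArg (Polynomial.eval (ρ i)) hW
  rw [eval_sub, eval_mul, eval_mul, hf0, hf1, zero_mul, zero_mul, sub_zero, eval_map_algebraMap] at h2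
  simp only [map_mul, map_pow, map_sub, aeval_C, aeval_X] at h2
  have hc : algebraMap κ k c ≠ 0 := (_root_.map_ne_zero _).2 hP.c0
  have h3 := h2.symm
  rw [mul_eq_zero, mul_eq_zero] at h3
  rcases h3 with (h3 | h3) | h3
  · exact absurd h3 hc
  · exfalso
    have h4 : ρ i = 0 := by
      by_contra h0
      exact pow_ne_zero _ h0 h3
    rw [h4, hf, eval_sub, eval_mul, eval_C] at hf0
    have h5 : ∀ R : κ[X], (R.map (algebraMap κ k)).eval 0 = algebraMap κ k (R.eval 0) := by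
      intro R
      rw [← coeff_zero_eq_eval_zero, ← coeff_zero_eq_eval_zero, coeff_map]
    rw [h5, h5, hP.P0, map_zero, zero_sub, neg_eq_zero, mul_eq_zero] at hf0
    rcases hf0 with hf0 | hf0
    · exact ht0 ((map_eq_zero _).1 hf0)
    · exact hP.Q0 ((map_eq_zero _).1 hf0)
  · exact sub_eq_zero.1 ((pow_eq_zero_iff hP.m0).1 h3)

/-- There are no three roots of `P - t₁ Q` at `β`. -/
theorem coll_threeG (hP : PenG κ n a m P Q c β) (ρ : Fin n → k)
    (h : P.map (algebraMap κ k) - C (algebraMap κ k (P.eval β / Q.eval β)) * Q.map (algebraMap κ k)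
      = ∏ i, (X - C (ρ i))) (i j l : Fin n) (hij : i ≠ j) (hil : i ≠ l) (hjl : j ≠ l)
    (hi : ρ i = algebraMap κ k β) (hj : ρ j = algebraMap κ k β) (hl : ρ l = algebraMap κ k β) :
    False := by
  obtain ⟨t₁, ht₁⟩ : ∃ t₁, t₁ = P.eval β / Q.eval β := ⟨_, rfl⟩
  rw [← ht₁] at h
  obtain ⟨b, hb⟩ : ∃ b, b = algebraMap κ k β := ⟨_, rfl⟩
  rw [← hb] at hi hj hl
  obtain ⟨f, hf⟩ : ∃ f, f = P.map (algebraMap κ k) - C (algebraMap κ k t₁) *
      Q.map (algebraMap κ k) := ⟨_, rfl⟩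
  rw [← hf] at h
  have hdvd : (X - C b) ^ 3 ∣ f := by
    have h1 : ∏ l', (X - C (ρ l')) = (X - C (ρ i)) * ((X - C (ρ j)) * ((X - C (ρ l)) *
        ∏ l' ∈ ((Finset.univ.erase i).erase j).erase l, (X - C (ρ l')))) := by
      rw [Finset.mul_prod_erase ((Finset.univ.erase i).erase j) (fun l' => X - C (ρ l'))
        (Finset.mem_erase.2 ⟨hjl.symm, Finset.mem_erase.2 ⟨hil.symm, Finset.mem_univ _⟩⟩),
        Finset.mul_prod_erase (Finset.univ.erase i) (fun l' => X - C (ρ l'))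
        (Finset.mem_erase.2 ⟨hij.symm, Finset.mem_univ _⟩),
        Finset.mul_prod_erase Finset.univ (fun l' => X - C (ρ l')) (Finset.mem_univ _)]
    rw [h, h1, hi, hj, hl]
    exact ⟨∏ l' ∈ ((Finset.univ.erase i).erase j).erase l, (X - C (ρ l')), by ring⟩
  obtain ⟨g, hg, hg0⟩ := hP.contact
  rw [← ht₁] at hg
  have h2 : f = ((X - C β) ^ 2 * g).map (algebraMap κ k) := by
    rw [hf, ← hg]
    simp
  rw [h2] at hdvd
  have h3 : ((X - C β) ^ 2 * g).map (algebraMap κ k) =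
      (X - C b) ^ 2 * g.map (algebraMap κ k) := by
    rw [hb]
    simp
  rw [h3, pow_succ] at hdvd
  have h4 : (X - C b) ∣ g.map (algebraMap κ k) :=
    (mul_dvd_mul_iff_left (pow_ne_zero 2 (X_sub_C_ne_zero b))).1 hdvd
  have h5 := (dvd_iff_isRoot.1 h4).eq_zero
  rw [hb, eval_map, eval₂_at_apply, map_eq_zero] at h5
  exact hg0 h5

/-- Some root of `P - t₁ Q` is `β`, and `P - t₁ Q = (X - β)² g`. -/
theorem dvd_betaG (hP : PenG κ n a m P Q c β) :
    (X - C β) ^ 2 ∣ P - C (P.eval β / Q.eval β) * Q := by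
  obtain ⟨g, hg, -⟩ := hP.contact
  rw [hg]
  exact dvd_mul_right _ _

end coll

end Pool.Agent.L7h25.AN
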