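import Mathlib
import Pool.Agent.L7h25.AN.SwapB
import Pool.Agent.L7h25.AN.SwapGA

/-!
An inertia element at the branch point `t₁` is a transposition.
-/

set_option autoImplicit false

namespace Pool.Agent.L7h25.AN

open Polynomial

/-- The abstract form: `S` is the ring of integers in a Galois extension of `κ(X)` containing the
roots `s i` of `P - X Q`. -/
theorem swap_auxG {κ : Type} [Field κ] [IsAlgClosed κ] {n a m' : ℕ} {P Q : κ[X]} {c β : κ}
    (hP : PenG κ n a m' P Q c β) {S G : Type} [CommRing S] [IsDedekindDomain S] [Algebra κ[X] S]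
    [Group G] [MulSemiringAction G S] [IsGaloisGroup G κ[X] S] [Finite G] [Module.Finite κ[X] S]
    [Module.IsTorsionFree κ[X] S] (s : Fin n → S)
    (hs : (P.map C - C X * Q.map C : κ[X][X]).map (algebraMap κ[X] S) = ∏ i, (X - C (s i)))
    (hG : ∀ g : G, (∀ i, g • s i = s i) → g = 1) :
    ∃ (g : G) (i j : Fin n), i ≠ j ∧ ∀ k, g • s k = s (Equiv.swap i j k) := by
  classical
  obtain ⟨t₁, ht₁⟩ : ∃ t₁, t₁ = P.eval β / Q.eval β := ⟨_, rfl⟩
  let p : Ideal κ[X] := Ideal.span {X - C t₁}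
  have hpm : p.IsMaximal := by
    apply PrincipalIdealRing.isMaximal_of_irreducible
    exact irreducible_X_sub_C t₁
  have hp0 : p ≠ ⊥ := by
    intro h
    rw [Ideal.span_singleton_eq_bot] at h
    exact X_sub_C_ne_zero _ h
  obtain ⟨⟨m, hmp, hml⟩⟩ : Nonempty (p.primesOver S) := inferInstance
  have hmm : m.IsMaximal := Ideal.IsMaximal.of_liesOver_isMaximal m p
  have htm : algebraMap κ[X] S (X - C t₁) ∈ m := by
    have h1 : X - C t₁ ∈ p := Ideal.subset_span rfl
    rw [hml.over] at h1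
    exact h1
  letI := Ideal.Quotient.field m
  letI ak : Algebra κ (S ⧸ m) :=
    ((Ideal.Quotient.mk m).comp ((algebraMap κ[X] S).comp C)).toAlgebra
  have hak : ∀ x : κ, algebraMap κ (S ⧸ m) x = Ideal.Quotient.mk m (algebraMap κ[X] S (C x)) :=
    fun x => rfl
  have hres := algMap_res S m t₁ htm
  -- the residues of the roots
  have hρ : P.map (algebraMap κ (S ⧸ m)) - C (algebraMap κ (S ⧸ m) (P.eval β / Q.eval β)) *
      Q.map (algebraMap κ (S ⧸ m)) = ∏ i, (X - C (Ideal.Quotient.mk m (s i))) := by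
    have h1 := congrArg (Polynomial.map (Ideal.Quotient.mk m)) hs
    rw [Polynomial.map_prod] at h1
    simp only [Polynomial.map_sub, Polynomial.map_mul, map_C, map_X, Polynomial.map_map] at h1
    rw [← h1, ← ht₁]
    have h2 := hres X
    rw [eval_X] at h2
    rw [h2]
    rfl
  have hcoll := coll_eqG hP (fun i => Ideal.Quotient.mk m (s i)) hρ
  have hthree := coll_threeG hP (fun i => Ideal.Quotient.mk m (s i)) hρ
  -- some root reduces to β
  obtain ⟨f₁, hf₁⟩ := dvd_betaG hP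
  obtain ⟨i₀, hi₀⟩ : ∃ i, Ideal.Quotient.mk m (s i) = algebraMap κ (S ⧸ m) β := by
    have h1 := congrArg (Polynomial.eval (algebraMap κ (S ⧸ m) β)) hρ
    have h2 : P.map (algebraMap κ (S ⧸ m)) - C (algebraMap κ (S ⧸ m) (P.eval β / Q.eval β)) *
      Q.map (algebraMap κ (S ⧸ m)) = ((X - C β) ^ 2 * f₁).map (algebraMap κ (S ⧸ m)) := by
      rw [← hf₁]
      simp
    rw [h2, eval_prod] at h1
    have h3 : (((X - C β) ^ 2 * f₁).map (algebraMap κ (S ⧸ m))).eval (algebraMap κ (S ⧸ m) β) = 0 := by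
      simp
    rw [h3] at h1
    obtain ⟨i, -, hi⟩ := Finset.prod_eq_zero_iff.1 h1.symm
    rw [eval_sub, eval_X, eval_C, sub_eq_zero] at hi
    exact ⟨i, hi.symm⟩
  -- `X - t₁ ∈ m²`
  have hle : p.map (algebraMap κ[X] S) ≤ m ^ 2 := by
    rw [Ideal.map_span, Ideal.span_le, Set.image_singleton, Set.singleton_subset_iff]
    have hroot : aeval (s i₀) (P.map C - C X * Q.map C : κ[X][X]) = 0 := by
      rw [aeval_def, ← eval_map, hs, eval_prod]
      exact Finset.prod_eq_zero (Finset.mem_univ i₀) (by simp)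
    have hev : ∀ R : κ[X], aeval (s i₀) (R.map (C : κ →+* κ[X])) =
        R.eval₂ ((algebraMap κ[X] S).comp C) (s i₀) := by
      intro R
      rw [aeval_def, eval₂_map]
    rw [map_sub, map_mul, hev, hev, aeval_C] at hroot
    have h1 : algebraMap κ[X] S (X - C t₁) * Q.eval₂ ((algebraMap κ[X] S).comp C) (s i₀) =
        (s i₀ - algebraMap κ[X] S (C β)) ^ 2 *
          f₁.eval₂ ((algebraMap κ[X] S).comp C) (s i₀) := by
      have h2 := congrArg (Polynomial.eval₂ ((algebraMap κ[X] S).comp C) (s i₀)) hf₁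
      rw [eval₂_sub, eval₂_mul, eval₂_mul, eval₂_C, eval₂_pow, eval₂_sub, eval₂_X, eval₂_C,
        ← ht₁] at h2
      rw [map_sub, sub_mul]
      have h3 : algebraMap κ[X] S X * Q.eval₂ ((algebraMap κ[X] S).comp C) (s i₀) =
          P.eval₂ ((algebraMap κ[X] S).comp C) (s i₀) := (sub_eq_zero.1 hroot).symm
      rw [h3]
      exact h2
    refine mem_sq_of_mul m _ (Q.eval₂ ((algebraMap κ[X] S).comp C) (s i₀)) htm ?_ ?_
    · intro hQ
      rw [← Ideal.Quotient.eq_zero_iff_mem, hom_eval₂, hi₀] at hQ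
      have h4 : Q.eval₂ ((Ideal.Quotient.mk m).comp ((algebraMap κ[X] S).comp C))
          (algebraMap κ (S ⧸ m) β) = algebraMap κ (S ⧸ m) (Q.eval β) := by
        rw [show ((Ideal.Quotient.mk m).comp ((algebraMap κ[X] S).comp C)) =
          algebraMap κ (S ⧸ m) from rfl, eval₂_at_apply]
      rw [h4, map_eq_zero] at hQ
      exact hP.Qβ hQ
    · rw [h1]
      refine Ideal.mul_mem_right _ _ (Ideal.pow_mem_pow ?_ 2)
      rw [← Ideal.Quotient.mk_eq_mk_iff_sub_mem, hi₀, hak]
  haveI : PerfectField p.ResidueField := perf_residue p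
  obtain ⟨g, hg, hg1⟩ := exists_inertia (G := G) p hp0 m hle
  -- the permutation
  have hperm : ∀ i, ∃ j, g • s i = s j := by
    intro i
    have h1 : aeval (s i) (P.map C - C X * Q.map C : κ[X][X]) = 0 := by
      rw [aeval_def, ← eval_map, hs, eval_prod]
      exact Finset.prod_eq_zero (Finset.mem_univ i) (by simp)
    have h2 : aeval (g • s i) (P.map C - C X * Q.map C : κ[X][X]) = 0 := by
      have h3 := congrArg (MulSemiringAction.toAlgHom κ[X] S g) h1
      rw [map_zero, ← aeval_algHom_apply] at h3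
      exact h3
    rw [aeval_def, ← eval_map, hs, eval_prod] at h2
    obtain ⟨j, -, hj⟩ := Finset.prod_eq_zero_iff.1 h2
    rw [eval_sub, eval_X, eval_C, sub_eq_zero] at hj
    exact ⟨j, hj⟩
  choose π hπ using hperm
  have hmk : ∀ i, Ideal.Quotient.mk m (s (π i)) = Ideal.Quotient.mk m (s i) := by
    intro i
    rw [Ideal.Quotient.mk_eq_mk_iff_sub_mem, ← hπ]
    exact hg (s i)
  obtain ⟨i₁, hi₁⟩ : ∃ i, s (π i) ≠ s i := by
    by_contra hcon
    push Not at hcon
    exact hg1 (hG g fun i => by rw [hπ, hcon])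
  have hi₁' : π i₁ ≠ i₁ := fun h => hi₁ (by rw [h])
  have hb1 : Ideal.Quotient.mk m (s (π i₁)) = algebraMap κ (S ⧸ m) β :=
    hcoll (π i₁) i₁ hi₁' (hmk i₁)
  have hb2 : Ideal.Quotient.mk m (s i₁) = algebraMap κ (S ⧸ m) β := by rw [← hmk, hb1]
  have hfix : ∀ k, k ≠ i₁ → k ≠ π i₁ → π k = k := by
    intro k h1 h2
    by_contra h3
    have h4 := hcoll (π k) k h3 (hmk k)
    rw [hmk] at h4
    exact hthree i₁ (π i₁) k hi₁'.symm h1.symm h2.symm hb2 hb1 h4
  refine ⟨g, i₁, π i₁, hi₁'.symm, fun k => ?_⟩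
  by_cases h1 : k = i₁
  · subst h1
    rw [Equiv.swap_apply_left, hπ]
  by_cases h2 : k = π i₁
  · subst h2
    rw [Equiv.swap_apply_right]
    -- `g s (π i₁)`
    rw [hπ]
    by_cases h3 : π (π i₁) = i₁
    · rw [h3]
    exfalso
    by_cases h4 : π (π i₁) = π i₁
    · have h5 : g • s (π i₁) = s (π i₁) := by rw [hπ, h4]
      have h6 : s (π i₁) = s i₁ := by
        rw [← hπ i₁] at h5
        have h7 := congrArg (fun x => g⁻¹ • x) h5
        simp only [inv_smul_smul] at h7
        rw [← hπ i₁, h7]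
      exact hi₁ h6
    · have h5 := hmk (π i₁)
      rw [hb1] at h5
      exact hthree i₁ (π i₁) (π (π i₁)) hi₁'.symm (Ne.symm h3) (Ne.symm h4) hb2 hb1 h5
  · rw [Equiv.swap_apply_of_ne_of_ne h1 h2, hπ, hfix k h1 h2]

end Pool.Agent.L7h25.AN
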