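import Mathlib
import Pool.Agent.L7h25.AN.Geo
import Pool.Agent.L7h25.AN.SwapGC

/-!
The geometric Galois group of `P - tQ` is the symmetric group.
-/

set_option autoImplicit false

namespace Pool.Agent.L7h25.AN

open Polynomial IntermediateField

section geo

variable {κ : Type} [Field κ] {n a m : ℕ} {P Q : κ[X]} {c β : κ}
  (hP : PenG κ n a m P Q c β) {N : Type} [Field N] [Algebra κ N] {t : N}
  (ht : Transcendental κ t) {r : Fin n → N} (hr : Function.Injective r)
  (hf : P.map (algebraMap κ N) - C t * Q.map (algebraMap κ N) = ∏ i, (X - C (r i)))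

include hP in
theorem QneG (x : N) (_ : Transcendental κ t) (hx : aeval x P = t * aeval x Q) :
    aeval x Q ≠ 0 := by
  intro h
  rw [h, mul_zero] at hx
  have hW := congrArg (aeval x) hP.W
  rw [map_sub, map_mul, map_mul, h, hx, mul_zero, zero_mul, sub_zero] at hW
  rw [map_mul, map_mul, map_pow, map_pow, map_sub, aeval_C, aeval_X, aeval_C] at hW
  have h1 := hW.symm
  rw [mul_eq_zero, mul_eq_zero] at h1
  rcases h1 with (h1 | h1) | h1
  · exact hP.c0 ((map_eq_zero _).1 h1)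
  · have h2 : x = 0 := by
      by_contra h0
      exact pow_ne_zero _ h0 h1
    rw [h2, ← coeff_zero_eq_aeval_zero', coeff_zero_eq_eval_zero, map_eq_zero] at h
    exact hP.Q0 h
  · have h2 : x = algebraMap κ N β := sub_eq_zero.1 ((pow_eq_zero_iff hP.m0).1 h1)
    rw [h2, aeval_algebraMap_apply, Polynomial.coe_aeval_eq_eval, map_eq_zero] at h
    exact hP.Qβ h

include hP ht in
theorem t_memG (x : N) (hx : aeval x P = t * aeval x Q) : t ∈ adjoin κ {x} := by
  have h1 : t = aeval x P / aeval x Q := by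
    rw [hx, mul_div_cancel_right₀ _ (QneG hP x ht hx)]
  have h2 : ∀ R : κ[X], aeval x R ∈ adjoin κ {x} := fun R => by
    have h3 : aeval x R = ((aeval (AdjoinSimple.gen κ x) R : adjoin κ {x}) : N) := by
      have h4 : x = algebraMap (adjoin κ {x}) N (AdjoinSimple.gen κ x) := rfl
      conv_lhs => rw [h4]
      rw [aeval_algebraMap_apply]
      rfl
    rw [h3]
    exact Subtype.mem _
  rw [h1]
  exact div_mem (h2 P) (h2 Q)

include hP ht in
theorem x_transG (x : N) (hx : aeval x P = t * aeval x Q) : Transcendental κ x := by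
  intro halg
  apply ht
  have h1 : Algebra.IsAlgebraic κ (adjoin κ {x}) :=
    isAlgebraic_adjoin_simple halg.isIntegral
  have h2 := h1.isAlgebraic (⟨t, t_memG hP ht x hx⟩ : adjoin κ {x})
  exact h2.algebraMap (A := N)

include hP ht in
theorem x_algG (halg : Algebra.IsAlgebraic (adjoin κ {t}) N) (x : N)
    (hx : aeval x P = t * aeval x Q) : Algebra.IsAlgebraic (adjoin κ {x}) N := by
  have hle : adjoin κ {t} ≤ adjoin κ {x} := by
    rw [adjoin_le_iff, Set.singleton_subset_iff]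
    exact t_memG hP ht x hx
  let _ : Algebra (adjoin κ {t}) (adjoin κ {x}) := (inclusion hle).toRingHom.toAlgebra
  have : IsScalarTower (adjoin κ {t}) (adjoin κ {x}) N := IsScalarTower.of_algebraMap_eq fun z => rfl
  exact Algebra.IsAlgebraic.tower_top (K := adjoin κ {t}) (adjoin κ {x})

end geo

/-- **The geometric Galois group is the symmetric group.** -/
theorem geo_allG {κ : Type} [Field κ] [IsAlgClosed κ] {n a m : ℕ} {P Q : κ[X]} {c β : κ}
    (hP : PenG κ n a m P Q c β) (H : κ[X][X])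
    (hH : (X - C X) * H = P.map C * C Q - C P * Q.map C)
    (hirr : Irreducible (H.map (algebraMap κ[X] (RatFunc κ))))
    {N : Type} [Field N] [IsAlgClosed N] [Algebra κ N] {t : N}
    (ht : Transcendental κ t) (halg : Algebra.IsAlgebraic (adjoin κ {t}) N)
    {r : Fin n → N} (hr : Function.Injective r)
    (hf : P.map (algebraMap κ N) - C t * Q.map (algebraMap κ N) = ∏ i, (X - C (r i)))
    (π : Equiv.Perm (Fin n)) :
    ∃ σ : N ≃ₐ[κ] N, σ t = t ∧ ∀ k, σ (r k) = r (π k) := by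
  classical
  have hroot : ∀ i, aeval (r i) P = t * aeval (r i) Q := fun i => (root_eq hf (r i)).2 ⟨i, rfl⟩
  have htr : ∀ i, Transcendental κ (r i) := fun i => x_transG hP ht (r i) (hroot i)
  have hal : ∀ i, Algebra.IsAlgebraic (adjoin κ {r i}) N := fun i =>
    x_algG hP ht halg (r i) (hroot i)
  have hQ0 : ∀ i, aeval (r i) Q ≠ 0 := fun i => QneG hP (r i) ht (hroot i)
  -- transitivity
  have h1 : ∀ i j, ∃ σ : N ≃ₐ[κ] N, σ t = t ∧ σ (r i) = r j := by
    intro i j
    obtain ⟨σ, hσ⟩ := exists_conj (r i) (r j) (htr i) (htr j) (hal i) (hal j)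
    refine ⟨σ, ?_, hσ⟩
    have h3 : ∀ R : κ[X], aeval (r j) R = σ (aeval (r i) R) := fun R => by
      rw [← hσ]
      exact aeval_algHom_apply (σ : N →ₐ[κ] N) (r i) R
    have h4 := hroot j
    rw [h3, h3, hroot i, map_mul] at h4
    exact mul_right_cancel₀ ((map_ne_zero_iff _ σ.injective).2 (hQ0 i)) h4
  -- two-transitivity
  have h2 : ∀ i j k, j ≠ i → k ≠ i → ∃ σ : N ≃ₐ[κ] N, σ t = t ∧ σ (r i) = r i ∧
      σ (r j) = r k := by
    intro i j k hj hk
    obtain ⟨x, hx⟩ : ∃ x, x = r i := ⟨_, rfl⟩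
    let e : RatFunc κ ≃ₐ[κ] adjoin κ {r i} := RatFunc.algEquivOfTranscendental (r i) (htr i)
    obtain ⟨H', hH'⟩ : ∃ H' : (adjoin κ {r i})[X], H' =
        (H.map (algebraMap κ[X] (RatFunc κ))).map (e : RatFunc κ →+* adjoin κ {r i}) := ⟨_, rfl⟩
    have hirr' : Irreducible H' := by
      rw [hH']
      exact (MulEquiv.irreducible_iff (Polynomial.mapEquiv (e : RatFunc κ ≃+* adjoin κ {r i}))).2
        hirr
    have hcomp : ((algebraMap (adjoin κ {r i}) N).comp
        ((e : RatFunc κ →+* adjoin κ {r i}).comp (algebraMap κ[X] (RatFunc κ)))) =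
        (aeval (r i) : κ[X] →ₐ[κ] N).toRingHom := by
      apply RingHom.ext
      intro g
      change ((e (algebraMap κ[X] (RatFunc κ) g) : adjoin κ {r i}) : N) = aeval (r i) g
      rw [RatFunc.algEquivOfTranscendental_algebraMap]
      have h4 : r i = algebraMap (adjoin κ {r i}) N (AdjoinSimple.gen κ (r i)) := rfl
      conv_rhs => rw [h4]
      rw [aeval_algebraMap_apply]
      rfl
    have hzero : ∀ l, l ≠ i → aeval (r l) H' = 0 := by
      intro l hl
      rw [hH', aeval_def, ← eval_map, Polynomial.map_map, Polynomial.map_map, RingHom.comp_assoc,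
        hcomp]
      have h3 := congrArg (fun G : κ[X][X] => (G.map (aeval (r i) : κ[X] →ₐ[κ] N).toRingHom).eval
        (r l)) hH
      simp only [Polynomial.map_mul, Polynomial.map_sub, map_X, map_C, eval_mul, eval_sub, eval_X,
        eval_C, Polynomial.map_map] at h3
      have h5 : ((aeval (r i) : κ[X] →ₐ[κ] N).toRingHom).comp C = algebraMap κ N := by
        apply RingHom.ext
        intro b
        exact aeval_C (r i) b
      rw [h5] at h3
      have h6 : ∀ g : κ[X], (aeval (r i) : κ[X] →ₐ[κ] N).toRingHom g = aeval (r i) g :=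
        fun g => rfl
      rw [h6, h6, h6, aeval_X, eval_map_algebraMap, eval_map_algebraMap, hroot, hroot] at h3
      have h7 : t * aeval (r l) Q * aeval (r i) Q - t * aeval (r i) Q * aeval (r l) Q = 0 := by
        ring
      rw [h7, mul_eq_zero] at h3
      refine h3.resolve_left fun h8 => hl (hr (sub_eq_zero.1 h8))
    have hmin : minpoly (adjoin κ {r i}) (r j) = minpoly (adjoin κ {r i}) (r k) := by
      rw [← minpoly.eq_of_irreducible hirr' (hzero j hj),
        ← minpoly.eq_of_irreducible hirr' (hzero k hk)]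
    have hNc : IsAlgClosure (adjoin κ {r i}) N := ⟨inferInstance, hal i⟩
    have hNn : Normal (adjoin κ {r i}) N := IsAlgClosure.normal (adjoin κ {r i}) N
    obtain ⟨σ, hσ⟩ := (isConjRoot_iff_exists_algEquiv (K := adjoin κ {r i}) (x := r k)
      (y := r j)).1 hmin.symm
    have ht' : t ∈ adjoin κ {r i} := t_memG hP ht (r i) (hroot i)
    refine ⟨σ.restrictScalars κ, ?_, ?_, hσ⟩
    · exact σ.commutes (⟨t, ht'⟩ : adjoin κ {r i})
    · exact σ.commutes (AdjoinSimple.gen κ (r i))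
  -- the group
  let G : Subgroup (Equiv.Perm (Fin n)) :=
    { carrier := {π | ∃ σ : N ≃ₐ[κ] N, σ t = t ∧ ∀ k, σ (r k) = r (π k)}
      one_mem' := ⟨1, rfl, fun k => rfl⟩
      mul_mem' := by
        rintro π₁ π₂ ⟨σ₁, h1, h2⟩ ⟨σ₂, h3, h4⟩
        refine ⟨σ₁ * σ₂, ?_, fun k => ?_⟩
        · change σ₁ (σ₂ t) = t
          rw [h3, h1]
        · change σ₁ (σ₂ (r k)) = _
          rw [h4, h2]
          rfl
      inv_mem' := by
        rintro π₁ ⟨σ₁, h1, h2⟩
        refine ⟨σ₁⁻¹, ?_, fun k => ?_⟩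
        · change σ₁.symm t = t
          rw [AlgEquiv.symm_apply_eq, h1]
        · change σ₁.symm (r k) = _
          rw [AlgEquiv.symm_apply_eq, h2]
          simp }
  have hmem : ∀ π, π ∈ G ↔ ∃ σ : N ≃ₐ[κ] N, σ t = t ∧ ∀ k, σ (r k) = r (π k) := fun π => Iff.rfl
  suffices h : G = ⊤ by
    rw [← hmem, h]
    exact Subgroup.mem_top _
  have h2t : ∀ i j k l, i ≠ j → k ≠ l → ∃ g ∈ G, g i = k ∧ g j = l := by
    intro i j k l hij hkl
    obtain ⟨σ₁, h3, h4⟩ := h1 i k
    obtain ⟨π₁, h5⟩ := perm_of hr hf σ₁ h3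
    have h6 : π₁ i = k := hr (by rw [← h5, h4])
    have h7 : π₁ j ≠ k := fun h => hij (π₁.injective (h6.trans h.symm))
    obtain ⟨σ₂, h8, h9, h10⟩ := h2 k (π₁ j) l h7 hkl.symm
    obtain ⟨π₂, h11⟩ := perm_of hr hf σ₂ h8
    refine ⟨π₂ * π₁, G.mul_mem ⟨σ₂, h8, h11⟩ ⟨σ₁, h3, h5⟩, ?_, ?_⟩
    · change π₂ (π₁ i) = k
      rw [h6]
      exact hr (by rw [← h11, h9])
    · change π₂ (π₁ j) = l
      exact hr (by rw [← h11, h10])
  obtain ⟨σ₀, i₀, j₀, hij₀, h3, h4⟩ := t_swapG κ n a m P Q c β hP N t ht halg r hr hf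
  have h5 : Equiv.swap i₀ j₀ ∈ G := ⟨σ₀, h3, h4⟩
  rw [eq_top_iff, ← Equiv.Perm.closure_isSwap, Subgroup.closure_le]
  rintro _ ⟨k, l, hkl, rfl⟩
  obtain ⟨g, hg, hgk, hgl⟩ := h2t i₀ j₀ k l hij₀ hkl
  rw [← hgk, ← hgl, Equiv.swap_apply_apply]
  exact G.mul_mem (G.mul_mem hg h5) (G.inv_mem hg)

end Pool.Agent.L7h25.AN
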