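import Mathlib
import Pool.Agent.L7h25.AN.AsmC
import Pool.Agent.L7h25.AN.Geo2

/-!
The arithmetic assembly in characteristic two.
-/

set_option autoImplicit false

namespace Pool.Agent.L7h25.AN

open Polynomial IntermediateField
open Pool.Agent.H391R2 (Wr)
open Pool.Agent.H391R2.T4 (RegSol)

/-- The Artin-Schreier element of a character. -/
theorem exists_theta (K L : Type) [Field K] [Field L] [Algebra K L] [CharP K 2]
    [FiniteDimensional K L] [IsGalois K L] (χ : (L ≃ₐ[K] L) →* ℤˣ) :
    ∃ (θ : L) (d : K), algebraMap K L d = θ ^ 2 + θ ∧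
      ∀ h : L ≃ₐ[K] L, h θ = θ + (if χ h = 1 then 0 else 1) := by
  classical
  have hcL : CharP L 2 := charP_of_injective_algebraMap (algebraMap K L).injective 2
  have h11 : (1 : L) + 1 = 0 := CharTwo.add_self_eq_zero 1
  obtain ⟨y, hy⟩ := Algebra.trace_surjective K L 1
  have hy2 : ∑ h : L ≃ₐ[K] L, h y = 1 := by
    rw [← trace_eq_sum_automorphisms, hy, map_one]
  obtain ⟨θ, hθ⟩ : ∃ θ, θ = ∑ h : L ≃ₐ[K] L, (if χ h = 1 then h y else 0) := ⟨_, rfl⟩
  have hact : ∀ h' : L ≃ₐ[K] L, h' θ = θ + (if χ h' = 1 then 0 else 1) := by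
    intro h'
    have h1 : h' θ = ∑ h : L ≃ₐ[K] L, (if χ h = χ h' then h y else 0) := by
      rw [hθ, map_sum, ← Equiv.sum_comp (Equiv.mulLeft h')
        (fun h => if χ h = χ h' then h y else 0)]
      refine Finset.sum_congr rfl fun h _ => ?_
      rw [Equiv.coe_mulLeft, map_mul]
      by_cases hc : χ h = 1
      · rw [if_pos hc, if_pos (by rw [hc, mul_one])]
        rfl
      · rw [if_neg hc, if_neg (fun h2 => hc (mul_eq_left.1 h2)), map_zero]
    rw [h1]
    by_cases hc : χ h' = 1
    · rw [if_pos hc, hc, add_zero, hθ]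
    · rw [if_neg hc]
      have h2 : χ h' = -1 := (Int.units_eq_one_or (χ h')).resolve_left hc
      have h3 : (∑ h : L ≃ₐ[K] L, (if χ h = χ h' then h y else 0)) + θ = 1 := by
        rw [hθ, ← Finset.sum_add_distrib, ← hy2]
        refine Finset.sum_congr rfl fun h _ => ?_
        rw [h2]
        rcases Int.units_eq_one_or (χ h) with h4 | h4
        · rw [h4, if_neg (by decide), if_pos rfl, zero_add]
        · rw [h4, if_pos rfl, if_neg (by decide), add_zero]
      have h4 : θ + θ = 0 := CharTwo.add_self_eq_zero θ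
      linear_combination h3 - h4
  have hbot : θ ^ 2 + θ ∈ (⊥ : IntermediateField K L) := by
    rw [IsGalois.mem_bot_iff_fixed]
    intro h
    rw [map_add, map_pow, hact]
    by_cases hc : χ h = 1
    · rw [if_pos hc, add_zero]
    · rw [if_neg hc]
      have h4 : θ + θ = 0 := CharTwo.add_self_eq_zero θ
      linear_combination h4 + h11
  obtain ⟨d, hd⟩ := IntermediateField.mem_bot.1 hbot
  exact ⟨θ, d, hd, hact⟩

theorem PenG.map {K K₀ : Type} [Field K] [Field K₀] (φ : K →+* K₀) {n a m : ℕ} {P Q : K[X]}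
    {c β : K} (hP : PenG K n a m P Q c β) :
    PenG K₀ n a m (P.map φ) (Q.map φ) (φ c) (φ β) where
  n5 := hP.n5
  monic := hP.monic.map _
  deg := by rw [hP.monic.natDegree_map, hP.deg]
  degQ := lt_of_le_of_lt natDegree_map_le hP.degQ
  m0 := hP.m0
  W := by
    have h1 := congrArg (Polynomial.map φ) hP.W
    simp only [Polynomial.map_sub, Polynomial.map_mul, Polynomial.map_pow, map_X, map_C,
      ← derivative_map] at h1
    exact h1
  c0 := (_root_.map_ne_zero _).2 hP.c0
  β0 := (_root_.map_ne_zero _).2 hP.β0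
  P0 := by rw [← coeff_zero_eq_eval_zero, coeff_map, coeff_zero_eq_eval_zero, hP.P0, map_zero]
  Q0 := by
    rw [← coeff_zero_eq_eval_zero, coeff_map, coeff_zero_eq_eval_zero]
    exact (_root_.map_ne_zero _).2 hP.Q0
  Pβ := by
    rw [eval_map, eval₂_at_apply]
    exact (_root_.map_ne_zero _).2 hP.Pβ
  Qβ := by
    rw [eval_map, eval₂_at_apply]
    exact (_root_.map_ne_zero _).2 hP.Qβ
  contact := by
    obtain ⟨g, hg, hg0⟩ := hP.contact
    refine ⟨g.map φ, ?_, ?_⟩
    · have h1 := congrArg (Polynomial.map φ) hg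
      simp only [Polynomial.map_sub, Polynomial.map_mul, Polynomial.map_pow, map_X, map_C,
        map_div₀] at h1
      rw [eval_map, eval_map, eval₂_at_apply, eval₂_at_apply]
      exact h1
    · rw [eval_map, eval₂_at_apply]
      exact (_root_.map_ne_zero _).2 hg0

theorem Fam2.map {K K₀ : Type} [Field K] [Field K₀] (φ : K →+* K₀) {n : ℕ} {P Q : K[X]} {β : K}
    (h : Fam2 K n P Q β) : Fam2 K₀ n (P.map φ) (Q.map φ) (φ β) := by
  rcases h with ⟨h1, h2, h3, h4, h5⟩ | ⟨h1, h2, b, h3, h4, h5, h6⟩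
  · refine Or.inl ⟨h1, (_root_.map_ne_zero _).2 h2, fun h => h3 ?_, by rw [h4]; simp, by
      rw [h5]; simp⟩
    exact φ.injective (h.trans (map_one φ).symm)
  · refine Or.inr ⟨h1, by rw [h2, map_one], φ b, (_root_.map_ne_zero _).2 h3, fun h => h4 ?_, by
      rw [h5]; simp, by rw [h6]; simp⟩
    exact φ.injective (h.trans (map_one φ).symm)

theorem two_hom (hT : St_two) {K' K : Type} [Field K'] [CharP K' 2] [Field K] (φ : K' →+* K)
    {n : ℕ} {P Q : K'[X]} {β : K'} (hn : 5 ≤ n) (hF : Fam2 K' n P Q β) {N : Type} [Field N]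
    [IsAlgClosed N] [Algebra K N] (t : N) (ht : Transcendental K t) (r : Fin n → N)
    (hr : Function.Injective r)
    (hf : (P.map φ).map (algebraMap K N) - C t * (Q.map φ).map (algebraMap K N) =
      ∏ i, (X - C (r i))) :
    ∃ g0 g1 g2 : K', DD r = algebraMap K N (φ g2) /
        (t - algebraMap K N ((P.map φ).eval (φ β) / (Q.map φ).eval (φ β))) ^ 2 +
      algebraMap K N (φ g1) /
        (t - algebraMap K N ((P.map φ).eval (φ β) / (Q.map φ).eval (φ β))) +
      algebraMap K N (φ g0) := by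
  let i1 : Algebra K' N := ((algebraMap K N).comp φ).toAlgebra
  have h1 : ∀ x : K', algebraMap K' N x = algebraMap K N (φ x) := fun x => rfl
  have ht' : Transcendental K' t := by
    intro h
    apply ht
    obtain ⟨f, hf0, hf1⟩ := h
    refine ⟨f.map φ, (Polynomial.map_ne_zero_iff φ.injective).2 hf0, ?_⟩
    rw [aeval_def, eval₂_map]
    exact hf1
  obtain ⟨g0, g1, g2, hg⟩ := hT K' n P Q β hn hF N t ht' r hr (by
    rw [← hf, Polynomial.map_map, Polynomial.map_map]
    rfl)
  refine ⟨g0, g1, g2, ?_⟩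
  have h2 : φ (P.eval β / Q.eval β) = (P.map φ).eval (φ β) / (Q.map φ).eval (φ β) := by
    rw [map_div₀, eval_map, eval_map, eval₂_at_apply, eval₂_at_apply]
  simp only [h1, h2] at hg
  exact hg

theorem exists_fam2 (K : Type) [Field K] [Infinite K] (n : ℕ) :
    ∃ (P Q : K[X]) (β : K), Fam2 K n P Q β := by
  classical
  obtain ⟨b, hb⟩ := Infinite.exists_notMem_finset ({0, 1} : Finset K)
  simp only [Finset.mem_insert, Finset.mem_singleton, not_or] at hb
  rcases Nat.even_or_odd n with h | h
  · exact ⟨_, _, b, Or.inl ⟨h, hb.1, hb.2, rfl, rfl⟩⟩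
  · exact ⟨_, _, 1, Or.inr ⟨h, rfl, b, hb.1, hb.2, rfl, rfl⟩⟩

/-- Roots of a member of the pencil. -/
theorem pen_roots {K N : Type} [Field K] [Field N] [IsAlgClosed N] [Algebra K N] {n a m : ℕ}
    {P Q : K[X]} {c β : K} (hP : PenG K n a m P Q c β) (t : N) (ht : Transcendental K t) :
    ∃ r : Fin n → N, Function.Injective r ∧
      P.map (algebraMap K N) - C t * Q.map (algebraMap K N) = ∏ i, (X - C (r i)) := by
  classical
  obtain ⟨f, hf⟩ : ∃ f : N[X], f = P.map (algebraMap K N) - C t * Q.map (algebraMap K N) :=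
    ⟨_, rfl⟩
  have hfm : f.Monic ∧ f.natDegree = n := by
    have h3 : (P.map (algebraMap K N)).Monic := hP.monic.map _
    have h4 : (P.map (algebraMap K N)).natDegree = n := by rw [hP.monic.natDegree_map, hP.deg]
    have h5 : (C t * Q.map (algebraMap K N)).natDegree < n :=
      lt_of_le_of_lt (natDegree_C_mul_le _ _) (lt_of_le_of_lt natDegree_map_le hP.degQ)
    have h6 : (C t * Q.map (algebraMap K N)).degree < (P.map (algebraMap K N)).degree :=
      degree_lt_degree (by rw [h4]; exact h5)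
    rw [hf]
    refine ⟨h3.sub_of_left h6, ?_⟩
    rw [natDegree_sub_eq_left_of_natDegree_lt (by rw [h4]; exact h5), h4]
  obtain ⟨r, hr⟩ := exists_roots n f hfm.1 hfm.2
  rw [hf] at hr
  refine ⟨r, ?_, hr⟩
  intro i j hij
  by_contra hne
  -- a double root is a zero of `W`
  have h1 : derivative f * Q.map (algebraMap K N) - f * derivative (Q.map (algebraMap K N)) =
      C (algebraMap K N c) * X ^ a * (X - C (algebraMap K N β)) ^ m := by
    have h0 : (C c * X ^ a * (X - C β) ^ m).map (algebraMap K N) =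
        C (algebraMap K N c) * X ^ a * (X - C (algebraMap K N β)) ^ m := by simp
    rw [← h0, ← hP.W, hf]
    simp only [derivative_sub, derivative_mul, derivative_C, Polynomial.map_sub,
      Polynomial.map_mul, derivative_map, zero_mul, zero_add]
    ring
  have hdvd : (X - C (r i)) ^ 2 ∣ f := by
    have h2 : ∏ l, (X - C (r l)) = (X - C (r i)) * ((X - C (r j)) *
        ∏ l ∈ (Finset.univ.erase i).erase j, (X - C (r l))) := by
      rw [Finset.mul_prod_erase (Finset.univ.erase i) (fun l => X - C (r l))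
        (Finset.mem_erase.2 ⟨fun h => hne h.symm, Finset.mem_univ _⟩),
        Finset.mul_prod_erase Finset.univ (fun l => X - C (r l)) (Finset.mem_univ _)]
    rw [hf, hr, h2, ← hij, ← mul_assoc, ← sq]
    exact dvd_mul_right _ _
  obtain ⟨g, hg⟩ := hdvd
  have hf0 : f.eval (r i) = 0 := by rw [hg]; simp
  have hf1 : (derivative f).eval (r i) = 0 := by
    rw [hg]
    simp [derivative_mul, derivative_pow]
  have h2 := congrArg (Polynomial.eval (r i)) h1
  rw [eval_sub, eval_mul, eval_mul, hf0, hf1, zero_mul, zero_mul, sub_zero, eval_mul, eval_mul,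
    eval_C, eval_pow, eval_X, eval_pow, eval_sub, eval_X, eval_C] at h2
  have hroot : aeval (r i) P = t * aeval (r i) Q := (root_eq hr (r i)).2 ⟨i, rfl⟩
  have htr : Transcendental K (r i) := x_transG hP ht (r i) hroot
  have h3 := h2.symm
  rw [mul_eq_zero, mul_eq_zero] at h3
  rcases h3 with (h3 | h3) | h3
  · exact hP.c0 ((map_eq_zero _).1 h3)
  · apply htr
    have h4 : r i = 0 := by
      by_contra h0
      exact pow_ne_zero _ h0 h3
    rw [h4]
    exact isAlgebraic_zero
  · apply htr
    have h4 : r i = algebraMap K N β := sub_eq_zero.1 ((pow_eq_zero_iff hP.m0).1 h3)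
    rw [h4]
    exact isAlgebraic_algebraMap β

end Pool.Agent.L7h25.AN
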