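import Mathlib
import Pool.Agent.L7h25.AN.AsmD

/-!
The arithmetic assembly in characteristic two: the main theorem, from the pieces.
-/

set_option autoImplicit false

namespace Pool.Agent.L7h25.AN

open Polynomial IntermediateField
open Pool.Agent.H391R2 (Wr)
open Pool.Agent.H391R2.T4 (RegSol)

/-- `DD` of conjugate pencils. -/
theorem DD_conj (hTT : St_tt) {κ N : Type} [Field κ] [Field N] [CharP N 2] [Algebra κ N] {n : ℕ}
    {P Q : κ[X]} (σ : N ≃ₐ[κ] N) (t₀ t : N) (hσ : σ t₀ = t) (r₀ r : Fin n → N)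
    (hr₀ : Function.Injective r₀) (hr : Function.Injective r)
    (hf₀ : P.map (algebraMap κ N) - C t₀ * Q.map (algebraMap κ N) = ∏ i, (X - C (r₀ i)))
    (hf : P.map (algebraMap κ N) - C t * Q.map (algebraMap κ N) = ∏ i, (X - C (r i))) :
    DD r = σ (DD r₀) := by
  have h1 : ∀ k, ∃ j, σ (r₀ k) = r j := by
    intro k
    rw [← root_eq hf]
    have h2 := (root_eq hf₀ (r₀ k)).2 ⟨k, rfl⟩
    have h3 : ∀ R : κ[X], aeval (σ (r₀ k)) R = σ (aeval (r₀ k) R) := fun R =>
      aeval_algHom_apply (σ : N →ₐ[κ] N) (r₀ k) R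
    rw [h3, h3, h2, map_mul, hσ]
  choose π hπ using h1
  have hinj : Function.Injective π := by
    intro k l hkl
    apply hr₀
    apply σ.injective
    rw [hπ, hπ, hkl]
  let π' : Equiv.Perm (Fin n) := Equiv.ofBijective π (Finite.injective_iff_bijective.1 hinj)
  rw [← ((hTT N n r hr).2 π').2, DD, DD, map_sum]
  refine Finset.sum_congr rfl fun i _ => ?_
  rw [map_sum]
  refine Finset.sum_congr rfl fun j _ => ?_
  rw [map_div₀, map_mul, map_pow, map_add, hπ, hπ]
  rfl

/-- In characteristic two `x ^ 2 + x = 0` has the solutions `0` and `1`. -/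
theorem as_zero {N : Type} [Field N] [CharP N 2] (x : N) (h : x ^ 2 + x = 0) : x = 0 ∨ x = 1 := by
  have h1 : x * (x + 1) = 0 := by linear_combination h
  rcases mul_eq_zero.1 h1 with h2 | h2
  · exact Or.inl h2
  · refine Or.inr ?_
    have h11 : (1 : N) + 1 = 0 := CharTwo.add_self_eq_zero 1
    linear_combination h2 - h11

theorem sign_ite {N : Type} [Field N] (a b : ℤˣ)
    (h : (if a = 1 then (0 : N) else 1) = (if b = 1 then 0 else 1)) : a = b := by
  rcases Int.units_eq_one_or a with ha | ha <;> rcases Int.units_eq_one_or b with hb | hb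
  · rw [ha, hb]
  · rw [ha, hb, if_pos rfl, if_neg (by decide)] at h
    exact absurd h zero_ne_one
  · rw [ha, hb, if_pos rfl, if_neg (by decide)] at h
    exact absurd h one_ne_zero
  · rw [ha, hb]

/-- **The main arithmetic theorem in characteristic two.** -/
theorem reg_sgnFib_two (hPen : St_pen2) (hIrr : St_irr2) (hTT : St_tt) (hTwo : St_two)
    (K L : Type) [Field K] [Infinite K] [CharP K 2] [Field L] [Algebra K L]
    [FiniteDimensional K L] [IsGalois K L] (n : ℕ) (hn : 5 ≤ n) (χ : (L ≃ₐ[K] L) →* ℤˣ) :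
    RegSol K L (SgnFib n χ) ((MonoidHom.snd (Wr Unit n) (L ≃ₐ[K] L)).comp (SgnFib n χ).subtype) := by
  classical
  obtain ⟨P₀, Q₀, β₀, hF₀⟩ := exists_fam2 K n
  obtain ⟨φ, hφ⟩ : ∃ φ : K →+* K, φ = frobenius K 2 := ⟨_, rfl⟩
  obtain ⟨P, hPdef⟩ : ∃ P, P = P₀.map φ := ⟨_, rfl⟩
  obtain ⟨Q, hQdef⟩ : ∃ Q, Q = Q₀.map φ := ⟨_, rfl⟩
  obtain ⟨β, hβdef⟩ : ∃ β, β = φ β₀ := ⟨_, rfl⟩
  have hF : Fam2 K n P Q β := by
    rw [hPdef, hQdef, hβdef]
    exact hF₀.map φ
  obtain ⟨a, hP⟩ := hPen K n P Q β hn hF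
  obtain ⟨θ, d, hd, hθ⟩ := exists_theta K L χ
  let K₀ := AlgebraicClosure K
  have hcK₀ : CharP K₀ 2 := charP_of_injective_algebraMap (algebraMap K K₀).injective 2
  let jL : L →ₐ[K] K₀ := IsAlgClosed.lift
  let iL : Algebra L K₀ := jL.toRingHom.toAlgebra
  have tKL : IsScalarTower K L K₀ := .of_algebraMap_eq fun x => (jL.commutes x).symm
  obtain ⟨N, i1, i2, i3, η, hη⟩ := Pool.Agent.Y793.exists_trb K₀ Unit
  let i4 : Algebra K N := ((algebraMap K₀ N).comp (algebraMap K K₀)).toAlgebra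
  let i4L : Algebra L N := ((algebraMap K₀ N).comp (algebraMap L K₀)).toAlgebra
  have i5 : IsScalarTower K K₀ N := .of_algebraMap_eq fun _ => rfl
  have i5L : IsScalarTower L K₀ N := .of_algebraMap_eq fun _ => rfl
  have i6 : IsScalarTower K L N := .of_algebraMap_eq fun x => by
    rw [IsScalarTower.algebraMap_apply K K₀ N, IsScalarTower.algebraMap_apply K L K₀,
      ← IsScalarTower.algebraMap_apply L K₀ N]
  have hcN : CharP N 2 := charP_of_injective_algebraMap (algebraMap K₀ N).injective 2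
  have hself : ∀ x : N, x + x = 0 := fun x => CharTwo.add_self_eq_zero x
  obtain ⟨u, hu⟩ : ∃ u, u = η () := ⟨_, rfl⟩
  have hutr : Transcendental K₀ u := by
    rw [hu]
    exact hη.1.transcendental ()
  have hual : Algebra.IsAlgebraic (adjoin K₀ {u}) N := by
    have h3 := hη.isAlgebraic_field
    have h4 : Set.range η = {u} := by
      ext x
      constructor
      · rintro ⟨i, rfl⟩
        rw [hu]
        rfl
      · rintro rfl
        exact ⟨(), hu.symm⟩
    rw [h4] at h3
    exact h3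
  obtain ⟨t₁, ht₁⟩ : ∃ t₁, t₁ = P.eval β / Q.eval β := ⟨_, rfl⟩
  have htrK : ∀ x : N, Transcendental K₀ x → Transcendental K x := fun x hx h =>
    hx (h.tower_top K₀)
  -- the constants, from the parameter `u`
  have hPK₀ := hP.map (algebraMap K K₀)
  have hup : ∀ (t : N) (r : Fin n → N),
      P.map (algebraMap K N) - C t * Q.map (algebraMap K N) = ∏ i, (X - C (r i)) →
      (P.map (algebraMap K K₀)).map (algebraMap K₀ N) -
        C t * (Q.map (algebraMap K K₀)).map (algebraMap K₀ N) = ∏ i, (X - C (r i)) := by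
    intro t r h
    rw [Polynomial.map_map, Polynomial.map_map, ← IsScalarTower.algebraMap_eq, h]
  obtain ⟨r₀, hr₀, hf₀⟩ := pen_roots hP u (htrK u hutr)
  obtain ⟨g0, g1, g2, hg⟩ := two_hom hTwo φ hn hF₀ u (htrK u hutr) r₀ hr₀ (by
    rw [← hPdef, ← hQdef]
    exact hf₀)
  rw [← hPdef, ← hQdef, ← hβdef, ← ht₁] at hg
  have hg2 : algebraMap K N (φ g2) = (algebraMap K N g2) ^ 2 := by
    rw [hφ, frobenius_def, map_pow]
  obtain ⟨A, hA⟩ : ∃ A, A = φ g1 + g2 := ⟨_, rfl⟩
  obtain ⟨B, hB⟩ : ∃ B, B = φ g0 := ⟨_, rfl⟩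
  -- the formula for all parameters
  have hDD : ∀ (t : N), Transcendental K₀ t → Algebra.IsAlgebraic (adjoin K₀ {t}) N →
      ∀ r : Fin n → N, Function.Injective r →
      P.map (algebraMap K N) - C t * Q.map (algebraMap K N) = ∏ i, (X - C (r i)) →
      DD r = (algebraMap K N g2 / (t - algebraMap K N t₁)) ^ 2 +
        algebraMap K N (φ g1) / (t - algebraMap K N t₁) + algebraMap K N B := by
    intro t ht halg r hr hf
    obtain ⟨σ, hσ⟩ := exists_conj u t hutr ht hual halg
    rw [DD_conj hTT σ u t hσ r₀ r hr₀ hr (hup u r₀ hf₀) (hup t r hf), hg, hg2]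
    have hc : ∀ x : K, σ (algebraMap K N x) = algebraMap K N x := fun x => by
      rw [IsScalarTower.algebraMap_apply K K₀ N, AlgEquiv.commutes]
    simp only [map_add, map_div₀, map_pow, map_sub, hσ, hc, hB, div_pow]
  have hne : ∀ t : N, Transcendental K₀ t → t - algebraMap K N t₁ ≠ 0 := by
    intro t ht h
    apply ht
    rw [sub_eq_zero.1 h, IsScalarTower.algebraMap_apply K K₀ N]
    exact isAlgebraic_algebraMap _
  -- the Artin-Schreier generator
  have hAS : ∀ (t : N), Transcendental K₀ t → Algebra.IsAlgebraic (adjoin K₀ {t}) N →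
      ∀ r : Fin n → N, Function.Injective r →
      P.map (algebraMap K N) - C t * Q.map (algebraMap K N) = ∏ i, (X - C (r i)) →
      (TT r + algebraMap K N g2 / (t - algebraMap K N t₁)) ^ 2 +
        (TT r + algebraMap K N g2 / (t - algebraMap K N t₁)) =
        algebraMap K N A / (t - algebraMap K N t₁) + algebraMap K N B := by
    intro t ht halg r hr hf
    have h1 := (hTT N n r hr).1
    have h2 := hDD t ht halg r hr hf
    have h3 := hself ((algebraMap K N g2 / (t - algebraMap K N t₁)) ^ 2)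
    have h4 := hself (TT r * (algebraMap K N g2 / (t - algebraMap K N t₁)))
    rw [hA, map_add, add_div]
    linear_combination h1 + h2 + h3 + h4
  obtain ⟨H, hH, hirr⟩ := hIrr K₀ n _ _ _ hn (hF.map (algebraMap K K₀))
  have hgeo : ∀ (t : N), Transcendental K₀ t → Algebra.IsAlgebraic (adjoin K₀ {t}) N →
      ∀ r : Fin n → N, Function.Injective r →
      P.map (algebraMap K N) - C t * Q.map (algebraMap K N) = ∏ i, (X - C (r i)) →
      ∀ π : Equiv.Perm (Fin n), ∃ σ : N ≃ₐ[K₀] N, σ t = t ∧ ∀ k, σ (r k) = r (π k) := by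
    intro t ht halg r hr hf π
    exact geo_allG hPK₀ H hH hirr ht halg hr (hup t r hf) π
  have hcK : ∀ (σ : N ≃ₐ[K₀] N) (x : K), σ (algebraMap K N x) = algebraMap K N x := fun σ x => by
    rw [IsScalarTower.algebraMap_apply K K₀ N, AlgEquiv.commutes]
  have hTTσ : ∀ (σ : N ≃+* N) (r : Fin n → N) (π : Equiv.Perm (Fin n)),
      (∀ k, σ (r k) = r (π k)) → σ (TT r) = TT (fun i => r (π i)) := by
    intro σ r π h
    rw [TT, TT, map_sum]
    refine Finset.sum_congr rfl fun i _ => ?_
    rw [map_sum]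
    refine Finset.sum_congr rfl fun j _ => ?_
    rw [map_div₀, map_add, h, h]
  have hA0 : A ≠ 0 := by
    intro hA0
    have hn2 : ∃ i j : Fin n, i ≠ j := ⟨⟨0, by omega⟩, ⟨1, by omega⟩, by simp [Fin.ext_iff]⟩
    obtain ⟨i, j, hij⟩ := hn2
    obtain ⟨σ, hσt, hσ⟩ := hgeo u hutr hual r₀ hr₀ hf₀ (Equiv.swap i j)
    have h1 := hAS u hutr hual r₀ hr₀ hf₀
    rw [hA0, map_zero, zero_div, zero_add] at h1
    obtain ⟨ϑ, hϑ⟩ : ∃ ϑ, ϑ = TT r₀ + algebraMap K N g2 / (u - algebraMap K N t₁) := ⟨_, rfl⟩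
    rw [← hϑ] at h1
    have h2 : σ ϑ = ϑ + 1 := by
      have h3 := hTTσ (σ : N ≃+* N) r₀ _ hσ
      rw [((hTT N n r₀ hr₀).2 _).1, Equiv.Perm.sign_swap hij, if_neg (by decide)] at h3
      change σ (TT r₀) = _ at h3
      rw [hϑ, map_add, map_div₀, map_sub, h3, hσt, hcK, hcK]
      ring
    have h3 : IsAlgebraic K₀ ϑ := by
      refine ⟨X ^ 2 + X - C (algebraMap K K₀ B), ?_, ?_⟩
      · have h4 : (X ^ 2 + X - C (algebraMap K K₀ B) : K₀[X]).natDegree = 2 := by
          compute_degree!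
        intro h5
        rw [h5, natDegree_zero] at h4
        omega
      · rw [map_sub, map_add, map_pow, aeval_X, aeval_C, ← IsScalarTower.algebraMap_apply, h1,
          sub_self]
    have h4 : ∃ y : K₀, algebraMap K₀ N y = ϑ := by
      have h6 : Algebra.IsAlgebraic K₀ (adjoin K₀ {ϑ}) := isAlgebraic_adjoin_simple h3.isIntegral
      have h7 : Algebra.IsIntegral K₀ (adjoin K₀ {ϑ}) := h6.isIntegral
      have h5 := IsAlgClosed.algebraMap_bijective_of_isIntegral (k := K₀) (K := adjoin K₀ {ϑ})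
      obtain ⟨y, hy⟩ := h5.2 (AdjoinSimple.gen K₀ ϑ)
      exact ⟨y, congrArg Subtype.val hy⟩
    obtain ⟨y, hy⟩ := h4
    rw [← hy, AlgEquiv.commutes] at h2
    have h5 : (1 : N) = 0 := by linear_combination -h2
    exact one_ne_zero h5
  have hA0N : algebraMap K N A ≠ 0 := (_root_.map_ne_zero _).2 hA0
  -- the parameter
  obtain ⟨den, hden⟩ : ∃ den, den = u ^ 2 + u + algebraMap K N (B + d) := ⟨_, rfl⟩
  have hden0 : den ≠ 0 := by
    intro h
    apply hutr
    refine ⟨X ^ 2 + X + C (algebraMap K K₀ (B + d)), ?_, ?_⟩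
    · have h4 : (X ^ 2 + X + C (algebraMap K K₀ (B + d)) : K₀[X]).natDegree = 2 := by
        compute_degree!
      intro h5
      rw [h5, natDegree_zero] at h4
      omega
    · rw [map_add, map_add, map_pow, aeval_X, aeval_C, ← IsScalarTower.algebraMap_apply, ← hden, h]
  obtain ⟨t, ht⟩ : ∃ t, t = algebraMap K N t₁ + algebraMap K N A / den := ⟨_, rfl⟩
  have hs : t - algebraMap K N t₁ = algebraMap K N A / den := by
    rw [ht]
    ring
  have hAs : algebraMap K N A / (t - algebraMap K N t₁) = den := by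
    rw [hs, div_div_cancel₀ hA0N]
  have htσ : ∀ σ : N ≃ₐ[K] N, σ u = u → σ t = t := by
    intro σ hσ
    rw [ht, hden]
    simp only [map_add, map_div₀, map_pow, hσ, AlgEquiv.commutes]
  have hmemK : ∀ x : K, algebraMap K N x ∈ adjoin K₀ {t} := fun x => by
    rw [IsScalarTower.algebraMap_apply K K₀ N]
    exact IntermediateField.algebraMap_mem _ _
  have hdmem : den ∈ adjoin K₀ {t} := by
    rw [← hAs]
    exact div_mem (hmemK A) (sub_mem (mem_adjoin_simple_self _ t) (hmemK t₁))
  have hut : IsAlgebraic (adjoin K₀ {t}) u := by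
    have hmem : algebraMap K N (B + d) - den ∈ adjoin K₀ {t} := sub_mem (hmemK _) hdmem
    refine ⟨X ^ 2 + X + C (⟨algebraMap K N (B + d) - den, hmem⟩ : adjoin K₀ {t}), ?_, ?_⟩
    · have h4 : (X ^ 2 + X + C (⟨algebraMap K N (B + d) - den, hmem⟩ : adjoin K₀ {t}) :
          (adjoin K₀ {t})[X]).natDegree = 2 := by
        compute_degree!
      intro h5
      rw [h5, natDegree_zero] at h4
      omega
    · rw [map_add, map_add, map_pow, aeval_X, aeval_C]
      change u ^ 2 + u + (algebraMap K N (B + d) - den) = 0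
      rw [hden]
      ring
  obtain ⟨httr, htal⟩ := alg_of_mem u t hutr hual hut
  obtain ⟨r, hrinj, hr⟩ := pen_roots hP t (htrK t httr)
  have hs0 := hne t httr
  obtain ⟨w, hw⟩ : ∃ w, w = algebraMap K N g2 / (t - algebraMap K N t₁) := ⟨_, rfl⟩
  have h1 := hAS t httr htal r hrinj hr
  rw [← hw, hAs, hden] at h1
  obtain ⟨ε, hε⟩ : ∃ ε : N, TT r + w = u + algebraMap L N θ + ε ∧ (ε = 0 ∨ ε = 1) := by
    refine ⟨TT r + w + u + algebraMap L N θ, ?_, ?_⟩
    · linear_combination -(hself u) - (hself (algebraMap L N θ))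
    · apply as_zero
      have h2 : algebraMap K N d = (algebraMap L N θ) ^ 2 + algebraMap L N θ := by
        rw [IsScalarTower.algebraMap_apply K L N, hd, map_add, map_pow]
      rw [map_add, h2] at h1
      linear_combination h1 + hself (u ^ 2) + hself u + hself (algebraMap K N B) +
        hself ((algebraMap L N θ) ^ 2) + hself (algebraMap L N θ) + hself ((TT r + w) * u) +
        hself ((TT r + w) * algebraMap L N θ) + hself (u * algebraMap L N θ)
  obtain ⟨hε1, hε2⟩ := hε
  refine Pool.Agent.N93.PP.t_ariP K L K₀ N Unit η hη Unit n (SgnFib n χ) r hrinj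
    (fun i _ => r i) (fun i => Function.injective_of_subsingleton _) ?_ ?_
  · intro σ hσ
    have hσu : σ u = u := by rw [hu]; exact hσ ()
    have hσt : σ t = t := htσ σ hσu
    obtain ⟨π, hπ⟩ := perm_of (κ := K) hrinj hr σ hσt
    have hnorm : Normal K L := inferInstance
    obtain ⟨h, hh⟩ : ∃ h : L ≃ₐ[K] L, ∀ x, σ (algebraMap L N x) = algebraMap L N (h x) :=
      ⟨σ.restrictNormal L, fun x => (σ.restrictNormal_commutes L x).symm⟩
    have hσw : σ w = w := by
      rw [hw, map_div₀, map_sub, hσt, AlgEquiv.commutes, AlgEquiv.commutes]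
    have hσε : σ ε = ε := by
      rcases hε2 with h2 | h2
      · rw [h2, map_zero]
      · rw [h2, map_one]
    have hsign : Equiv.Perm.sign π = χ h := by
      apply sign_ite (N := N)
      have h2 := hTTσ (σ : N ≃+* N) r π hπ
      rw [((hTT N n r hrinj).2 π).1] at h2
      change σ (TT r) = _ at h2
      have h3 : σ (TT r + w) = u + algebraMap L N (h θ) + ε := by
        rw [hε1, map_add, map_add, hσu, hσε, hh]
      rw [map_add, h2, hσw, hθ, map_add] at h3
      have h4 : algebraMap L N (if χ h = 1 then 0 else 1) = (if χ h = 1 then (0 : N) else 1) := by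
        split_ifs
        · exact map_zero _
        · exact map_one _
      rw [h4] at h3
      linear_combination h3 - hε1
    exact ⟨(⟨1, π⟩, h), hsign, hh, fun i => ⟨hπ i, fun _ => hπ i⟩⟩
  · rintro ⟨⟨w', π⟩, h⟩ hz hz2
    have hsign : Equiv.Perm.sign π = 1 := by
      have h3 : Equiv.Perm.sign π = χ h := hz
      have h4 : h = 1 := hz2
      rw [h3, h4, map_one]
    obtain ⟨σ, hσt, hσ⟩ := hgeo t httr htal r hrinj hr π
    have hσw : σ w = w := by
      rw [hw, map_div₀, map_sub, hσt, hcK, hcK]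
    have hσε : σ ε = ε := by
      rcases hε2 with h2 | h2
      · rw [h2, map_zero]
      · rw [h2, map_one]
    have hσθ : σ (algebraMap L N θ) = algebraMap L N θ := by
      rw [IsScalarTower.algebraMap_apply L K₀ N, AlgEquiv.commutes]
    have hσu : σ u = u := by
      have h2 := hTTσ (σ : N ≃+* N) r π hσ
      rw [((hTT N n r hrinj).2 π).1, hsign, if_pos rfl, add_zero] at h2
      change σ (TT r) = _ at h2
      have h3 : σ (TT r + w) = σ u + algebraMap L N θ + ε := by
        rw [hε1, map_add, map_add, hσε, hσθ]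
      rw [map_add, h2, hσw] at h3
      linear_combination hε1 - h3
    refine ⟨σ, fun v => ?_, fun i => ⟨hσ i, fun _ => hσ i⟩⟩
    rw [show η v = u from hu.symm]
    exact hσu

end Pool.Agent.L7h25.AN
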