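import Mathlib
import Pool.Agent.L7h25.AN.AsmC
import Pool.Agent.L7h10.AN.Grp
import Pool.Agent.Y461.DC.Cent

/-!
Alternating groups are good kernels in odd characteristic.
-/

set_option autoImplicit false

namespace Pool.Agent.L7h25.AN

open Pool.Agent.H391R2 (Wr)
open Pool.Agent.H391R2.T4 (RegSol)
open Pool.Agent.Y60.DC (GoodKerP LocP)

/-- From the fibre products over the sign to all split embedding problems with kernel `A_n`. -/
theorem locP_of (p : ℕ) (n : ℕ) (hn : 5 ≤ n) (h6 : n ≠ 6)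
    (h : ∀ (K L : Type) [Field K] [CharP K p] [Infinite K] [Field L] [Algebra K L]
      [FiniteDimensional K L] [IsGalois K L] (χ : (L ≃ₐ[K] L) →* ℤˣ),
      RegSol K L (SgnFib n χ)
        ((MonoidHom.snd (Wr Unit n) (L ≃ₐ[K] L)).comp (SgnFib n χ).subtype)) :
    LocP p (alternatingGroup (Fin n)) := by
  intro K L _ _ _ _ _ _ _ β
  obtain ⟨-, -, -, h1⟩ := Pool.Agent.L7h10.AN.st_grp n hn h6
  obtain ⟨χ, Θ, hΘ⟩ := h1 (L ≃ₐ[K] L) β
  exact Pool.Agent.TH59.WX.reg_transport _ SemidirectProduct.rightHom Θ (fun x => hΘ x) (h K L χ)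

theorem good_of (p : ℕ) (n : ℕ) (hn : 5 ≤ n) (h6 : n ≠ 6)
    (h : LocP p (alternatingGroup (Fin n))) : GoodKerP p (alternatingGroup (Fin n)) := by
  obtain ⟨-, h1, h2, -⟩ := Pool.Agent.L7h10.AN.st_grp n hn h6
  exact Pool.Agent.Y461.DC.cent_holds p _ h1 h2 h

theorem two_ne (p : ℕ) [Fact p.Prime] (hp : p ≠ 2) (K : Type) [Field K] [CharP K p] :
    (2 : K) ≠ 0 := by
  intro h
  have h1 : ((2 : ℕ) : K) = 0 := by exact_mod_cast h
  rw [CharP.cast_eq_zero_iff K p] at h1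
  exact hp ((Nat.prime_dvd_prime_iff_eq Fact.out Nat.prime_two).1 h1)

theorem good_alt_odd (p : ℕ) [Fact p.Prime] (hp : p ≠ 2) (n : ℕ) (hn : 5 ≤ n) (h6 : n ≠ 6) :
    GoodKerP p (alternatingGroup (Fin n)) :=
  good_of p n hn h6 (locP_of p n hn h6 fun K L _ _ _ _ _ _ _ χ =>
    reg_sgnFib K L (two_ne p hp K) n hn χ)

end Pool.Agent.L7h25.AN
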