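import Pool.Agent.L7h25.AN.VocA
import Pool.Agent.L7h25.AN.Good
import Pool.Agent.Y60.DCF.Main

/-!
# The class `StepA p K`: regular and proper solutions
-/

set_option autoImplicit false

namespace Pool.Agent.L7h25.AN

open Pool.Agent.Y60.DC Pool.Agent.Y60.DCF
open Pool.Agent.H391R2 Pool.Agent.H391R2.T4
open Pool.Agent.TH15.IGP (StepSol Lim)
open Pool.Agent.TH444.TW (Cls RSK infinite_ratFunc infinite_of_hilb)

/-- The hypothesis which is proved in the two cases `p ≠ 2` and `p = 2`. -/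
def AltGood (p : ℕ) : Prop :=
  ∀ n : ℕ, 5 ≤ n → n ≠ 6 → GoodKerP p (alternatingGroup (Fin n))

/-- The class in the form used in the recursion. -/
def FacA (p : ℕ) [Fact p.Prime] (T : Type) [Group T] : Prop :=
  FacC p T ∨ IsAlt T

theorem FactorA.old {p : ℕ} [Fact p.Prime] (T : Type) [Group T] (h : FactorA p T) : FacA p T := by
  rcases h with h | h
  · exact Or.inl (Factor.old T h)
  · exact Or.inr h

theorem IsAlt.iso {T T' : Type} [Group T] [Group T'] (e : Nonempty (T ≃* T')) (h : IsAlt T) :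
    IsAlt T' := by
  obtain ⟨n, h1, h2, ⟨f⟩⟩ := h
  obtain ⟨e⟩ := e
  exact ⟨n, h1, h2, ⟨e.symm.trans f⟩⟩

theorem FacA.iso (p : ℕ) [Fact p.Prime] (T T' : Type) [Group T] [Group T']
    (e : Nonempty (T ≃* T')) (h : FacA p T) : FacA p T' := by
  rcases h with h | h
  · exact Or.inl (FacC.iso p T T' e h)
  · exact Or.inr (h.iso e)

theorem IsAlt.simple {T : Type} [Group T] (h : IsAlt T) : IsSimpleGroup T := by
  obtain ⟨n, h1, h2, ⟨f⟩⟩ := h
  have h3 := (Pool.Agent.L7h10.AN.st_grp n h1 h2).1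
  exact f.isSimpleGroup

theorem FacA.simple (p : ℕ) [Fact p.Prime] (T : Type) [Group T] (h : FacA p T) :
    IsSimpleGroup T := by
  rcases h with h | h
  · exact FacC.simple p T h
  · exact h.simple

theorem FacA.good (p : ℕ) [Fact p.Prime] (hG : AltGood p) (T : Type) [Group T] (h : FacA p T) :
    Nat.card T = p ∨ (Finite T ∧ Subgroup.center T = ⊥ ∧ GoodKerP p T) := by
  rcases h with h | ⟨n, h1, h2, ⟨f⟩⟩
  · exact FacC.good p T h
  · right
    refine ⟨Finite.of_equiv _ f.symm.toEquiv,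
      center_iso f.symm (Pool.Agent.L7h10.AN.st_grp n h1 h2).2.1, ?_⟩
    intro K L X _ _ _ _ _ _ _ _ α hα ⟨e⟩
    exact hG n h1 h2 K L X α hα ⟨e.trans f⟩

/-- Embedding problems over infinite fields of characteristic `p` whose kernel has composition
factors in `FacA p`. -/
theorem regA_inf (p : ℕ) [Fact p.Prime] (hG : AltGood p) (K L X : Type) [Field K] [CharP K p]
    [Infinite K] [Field L] [Algebra K L] [FiniteDimensional K L] [IsGalois K L] [Group X]
    [Finite X] (α : X →* (L ≃ₐ[K] L)) (hα : Function.Surjective α)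
    (h : CompIn (FacA p) α.ker) : RegSol K L X α :=
  kern_reg_gen p (fun T _ => FacA p T) (fun T T' _ _ e h => FacA.iso p T T' e h)
    (fun T _ h => FacA.simple p T h) (fun T _ h => FacA.good p hG T h) _ K L X α hα h rfl

variable {K : Type} [Field K]

theorem StepA.main (p : ℕ) [Fact p.Prime] (hG : AltGood p) [CharP K p] {W W' : Type} [Group W]
    [Group W'] {π : W' →* W} (h : StepA p K π) : Finite W → Finite W' ∧ RSK K π := by
  induction h with
  | base π h =>
    intro hW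
    exact h.old.main p hW
  | kernel π hs hfin h =>
    intro hW
    have hW' : Finite _ := Pool.Agent.TH444.TW.finite_of_ker π
    refine ⟨hW', ?_⟩
    intro K' M _ _ _ _ _ _ _ ε
    have hc : CharP K' p := charP_of_injective_algebraMap (algebraMap K K').injective p
    refine regA_inf p hG K' M _ _ (ε.symm.surjective.comp hs) ?_
    have h1 : (ε.symm.toMonoidHom.comp π).ker = π.ker := by
      ext x
      rw [MonoidHom.mem_ker, MonoidHom.mem_ker]
      exact map_eq_one_iff ε.symm ε.symm.injective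
    rw [h1]
    exact compIn_mono (fun T _ h => FactorA.old T h) h
  | comp π q hp hq ihp ihq =>
    intro hW
    obtain ⟨h1, h2⟩ := ihp hW
    obtain ⟨h3, h4⟩ := ihq h1
    exact ⟨h3, RSK.comp h2 h4⟩
  | quot π q hq hpq ih =>
    intro hW
    obtain ⟨h1, h2⟩ := ih hW
    exact ⟨Finite.of_surjective q hq, RSK.quot q hq (fun x => rfl) h2⟩

theorem towerA_finite (p : ℕ) [Fact p.Prime] (hG : AltGood p) [CharP K p] (W : ℕ → Type)
    [∀ i, Group (W i)] (π : ∀ i, W (i + 1) →* W i) (hp : ∀ i, StepA p K (π i))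
    (h0 : Finite (W 0)) : ∀ i, Finite (W i) := by
  intro i
  induction i with
  | zero => exact h0
  | succ i ih => exact ((hp i).main p hG ih).1

/-- Finite embedding problems. -/
theorem stepA_one (p : ℕ) [Fact p.Prime] (hG : AltGood p) (K L X : Type) [Field K] [CharP K p]
    [Field L] [Algebra K L] [FiniteDimensional K L] [IsGalois K L] [Group X]
    (α : X →* (L ≃ₐ[K] L)) (h : StepA p K α) : Finite X ∧ RegSol K L X α := by
  obtain ⟨h1, h2⟩ := h.main p hG inferInstance
  refine ⟨h1, ?_⟩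
  have h3 := h2.all L (MulEquiv.refl _)
  exact h3

/-- Regular towers over `K(t)`. -/
theorem stepA_regular (p : ℕ) [Fact p.Prime] (hG : AltGood p) (K L : Type) [Field K] [CharP K p]
    [Field L] [Algebra K L] [FiniteDimensional K L]
    [IsGalois K L] (W : ℕ → Type) [∀ i, Group (W i)] (π : ∀ i, W (i + 1) →* W i)
    (hp : ∀ i, StepA p K (π i)) (e₀ : W 0 ≃* (L ≃ₐ[K] L)) :
    ∃ (F : Type) (_ : Field F) (_ : Algebra (RatFunc K) F) (_ : Algebra L F)
      (_ : Algebra K F) (_ : IsScalarTower K (RatFunc K) F) (_ : IsScalarTower K L F)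
      (_ : IsGalois (RatFunc K) F) (γ : (F ≃ₐ[RatFunc K] F) ≃* Lim π),
      (∀ i, IsOpen {σ : F ≃ₐ[RatFunc K] F | (γ σ).1 i = 1}) ∧
      (∀ (σ : F ≃ₐ[RatFunc K] F) (x : L),
        σ (algebraMap L F x) = algebraMap L F (e₀ ((γ σ).1 0) x)) ∧
      ∀ y : F, IsAlgebraic L y → y ∈ Set.range (algebraMap L F) := by
  have hfin := towerA_finite p hG W π hp (Finite.of_equiv _ e₀.symm.toEquiv)
  refine Pool.Agent.TH377.IG.tower_regular K L
    (fun Ω _ _ _ _ _ _ j => Pool.Agent.TH377.IG.regStep K L Ω j) W π (fun i => ?_) e₀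
  intro M _ _ _ _ ε
  have := infinite_ratFunc K
  exact ((hp i).main p hG (hfin i)).2 (RatFunc K) M ε

/-- Towers over fields with the specialisation property. -/
theorem stepA_spec (p : ℕ) [Fact p.Prime] (hG : AltGood p) {K : Type} [Field K] [CharP K p]
    [Infinite K] (hK : Pool.Agent.TH377.IG.SpecProp K)
    (W : ℕ → Type) [∀ i, Group (W i)] (π : ∀ i, W (i + 1) →* W i) (hp : ∀ i, StepA p K (π i))
    (L : Type) [Field L] [Algebra K L] [FiniteDimensional K L] [IsGalois K L]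
    (e₀ : W 0 ≃* (L ≃ₐ[K] L)) :
    ∃ (F : Type) (_ : Field F) (_ : Algebra K F) (_ : Algebra L F) (_ : IsScalarTower K L F)
      (_ : IsGalois K F) (γ : (F ≃ₐ[K] F) ≃* Lim π),
      (∀ i, IsOpen {σ : F ≃ₐ[K] F | (γ σ).1 i = 1}) ∧
      ∀ (σ : F ≃ₐ[K] F) (x : L),
        σ (algebraMap L F x) = algebraMap L F (e₀ ((γ σ).1 0) x) := by
  have hfin := towerA_finite p hG W π hp (Finite.of_equiv _ e₀.symm.toEquiv)
  exact Pool.Agent.TH377.IG.tower_spec hK W π
    (fun i M _ _ _ _ ε => ((hp i).main p hG (hfin i)).2 K M ε) L e₀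

/-- Towers over Hilbertian fields. -/
theorem stepA_hilb (p : ℕ) [Fact p.Prime] (hG : AltGood p) {K : Type} [Field K] [CharP K p]
    (hK : HilbField K)
    (W : ℕ → Type) [∀ i, Group (W i)] (π : ∀ i, W (i + 1) →* W i) (hp : ∀ i, StepA p K (π i))
    (L : Type) [Field L] [Algebra K L] [FiniteDimensional K L] [IsGalois K L]
    (e₀ : W 0 ≃* (L ≃ₐ[K] L)) :
    ∃ (F : Type) (_ : Field F) (_ : Algebra K F) (_ : Algebra L F) (_ : IsScalarTower K L F)
      (_ : IsGalois K F) (γ : (F ≃ₐ[K] F) ≃* Lim π),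
      (∀ i, IsOpen {σ : F ≃ₐ[K] F | (γ σ).1 i = 1}) ∧
      ∀ (σ : F ≃ₐ[K] F) (x : L),
        σ (algebraMap L F x) = algebraMap L F (e₀ ((γ σ).1 0) x) := by
  have := infinite_of_hilb hK
  exact stepA_spec p hG (Pool.Agent.TH377.IG.spec_hilb hK) W π hp L e₀

/-- Proper solutions over fields with the specialisation property. -/
theorem stepA_spec_one (p : ℕ) [Fact p.Prime] (hG : AltGood p) {K : Type} [Field K] [CharP K p]
    (hK : Pool.Agent.TH377.IG.SpecProp K) (L X : Type) [Field L]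
    [Algebra K L] [FiniteDimensional K L] [IsGalois K L] [Group X] (α : X →* (L ≃ₐ[K] L))
    (h : StepA p K α) :
    ∃ (F : Type) (_ : Field F) (_ : Algebra K F) (_ : Algebra L F)
          (_ : IsScalarTower K L F),
          FiniteDimensional K F ∧ IsGalois K F ∧
          ∃ γ : (F ≃ₐ[K] F) ≃* X, ∀ σ : F ≃ₐ[K] F, α (γ σ) = σ.restrictNormal L := by
  obtain ⟨h1, F, i1, i2, i3, i4, i5, i6, i7, i8, γ, hγ, -⟩ := stepA_one p hG K L X α h
  exact hK L X α ⟨F, i1, i2, i3, i4, i5, i6, i7, i8, γ, hγ⟩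

/-- Towers over rational function fields over finite fields. -/
theorem stepA_ratFunc (p : ℕ) [Fact p.Prime] (hG : AltGood p) (κ : Type) [Field κ] [Finite κ]
    [CharP κ p] (W : ℕ → Type) [∀ i, Group (W i)] (π : ∀ i, W (i + 1) →* W i)
    (hp : ∀ i, StepA p (RatFunc κ) (π i))
    (L : Type) [Field L] [Algebra (RatFunc κ) L] [FiniteDimensional (RatFunc κ) L]
    [IsGalois (RatFunc κ) L] (e₀ : W 0 ≃* (L ≃ₐ[RatFunc κ] L)) :
    ∃ (F : Type) (_ : Field F) (_ : Algebra (RatFunc κ) F) (_ : Algebra L F)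
      (_ : IsScalarTower (RatFunc κ) L F) (_ : IsGalois (RatFunc κ) F)
      (γ : (F ≃ₐ[RatFunc κ] F) ≃* Lim π),
      (∀ i, IsOpen {σ : F ≃ₐ[RatFunc κ] F | (γ σ).1 i = 1}) ∧
      ∀ (σ : F ≃ₐ[RatFunc κ] F) (x : L),
        σ (algebraMap L F x) = algebraMap L F (e₀ ((γ σ).1 0) x) := by
  have := infinite_ratFunc κ
  have := charP_ratFunc κ p
  exact stepA_spec p hG (Pool.Agent.TH377.IG.spec_ratFunc κ) W π hp L e₀

end Pool.Agent.L7h25.AN
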