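import Pool.Agent.L7h25.AN.VocA
import Pool.Agent.N70.PP.Voc

/-!
# A class of epimorphisms

`Wr A k` is the wreath product `A ≀ S_k = (Fin k → A) ⋊ Perm (Fin k)`.
-/

set_option autoImplicit false

open Pool.Agent.Y60.DC (CompIn)
open Pool.Agent.TH444.TW (IsInnerPower)
open Pool.Agent.N70.PP.Voc (OccursRegularly)

namespace Pool.Agent.L7h25.AN

/-- `T` is a finite nonabelian simple group all of whose automorphisms are inner, and it occurs
regularly over the field with `p` elements. -/
def IsCompleteSimple (p : ℕ) [Fact p.Prime] (T : Type) [Group T] : Prop :=
  Finite T ∧ IsSimpleGroup T ∧ (∃ a b : T, a * b ≠ b * a) ∧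
  (∀ a : MulAut T, ∃ g : T, a = MulAut.conj g) ∧ OccursRegularly (ZMod p) T

/-- The composition factors which are allowed: the groups `FactorA p T` (groups of order `p`,
alternating groups `A_n`, `n ≥ 5`, `n ≠ 6`, and classical groups in characteristic `p`), and the
complete simple groups which occur regularly over the field with `p` elements. -/
def FactorB (p : ℕ) [Fact p.Prime] (T : Type) [Group T] : Prop :=
  FactorA p T ∨ IsCompleteSimple p T

/-- `Ladder p π`: the smallest class of homomorphisms `π` of groups which
* contains all epimorphisms, split or not, with a finite kernel all of whose composition factors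
  satisfy `FactorB p`,
* contains all homomorphisms which have a homomorphic section and a finite abelian kernel,
* contains the projections `A^k ⋊ W → W`, where `A` is a finite group which occurs regularly over the
  field with `p` elements and `W` acts through a homomorphism `W → A ≀ S_k` (for example the
  projections `A × W → W`),
* is closed under composition, and under quotients (if `π ∘ q` is in the class and `q` is
  surjective, then `π` is in the class). -/
inductive Ladder (p : ℕ) [Fact p.Prime] :
    ∀ {W W' : Type} [Group W] [Group W'], (W' →* W) → Prop
  /-- epimorphisms (split or not) with a finite kernel whose composition factors are allowed -/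
  | kernel {W W' : Type} [Group W] [Group W'] (π : W' →* W) (hs : Function.Surjective π)
      (hfin : Finite π.ker) (h : CompIn (FactorB p) π.ker) : Ladder p π
  /-- split, with finite abelian kernel -/
  | abelian {W W' : Type} [Group W] [Group W'] (π : W' →* W) (s : W →* W')
      (hs : ∀ w, π (s w) = w) (hfin : Finite π.ker)
      (hcomm : ∀ x y, π x = 1 → π y = 1 → x * y = y * x) : Ladder p π
  /-- `A^k ⋊ W → W` -/
  | inner {W W' : Type} [Group W] [Group W'] (π : W' →* W) (A : Type) [Group A] [Finite A]
      (hA : OccursRegularly (ZMod p) A) (hp : IsInnerPower A π) : Ladder p π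
  /-- compositions -/
  | comp {W W' W'' : Type} [Group W] [Group W'] [Group W''] (π : W' →* W) (q : W'' →* W')
      (hp : Ladder p π) (hq : Ladder p q) : Ladder p (π.comp q)
  /-- quotients -/
  | quot {W W' W'' : Type} [Group W] [Group W'] [Group W''] (π : W' →* W) (q : W'' →* W')
      (hq : Function.Surjective q) (hpq : Ladder p (π.comp q)) : Ladder p π

end Pool.Agent.L7h25.AN
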