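import Mathlib
import Pool.Agent.L7h25.AN.Stm2

/-!
The piece TT.
-/

set_option autoImplicit false

namespace Pool.Agent.L7h25.AN

theorem sum_pairs {M : Type} [AddCommMonoid M] {n : ℕ} (g : Fin n → Fin n → M) :
    ∑ i, ∑ j ∈ Finset.Ioi i, g i j =
      ∑ x ∈ Finset.univ.filter (fun x : Fin n × Fin n => x.1 < x.2), g x.1 x.2 := by
  classical
  rw [Finset.sum_filter, Fintype.sum_prod_type]
  refine Finset.sum_congr rfl fun i _ => ?_
  rw [← Finset.sum_filter]
  refine Finset.sum_congr ?_ fun _ _ => rfl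
  ext j
  simp

/-- Symmetric sums over pairs are invariant under permutations. -/
theorem sum_symm {M : Type} [AddCommMonoid M] {n : ℕ} (g : Fin n → Fin n → M)
    (hg : ∀ i j, i ≠ j → g i j = g j i) (π : Equiv.Perm (Fin n)) :
    ∑ i, ∑ j ∈ Finset.Ioi i, g (π i) (π j) = ∑ i, ∑ j ∈ Finset.Ioi i, g i j := by
  classical
  rw [sum_pairs g, sum_pairs (fun i j => g (π i) (π j))]
  let φ : Equiv.Perm (Fin n) → Fin n × Fin n → Fin n × Fin n := fun π x =>
    if π x.1 < π x.2 then (π x.1, π x.2) else (π x.2, π x.1)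
  have hφ : ∀ (π : Equiv.Perm (Fin n)) (x : Fin n × Fin n), x.1 < x.2 →
      (φ π x).1 < (φ π x).2 := by
    intro π x hx
    change (if π x.1 < π x.2 then (π x.1, π x.2) else (π x.2, π x.1)).1 <
      (if π x.1 < π x.2 then (π x.1, π x.2) else (π x.2, π x.1)).2
    split_ifs with h
    · exact h
    · exact lt_of_le_of_ne (not_lt.1 h) fun h2 => absurd (π.injective h2) (ne_of_gt hx)
  have hinv : ∀ (π : Equiv.Perm (Fin n)) (x : Fin n × Fin n), x.1 < x.2 →
      φ π⁻¹ (φ π x) = x := by
    intro π x hx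
    change (if π⁻¹ (φ π x).1 < π⁻¹ (φ π x).2 then (π⁻¹ (φ π x).1, π⁻¹ (φ π x).2) else
      (π⁻¹ (φ π x).2, π⁻¹ (φ π x).1)) = x
    by_cases h : π x.1 < π x.2
    · have h1 : φ π x = (π x.1, π x.2) := if_pos h
      rw [h1]
      simp only [show ∀ y, π⁻¹ (π y) = y from fun y => π.symm_apply_apply y]
      rw [if_pos hx]
    · have h1 : φ π x = (π x.2, π x.1) := if_neg h
      rw [h1]
      simp only [show ∀ y, π⁻¹ (π y) = y from fun y => π.symm_apply_apply y]
      rw [if_neg (not_lt.2 hx.le)]
  refine Finset.sum_nbij' (φ π) (φ π⁻¹) ?_ ?_ ?_ ?_ ?_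
  · intro x hx
    rw [Finset.mem_filter] at hx ⊢
    exact ⟨Finset.mem_univ _, hφ π x hx.2⟩
  · intro x hx
    rw [Finset.mem_filter] at hx ⊢
    exact ⟨Finset.mem_univ _, hφ π⁻¹ x hx.2⟩
  · intro x hx
    exact hinv π x (Finset.mem_filter.1 hx).2
  · intro x hx
    have h1 := hinv π⁻¹ x (Finset.mem_filter.1 hx).2
    rwa [inv_inv] at h1
  · intro x hx
    have hx := (Finset.mem_filter.1 hx).2
    by_cases h : π x.1 < π x.2
    · have h1 : φ π x = (π x.1, π x.2) := if_pos h
      rw [h1]
    · have h1 : φ π x = (π x.2, π x.1) := if_neg h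
      rw [h1]
      exact hg _ _ fun h2 => absurd (π.injective h2) (ne_of_lt hx)

/-- The number of inversions modulo two. -/
theorem inv_sign {N : Type} [Field N] [CharP N 2] {n : ℕ} (π : Equiv.Perm (Fin n)) :
    ∑ i, ∑ j ∈ Finset.Ioi i, (if π j < π i then (1 : N) else 0) =
      (if Equiv.Perm.sign π = 1 then 0 else 1) := by
  classical
  let f : Fin n → Fin n → ℤ := fun i j => if i < j then 1 else if j < i then -1 else 0
  have h1 := Equiv.Perm.prod_Ioi_comp_eq_sign_mul_prod π (f := f) (fun i j => by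
    change (if i < j then (1 : ℤ) else if j < i then -1 else 0) =
      -(if j < i then (1 : ℤ) else if i < j then -1 else 0)
    rcases lt_trichotomy i j with h | h | h
    · rw [if_pos h, if_neg (not_lt.2 h.le), if_pos h]; simp
    · rw [h]; simp
    · rw [if_neg (not_lt.2 h.le), if_pos h, if_pos h])
  have h2 : ∏ i, ∏ j ∈ Finset.Ioi i, f i j = 1 := by
    refine Finset.prod_eq_one fun i _ => Finset.prod_eq_one fun j hj => ?_
    exact if_pos (Finset.mem_Ioi.1 hj)
  rw [h2, mul_one] at h1
  let inv : ℕ := ∑ i, ∑ j ∈ Finset.Ioi i, (if π j < π i then 1 else 0)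
  have h3 : ∏ i, ∏ j ∈ Finset.Ioi i, f (π i) (π j) = (-1) ^ inv := by
    change _ = (-1) ^ (∑ i, ∑ j ∈ Finset.Ioi i, (if π j < π i then 1 else 0))
    rw [← Finset.prod_pow_eq_pow_sum]
    refine Finset.prod_congr rfl fun i _ => ?_
    rw [← Finset.prod_pow_eq_pow_sum]
    refine Finset.prod_congr rfl fun j hj => ?_
    have hij : i < j := Finset.mem_Ioi.1 hj
    rcases lt_trichotomy (π i) (π j) with h | h | h
    · change (if π i < π j then (1 : ℤ) else if π j < π i then -1 else 0) = _
      rw [if_pos h, if_neg (not_lt.2 h.le), pow_zero]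
    · exact absurd (π.injective h) (ne_of_lt hij)
    · change (if π i < π j then (1 : ℤ) else if π j < π i then -1 else 0) = _
      rw [if_neg (not_lt.2 h.le), if_pos h, if_pos h, pow_one]
  have h4 : ∑ i, ∑ j ∈ Finset.Ioi i, (if π j < π i then (1 : N) else 0) = (inv : N) := by
    change _ = ((∑ i, ∑ j ∈ Finset.Ioi i, (if π j < π i then 1 else 0) : ℕ) : N)
    push_cast
    rfl
  rw [h4]
  have h5 : ((Equiv.Perm.sign π : ℤˣ) : ℤ) = (-1) ^ inv := by
    rw [← h3, h1]
    rfl
  rcases Nat.even_or_odd inv with h | h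
  · rw [h.neg_one_pow] at h5
    have h6 : Equiv.Perm.sign π = 1 := Units.ext h5
    rw [if_pos h6]
    obtain ⟨k, hk⟩ := h
    rw [hk]
    push_cast
    exact CharTwo.add_self_eq_zero _
  · rw [h.neg_one_pow] at h5
    have h6 : Equiv.Perm.sign π ≠ 1 := by
      intro h7
      rw [h7] at h5
      norm_num at h5
    rw [if_neg h6]
    obtain ⟨k, hk⟩ := h
    rw [hk, two_mul]
    push_cast
    rw [CharTwo.add_self_eq_zero, zero_add]

theorem t_tt : St_tt := by
  intro N _ _ n r hr
  classical
  have hself : ∀ x : N, x + x = 0 := fun x => CharTwo.add_self_eq_zero x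
  have hne : ∀ i j, i ≠ j → r i + r j ≠ 0 := by
    intro i j hij h
    apply hij
    apply hr
    linear_combination h - hself (r j)
  refine ⟨?_, fun π => ⟨?_, ?_⟩⟩
  · have hsq : TT r ^ 2 = ∑ i, ∑ j ∈ Finset.Ioi i, (r i / (r i + r j)) ^ 2 := by
      rw [TT, sum_pow_char 2]
      refine Finset.sum_congr rfl fun i _ => ?_
      rw [sum_pow_char 2]
    rw [hsq, TT, DD, ← Finset.sum_add_distrib]
    refine Finset.sum_congr rfl fun i _ => ?_
    rw [← Finset.sum_add_distrib]
    refine Finset.sum_congr rfl fun j hj => ?_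
    have h1 := hne i j (ne_of_lt (Finset.mem_Ioi.1 hj))
    field_simp
    linear_combination hself (r i ^ 2)
  · let g : Fin n → Fin n → N := fun i j => r i / (r i + r j) + (if j < i then 1 else 0)
    have hg : ∀ i j, i ≠ j → g i j = g j i := by
      intro i j hij
      have h1 := hne i j hij
      have h2 : r j / (r j + r i) = 1 + r i / (r i + r j) := by
        rw [add_comm (r j) (r i)]
        field_simp
        linear_combination -(hself (r i))
      change r i / (r i + r j) + (if j < i then 1 else 0) =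
        r j / (r j + r i) + (if i < j then 1 else 0)
      rw [h2]
      rcases lt_or_gt_of_ne hij with h | h
      · rw [if_neg (not_lt.2 h.le), if_pos h]
        linear_combination -(hself (1 : N))
      · rw [if_pos h, if_neg (not_lt.2 h.le)]
        ring
    have h1 := sum_symm g hg π
    have h2 : ∑ i, ∑ j ∈ Finset.Ioi i, g i j = TT r := by
      rw [TT]
      refine Finset.sum_congr rfl fun i _ => Finset.sum_congr rfl fun j hj => ?_
      change r i / (r i + r j) + (if j < i then 1 else 0) = _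
      rw [if_neg (not_lt.2 (Finset.mem_Ioi.1 hj).le), add_zero]
    have h3 : ∑ i, ∑ j ∈ Finset.Ioi i, g (π i) (π j) = TT (fun i => r (π i)) +
        (if Equiv.Perm.sign π = 1 then 0 else 1) := by
      rw [← inv_sign, TT, ← Finset.sum_add_distrib]
      refine Finset.sum_congr rfl fun i _ => ?_
      rw [← Finset.sum_add_distrib]
    rw [h2, h3] at h1
    linear_combination h1 - hself (if Equiv.Perm.sign π = 1 then (0 : N) else 1)
  · exact sum_symm (fun i j => r i * r j / (r i + r j) ^ 2) (fun i j _ => by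
      rw [mul_comm, add_comm]) π

end Pool.Agent.L7h25.AN
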