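import Mathlib
import Pool.Agent.L7h25.AN.Stm2

/-!
The piece RAT.
-/

set_option autoImplicit false

namespace Pool.Agent.L7h25.AN

open Polynomial IntermediateField

/-- An element of `K(x)` which lies in all valuation rings containing `K` and `x` is a polynomial
in `x`. -/
theorem poly_of_val {K N : Type} [Field K] [Field N] [Algebra K N] (x D : N)
    (hx : Transcendental K x) (hD : D ∈ adjoin K {x})
    (h : ∀ O : ValuationSubring N, (∀ y : K, algebraMap K N y ∈ O) → x ∈ O → D ∈ O) :
    ∃ G : K[X], D = aeval x G := by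
  -- `D` is integral over `K[x]`
  let A : Set N := Set.range (algebraMap K N) ∪ {x}
  have hA : Subring.closure A = (Algebra.adjoin K {x}).toSubring := by
    rw [Algebra.adjoin_eq_ring_closure]
  have h1 : D ∈ (integralClosure (Subring.closure A) N).toSubring := by
    rw [← iInf_valuationSubring_superset, Subring.mem_iInf]
    rintro ⟨O, hO⟩
    exact h O (fun y => hO (Or.inl ⟨y, rfl⟩)) (hO (Or.inr rfl))
  have h2 : IsIntegral (Subring.closure A) D := h1
  -- in the rational function field
  let e := RatFunc.algEquivOfTranscendental x hx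
  obtain ⟨d, hd⟩ : ∃ d : RatFunc K, (e d : N) = D := ⟨e.symm ⟨D, hD⟩, by simp⟩
  have h3 : IsIntegral K[X] d := by
    obtain ⟨f, hfm, hf⟩ := h2
    -- lift the coefficients
    have hsurj : ∀ y : Subring.closure A, ∃ g : K[X], aeval x g = (y : N) := by
      intro y
      have h4 : (y : N) ∈ Algebra.adjoin K {x} := (SetLike.ext_iff.1 hA _).1 y.2
      rw [Algebra.adjoin_singleton_eq_range_aeval] at h4
      obtain ⟨g, hg⟩ := h4
      exact ⟨g, hg⟩
    choose g hg using hsurj
    have hinj : Function.Injective (aeval x : K[X] →ₐ[K] N) := transcendental_iff_injective.1 hx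
    let ψ : Subring.closure A →+* K[X] :=
      { toFun := g
        map_one' := hinj (by rw [hg, map_one]; rfl)
        map_mul' := fun a b => hinj (by rw [hg, map_mul, hg, hg]; rfl)
        map_zero' := hinj (by rw [hg, map_zero]; rfl)
        map_add' := fun a b => hinj (by rw [hg, map_add, hg, hg]; rfl) }
    refine ⟨f.map ψ, hfm.map ψ, ?_⟩
    rw [eval₂_map]
    have hinj2 : Function.Injective (fun z : RatFunc K => (e z : N)) :=
      Subtype.val_injective.comp e.injective
    apply hinj2
    let E : RatFunc K →+* N := ((adjoin K {x}).val : adjoin K {x} →+* N).comp (e : RatFunc K →+* _)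
    change E (eval₂ ((algebraMap K[X] (RatFunc K)).comp ψ) d f) = E 0
    rw [hom_eval₂, map_zero]
    have h6 : E.comp ((algebraMap K[X] (RatFunc K)).comp ψ) =
        algebraMap (Subring.closure A) N := by
      apply RingHom.ext
      intro y
      change ((e (algebraMap K[X] (RatFunc K) (g y)) : adjoin K {x}) : N) = y
      rw [RatFunc.algEquivOfTranscendental_algebraMap]
      have h7 : x = algebraMap (adjoin K {x}) N (AdjoinSimple.gen K x) := rfl
      rw [← hg y]
      conv_rhs => rw [h7]
      rw [aeval_algebraMap_apply]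
      rfl
    rw [h6]
    have h8 : E d = D := hd
    rw [h8]
    exact hf
  obtain ⟨G, hG⟩ := (IsIntegrallyClosed.isIntegral_iff (R := K[X]) (K := RatFunc K)).1 h3
  refine ⟨G, ?_⟩
  rw [← hd, ← hG, RatFunc.algEquivOfTranscendental_algebraMap]
  have h7 : x = algebraMap (adjoin K {x}) N (AdjoinSimple.gen K x) := rfl
  conv_rhs => rw [h7]
  rw [aeval_algebraMap_apply]
  rfl

theorem t_rat : St_rat := by
  intro K N _ _ _ s D hs hD h
  have hs0 : s ≠ 0 := fun h => hs (h ▸ isAlgebraic_zero)
  have hsi : Transcendental K s⁻¹ := by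
    intro h1
    apply hs
    have h2 := h1.inv
    rwa [inv_inv] at h2
  have hadj : adjoin K {s⁻¹} = adjoin K {s} := by
    apply le_antisymm
    · rw [adjoin_le_iff, Set.singleton_subset_iff]
      exact inv_mem (mem_adjoin_simple_self K s)
    · rw [adjoin_le_iff, Set.singleton_subset_iff]
      have h1 := inv_mem (mem_adjoin_simple_self K s⁻¹)
      rwa [inv_inv] at h1
  obtain ⟨G, hG⟩ := poly_of_val s⁻¹ D hsi (by rw [hadj]; exact hD) fun O hO h1 => (h O hO).1 h1
  obtain ⟨F, hF⟩ := poly_of_val s (s ^ 2 * D) hs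
    (mul_mem (pow_mem (mem_adjoin_simple_self K s) 2) hD) fun O hO h1 => (h O hO).2 h1
  -- compare
  have hdeg : G.natDegree ≤ 2 := by
    by_contra hcon
    rw [not_le] at hcon
    obtain ⟨m, hm⟩ : ∃ m, m = G.natDegree := ⟨_, rfl⟩
    rw [← hm] at hcon
    -- `s ^ m G(1/s) = reverse G (s)`
    have h1 : s ^ m * aeval s⁻¹ G = aeval s G.reverse := by
      rw [aeval_def, aeval_def, hm]
      let _ : Invertible s⁻¹ := invertibleOfNonzero (inv_ne_zero hs0)
      have h2 := eval₂_reverse_mul_pow (algebraMap K N) s⁻¹ G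
      rw [invOf_eq_inv, inv_inv] at h2
      rw [← h2, mul_left_comm, ← mul_pow, mul_inv_cancel₀ hs0, one_pow, mul_one]
    have h2 : aeval s (X ^ 2 * G.reverse) = aeval s (X ^ m * F) := by
      rw [map_mul, map_mul, map_pow, map_pow, aeval_X, ← h1, ← hF, hG]
      ring
    have h3 := (transcendental_iff_injective.1 hs) h2
    have h4 : (X ^ 2 * G.reverse).coeff 2 = (X ^ m * F).coeff 2 := by rw [h3]
    rw [mul_comm, coeff_mul_X_pow', if_pos le_rfl, mul_comm, coeff_mul_X_pow', if_neg (by omega),
      coeff_zero_reverse] at h4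
    rw [leadingCoeff_eq_zero] at h4
    rw [h4, natDegree_zero] at hm
    omega
  refine ⟨G.coeff 0, G.coeff 1, G.coeff 2, ?_⟩
  rw [hG, aeval_eq_sum_range' (lt_of_le_of_lt hdeg (by norm_num : 2 < 3)), Finset.sum_range_succ,
    Finset.sum_range_succ, Finset.sum_range_one]
  simp only [Algebra.smul_def, pow_zero, mul_one, pow_one, inv_pow]
  field_simp
  ring

end Pool.Agent.L7h25.AN
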