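import Mathlib
import Pool.Agent.L7h25.AN.Geo2

/-!
The differences of the roots of `P - tQ` in characteristic two: valuations.
-/

set_option autoImplicit false

namespace Pool.Agent.L7h25.AN

open Polynomial

section lin

variable {Γ : Type} [LinearOrderedCommGroupWithZero Γ]

theorem prod_le_one' {ι : Type} (s : Finset ι) (x : ι → Γ) (h : ∀ l ∈ s, x l ≤ 1) :
    ∏ l ∈ s, x l ≤ 1 := by
  classical
  induction s using Finset.induction_on with
  | empty => simp
  | insert a s ha ih =>
    rw [Finset.prod_insert ha]
    exact mul_le_one' (h a (Finset.mem_insert_self _ _))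
      (ih fun l hl => h l (Finset.mem_insert_of_mem hl))

theorem prod_le_pow {ι : Type} (s : Finset ι) (x : ι → Γ) (ρ : Γ) (h : ∀ l ∈ s, x l ≤ ρ) :
    ∏ l ∈ s, x l ≤ ρ ^ s.card := by
  classical
  induction s using Finset.induction_on with
  | empty => simp
  | insert a s ha ih =>
    rw [Finset.prod_insert ha, Finset.card_insert_of_notMem ha, pow_succ']
    exact mul_le_mul' (h a (Finset.mem_insert_self _ _))
      (ih fun l hl => h l (Finset.mem_insert_of_mem hl))

/-- If all factors are at most `ρ` and the product is `ρ ^ card`, all factors are `ρ`. -/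
theorem eq_of_prod {ι : Type} [DecidableEq ι] (s : Finset ι) (x : ι → Γ) (ρ : Γ) (hρ : ρ ≠ 0)
    (h : ∀ l ∈ s, x l ≤ ρ) (hp : ∏ l ∈ s, x l = ρ ^ s.card) (j : ι) (hj : j ∈ s) : x j = ρ := by
  refine le_antisymm (h j hj) ?_
  have h1 : ∏ l ∈ s.erase j, x l ≤ ρ ^ (s.erase j).card :=
    prod_le_pow _ _ _ fun l hl => h l (Finset.mem_of_mem_erase hl)
  have h2 : x j * ∏ l ∈ s.erase j, x l = ρ ^ s.card := by
    rw [Finset.mul_prod_erase s x hj, hp]
  have h3 : s.card = (s.erase j).card + 1 := by
    rw [Finset.card_erase_of_mem hj]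
    have := Finset.card_pos.2 ⟨j, hj⟩
    omega
  rw [h3, pow_succ'] at h2
  have h4 : ρ * ρ ^ (s.erase j).card ≤ x j * ρ ^ (s.erase j).card := by
    rw [← h2]
    exact mul_le_mul_right h1 _
  exact le_of_mul_le_mul_right h4 (zero_lt_iff.2 (pow_ne_zero _ hρ))

end lin

section val

variable {K N : Type} [Field K] [Field N] [Algebra K N] {Γ : Type}
  [LinearOrderedCommGroupWithZero Γ] (v : Valuation N Γ)

theorem v_const (hK : ∀ x : K, v (algebraMap K N x) ≤ 1) (x : K) (hx : x ≠ 0) :
    v (algebraMap K N x) = 1 := by
  refine le_antisymm (hK x) ?_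
  have h1 := hK x⁻¹
  rw [map_inv₀, map_inv₀] at h1
  have h2 : v (algebraMap K N x) ≠ 0 := by
    rw [Valuation.ne_zero_iff]
    exact (_root_.map_ne_zero _).2 hx
  exact (inv_le_one₀ (zero_lt_iff.2 h2)).1 h1

theorem v_poly_le (hK : ∀ x : K, v (algebraMap K N x) ≤ 1) (R : K[X]) (x : N) (hx : v x ≤ 1) :
    v (aeval x R) ≤ 1 := by
  rw [aeval_eq_sum_range]
  refine Valuation.map_sum_le v fun i _ => ?_
  rw [Algebra.smul_def, map_mul, map_pow]
  exact mul_le_one' (hK _) (pow_le_one' hx _)

theorem v_poly_unit (hK : ∀ x : K, v (algebraMap K N x) ≤ 1) (R : K[X]) (h0 : R.eval 0 ≠ 0) (x : N)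
    (hx : v x < 1) : v (aeval x R) = 1 := by
  have h1 : R = X * R.divX + C (R.coeff 0) := (X_mul_divX_add R).symm
  have h2 : aeval x R = x * aeval x R.divX + algebraMap K N (R.coeff 0) := by
    conv_lhs => rw [h1]
    rw [map_add, map_mul, aeval_X, aeval_C]
  rw [h2]
  have h3 : v (algebraMap K N (R.coeff 0)) = 1 := by
    apply v_const v hK
    rw [coeff_zero_eq_eval_zero]
    exact h0
  have h4 : v (x * aeval x R.divX) < 1 := by
    rw [map_mul]
    exact mul_lt_one_of_lt_of_le hx (v_poly_le v hK _ x hx.le)
  rw [Valuation.map_add_eq_of_lt_right v (by rw [h3]; exact h4), h3]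

theorem v_poly_big (hK : ∀ x : K, v (algebraMap K N x) ≤ 1) (R : K[X]) (hR : R.Monic) (x : N)
    (hx : 1 < v x) : v (aeval x R) = v x ^ R.natDegree := by
  have h1 : R = X ^ R.natDegree + R.eraseLead := by
    conv_lhs => rw [← R.eraseLead_add_C_mul_X_pow, hR.leadingCoeff, map_one, one_mul, add_comm]
  have h2 : aeval x R = x ^ R.natDegree + aeval x R.eraseLead := by
    conv_lhs => rw [h1]
    rw [map_add, map_pow, aeval_X]
  rw [h2]
  by_cases h0 : R.eraseLead = 0
  · rw [h0, map_zero, add_zero, map_pow]
  have h3 : v (aeval x R.eraseLead) < v (x ^ R.natDegree) := by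
    rw [aeval_eq_sum_range]
    refine Valuation.map_sum_lt v ?_ fun i hi => ?_
    · rw [map_pow]
      exact pow_ne_zero _ (ne_of_gt (lt_trans zero_lt_one hx))
    · rw [Algebra.smul_def, map_mul, map_pow, map_pow]
      have h4 : i < R.natDegree := by
        have h5 := Finset.mem_range.1 hi
        have h6 := R.eraseLead_natDegree_lt_or_eraseLead_eq_zero.resolve_right h0
        omega
      calc v (algebraMap K N (R.eraseLead.coeff i)) * v x ^ i ≤ 1 * v x ^ i :=
            mul_le_mul_left (hK _) _
        _ = v x ^ i := one_mul _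
        _ < v x ^ R.natDegree := pow_lt_pow_right₀ hx h4
  rw [Valuation.map_add_eq_of_lt_left v h3, map_pow]

end val

/-- The data of the pencils in characteristic two. -/
structure Dat (K : Type) [Field K] (n a q : ℕ) (P Q : K[X]) (β : K) : Prop where
  monic : P.Monic
  deg : P.natDegree = n
  low : ∃ P₂ : K[X], P = X ^ (a + 1) * P₂ ∧ P₂.eval 0 ≠ 0
  monicQ : Q.Monic
  degQ : Q.natDegree = q
  W : derivative P * Q - P * derivative Q = X ^ a * (X - C β) ^ 2
  aq : a + 2 = n - 1 + q
  n1 : 2 ≤ n
  q1 : q < n
  Q0 : Q.eval 0 ≠ 0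
  Qβ : Q.eval β ≠ 0
  Pβ : P.eval β ≠ 0
  lin : Q = 1 ∨ ∃ l : K, Q = X + C l

section main

variable {K N : Type} [Field K] [Field N] [Algebra K N] {Γ : Type}
  [LinearOrderedCommGroupWithZero Γ] (v : Valuation N Γ)
  (hK : ∀ x : K, v (algebraMap K N x) ≤ 1) {n a q : ℕ} {P Q : K[X]} {β : K}
  (hD : Dat K n a q P Q β) {t : N} {r : Fin n → N} (hr : Function.Injective r)
  (hf : P.map (algebraMap K N) - C t * Q.map (algebraMap K N) = ∏ i, (X - C (r i)))

include hf in
theorem dat_root (i : Fin n) : aeval (r i) P = t * aeval (r i) Q :=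
  (root_eq hf (r i)).2 ⟨i, rfl⟩

include hf hD in
/-- `f'(r_i) Q(r_i) = W(r_i)`. -/
theorem dat_der (i : Fin n) :
    (∏ l ∈ Finset.univ.erase i, (r i - r l)) * aeval (r i) Q =
      r i ^ a * (r i - algebraMap K N β) ^ 2 := by
  classical
  obtain ⟨f, hf'⟩ : ∃ f : N[X], f = P.map (algebraMap K N) - C t * Q.map (algebraMap K N) :=
    ⟨_, rfl⟩
  have h1 : derivative f * Q.map (algebraMap K N) - f * derivative (Q.map (algebraMap K N)) =
      X ^ a * (X - C (algebraMap K N β)) ^ 2 := by
    have h0 : (X ^ a * (X - C β) ^ 2 : K[X]).map (algebraMap K N) =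
        X ^ a * (X - C (algebraMap K N β)) ^ 2 := by simp
    rw [← h0, ← hD.W, hf']
    simp only [derivative_sub, derivative_mul, derivative_C, Polynomial.map_sub,
      Polynomial.map_mul, derivative_map, zero_mul, zero_add]
    ring
  have h2 := congrArg (Polynomial.eval (r i)) h1
  have hf0 : f.eval (r i) = 0 := by
    rw [hf', hf, eval_prod]
    exact Finset.prod_eq_zero (Finset.mem_univ i) (by simp)
  have hf1 : (derivative f).eval (r i) = ∏ l ∈ Finset.univ.erase i, (r i - r l) := by
    rw [hf', hf, Polynomial.derivative_prod_finset, eval_finsetSum, Finset.sum_eq_single i]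
    · rw [eval_mul, eval_prod]
      simp
    · intro j _ hji
      rw [eval_mul, eval_prod, Finset.prod_eq_zero (Finset.mem_erase.2 ⟨hji.symm, Finset.mem_univ i⟩)
        (by simp), zero_mul]
    · intro h
      exact absurd (Finset.mem_univ i) h
  rw [eval_sub, eval_mul, eval_mul, hf0, hf1, zero_mul, sub_zero, eval_map_algebraMap] at h2
  rw [h2]
  simp

include hf hD in
theorem dat_beta : ∏ i, (algebraMap K N β - r i) =
    (algebraMap K N (P.eval β / Q.eval β) - t) * algebraMap K N (Q.eval β) := by
  have h1 := congrArg (Polynomial.eval (algebraMap K N β)) hf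
  rw [eval_prod] at h1
  simp only [eval_sub, eval_X, eval_C, eval_mul, eval_map, eval₂_at_apply] at h1
  rw [← h1, sub_mul, ← map_mul, div_mul_cancel₀ _ hD.Qβ]

include hf hD in
theorem dat_zero : ∏ i, (- r i) = - (t * algebraMap K N (Q.eval 0)) := by
  have h1 := congrArg (Polynomial.eval (0 : N)) hf
  obtain ⟨P₂, hP₂, -⟩ := hD.low
  have hP0 : P.eval 0 = 0 := by
    rw [hP₂, eval_mul, eval_pow, eval_X, pow_succ, mul_zero, zero_mul]
  have h2 : ∀ R : K[X], (R.map (algebraMap K N)).eval 0 = algebraMap K N (R.eval 0) := fun R => by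
    rw [← map_zero (algebraMap K N), eval_map, eval₂_at_apply]
  rw [eval_prod, eval_sub, eval_mul, eval_C, h2, h2, hP0, map_zero, zero_sub] at h1
  rw [h1]
  refine Finset.prod_congr rfl fun i _ => ?_
  simp

include hK hD hf hr in
theorem val_main (h2 : CharP N 2) (ht : Transcendental K t) (i j : Fin n) (hij : i ≠ j) :
    (v (t - algebraMap K N (P.eval β / Q.eval β))⁻¹ ≤ 1 →
      v (r i * r j / (r i + r j) ^ 2) ≤ 1) ∧
    (v (t - algebraMap K N (P.eval β / Q.eval β)) ≤ 1 →
      v ((t - algebraMap K N (P.eval β / Q.eval β)) ^ 2 * (r i * r j / (r i + r j) ^ 2)) ≤ 1) := by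
  classical
  obtain ⟨t₁, ht₁⟩ : ∃ t₁, t₁ = P.eval β / Q.eval β := ⟨_, rfl⟩
  have hbeta := dat_beta hD hf
  rw [← ht₁] at hbeta ⊢
  obtain ⟨s, hs⟩ : ∃ s, s = t - algebraMap K N t₁ := ⟨_, rfl⟩
  rw [← hs]
  have ht₁0 : t₁ ≠ 0 := by
    rw [ht₁]
    exact div_ne_zero hD.Pβ hD.Qβ
  have hs0 : s ≠ 0 := by
    intro h
    apply ht
    rw [hs, sub_eq_zero] at h
    rw [h]
    exact isAlgebraic_algebraMap _
  have ht0 : t ≠ 0 := fun h => ht (h ▸ isAlgebraic_zero)
  have hvs0 : v s ≠ 0 := (Valuation.ne_zero_iff v).2 hs0
  have hvt0 : v t ≠ 0 := (Valuation.ne_zero_iff v).2 ht0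
  have hplus : ∀ k l, r k + r l = r k - r l := fun k l => by
    rw [sub_eq_add_neg, CharTwo.neg_eq]
  have hdne : ∀ k l, k ≠ l → v (r k - r l) ≠ 0 := fun k l hkl =>
    (Valuation.ne_zero_iff v).2 (sub_ne_zero.2 fun h => hkl (hr h))
  have hsym : ∀ k l, v (r k - r l) = v (r l - r k) := fun k l => Valuation.map_sub_swap v _ _
  -- from `v (r_i) v (r_j) ≤ v (r_i - r_j)²`
  have hred : v (r i) * v (r j) ≤ v (r i - r j) ^ 2 → v (r i * r j / (r i + r j) ^ 2) ≤ 1 := by
    intro h
    rw [hplus, map_div₀, map_mul, map_pow]
    exact (div_le_one₀ (zero_lt_iff.2 (pow_ne_zero 2 (hdne i j hij)))).2 h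
  have hroot := dat_root hf
  have hder := dat_der hD hf
  have hzero := dat_zero hD hf
  obtain ⟨P₂, hP₂, hP₂0⟩ := hD.low
  have hderv : ∀ k, (∏ l ∈ Finset.univ.erase k, v (r k - r l)) * v (aeval (r k) Q) =
      v (r k) ^ a * v (r k - algebraMap K N β) ^ 2 := by
    intro k
    have h1 := congrArg v (hder k)
    rw [map_mul, map_prod, map_mul, map_pow, map_pow] at h1
    exact h1
  have hQ0v : v (algebraMap K N (Q.eval 0)) = 1 := v_const v hK _ hD.Q0
  have hQβv : v (algebraMap K N (Q.eval β)) = 1 := v_const v hK _ hD.Qβ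
  have hzerov : ∏ k, v (r k) = v t := by
    have h1 := congrArg v hzero
    rw [map_prod, Valuation.map_neg, map_mul, hQ0v, mul_one] at h1
    rw [← h1]
    refine Finset.prod_congr rfl fun k _ => ?_
    rw [Valuation.map_neg]
  have hbetav : ∏ k, v (r k - algebraMap K N β) = v s := by
    have h1 := congrArg v hbeta
    rw [map_prod, map_mul, hQβv, mul_one, Valuation.map_sub_swap, ← hs] at h1
    rw [← h1]
    refine Finset.prod_congr rfl fun k _ => ?_
    rw [Valuation.map_sub_swap]
  have hβ1 : v (algebraMap K N β) ≤ 1 := hK β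
  -- small roots
  have hsmall : ∀ k, v (r k) < 1 → v (r k) ^ (a + 1) = v t ∧ v (aeval (r k) Q) = 1 := by
    intro k hk
    have h1 := congrArg v (hroot k)
    have h3 : v (aeval (r k) Q) = 1 := v_poly_unit v hK Q hD.Q0 _ hk
    rw [hP₂, map_mul (aeval (r k)), map_pow (aeval (r k)), aeval_X, map_mul, map_mul, map_pow,
      v_poly_unit v hK P₂ hP₂0 _ hk, h3, mul_one, mul_one] at h1
    exact ⟨h1, h3⟩
  rcases le_or_gt (v t) 1 with hvt | hvt
  · -- `t` integral
    have hint : ∀ k, v (r k) ≤ 1 := by
      intro k
      by_contra hk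
      rw [not_le] at hk
      have h1 := congrArg v (hroot k)
      rw [map_mul, v_poly_big v hK P hD.monic _ hk, v_poly_big v hK Q hD.monicQ _ hk, hD.deg,
        hD.degQ] at h1
      have h3 : v t * v (r k) ^ q ≤ v (r k) ^ q := by
        calc v t * v (r k) ^ q ≤ 1 * v (r k) ^ q := mul_le_mul_left hvt _
          _ = v (r k) ^ q := one_mul _
      have h4 : v (r k) ^ q < v (r k) ^ n := pow_lt_pow_right₀ hk hD.q1
      rw [← h1] at h3
      exact absurd h3 (not_le.2 h4)
    have hdle : ∀ k l, v (r k - r l) ≤ 1 := fun k l =>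
      (Valuation.map_sub v _ _).trans (max_le (hint k) (hint l))
    have hQle : ∀ k, v (aeval (r k) Q) ≤ 1 := fun k => v_poly_le v hK Q _ (hint k)
    have hvs : v s ≤ 1 := by
      rw [hs]
      exact (Valuation.map_sub v _ _).trans (max_le hvt (hK _))
    rcases eq_or_lt_of_le hvs with hvs1 | hvs1
    · -- `s` a unit
      have hbk : ∀ k, v (r k - algebraMap K N β) = 1 := by
        intro k
        refine eq_of_prod Finset.univ (fun k => v (r k - algebraMap K N β)) 1 one_ne_zero
          (fun l _ => (Valuation.map_sub v _ _).trans (max_le (hint l) hβ1)) ?_ k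
          (Finset.mem_univ k)
        rw [hbetav, hvs1, one_pow]
      have hterm : v (r i) * v (r j) ≤ v (r i - r j) ^ 2 := by
        have hunit : ∀ k l, k ≠ l → v (r k) = 1 → v (r k - r l) = 1 := by
          intro k l hkl hk
          have h1 := hderv k
          rw [hk, hbk, one_pow, one_pow, one_mul] at h1
          have h3 : ∏ l ∈ Finset.univ.erase k, v (r k - r l) = 1 := by
            refine le_antisymm (prod_le_one' _ _ fun l _ => hdle k l) ?_
            rw [← h1]
            calc (∏ l ∈ Finset.univ.erase k, v (r k - r l)) * v (aeval (r k) Q)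
                ≤ (∏ l ∈ Finset.univ.erase k, v (r k - r l)) * 1 :=
                  mul_le_mul_right (hQle k) _
              _ = _ := mul_one _
          refine eq_of_prod (Finset.univ.erase k) (fun l => v (r k - r l)) 1 one_ne_zero
            (fun l _ => hdle k l) ?_ l (Finset.mem_erase.2 ⟨hkl.symm, Finset.mem_univ l⟩)
          rw [h3, one_pow]
        rcases eq_or_lt_of_le (hint i) with hi | hi
        · rw [hunit i j hij hi, one_pow]
          exact mul_le_one' (hint i) (hint j)
        rcases eq_or_lt_of_le (hint j) with hj | hj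
        · rw [hsym, hunit j i hij.symm hj, one_pow]
          exact mul_le_one' (hint i) (hint j)
        -- both small
        obtain ⟨hi1, hi2⟩ := hsmall i hi
        have hρ0 : v (r i) ≠ 0 := by
          intro h
          rw [h, pow_succ, mul_zero] at hi1
          exact hvt0 hi1.symm
        have hsame : ∀ k, v (r k) < 1 → v (r k) = v (r i) := by
          intro k hk
          have h1 := (hsmall k hk).1
          rw [← hi1] at h1
          exact (pow_left_inj₀ zero_le zero_le (by omega)).1 h1
        let S := Finset.univ.filter fun k => v (r k) < 1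
        have hmemS : ∀ k, k ∈ S ↔ v (r k) < 1 := fun k => by simp [S]
        have hcard : S.card = a + 1 := by
          have h1 : ∏ k, v (r k) = v (r i) ^ S.card := by
            rw [← Finset.prod_filter_mul_prod_filter_not Finset.univ (fun k => v (r k) < 1)]
            have h3 : ∏ k ∈ Finset.univ.filter (fun k => ¬ v (r k) < 1), v (r k) = 1 := by
              refine Finset.prod_eq_one fun k hk => ?_
              exact le_antisymm (hint k) (not_lt.1 (Finset.mem_filter.1 hk).2)
            rw [h3, mul_one]
            rw [Finset.prod_congr rfl (fun k hk => hsame k (Finset.mem_filter.1 hk).2),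
              Finset.prod_const]
          rw [hzerov, ← hi1] at h1
          exact (pow_right_injective₀ (zero_lt_iff.2 hρ0) hi.ne h1).symm
        have hfar : ∀ l, l ∉ S → v (r i - r l) = 1 := by
          intro l hl
          rw [hmemS] at hl
          have h1 : v (r l) = 1 := le_antisymm (hint l) (not_lt.1 hl)
          rw [Valuation.map_sub_eq_of_lt_right v (by rw [h1]; exact hi), h1]
        have hiS : i ∈ S := (hmemS i).2 hi
        have hprod : ∏ l ∈ S.erase i, v (r i - r l) = v (r i) ^ (S.erase i).card := by
          have h1 := hderv i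
          rw [hi2, hbk, one_pow, mul_one, mul_one] at h1
          have h3 : ∏ l ∈ Finset.univ.erase i, v (r i - r l) =
              ∏ l ∈ S.erase i, v (r i - r l) := by
            symm
            apply Finset.prod_subset (Finset.erase_subset_erase _ (Finset.subset_univ _))
            intro l hl hl2
            apply hfar
            intro hlS
            exact hl2 (Finset.mem_erase.2 ⟨(Finset.mem_erase.1 hl).1, hlS⟩)
          rw [← h3, h1, Finset.card_erase_of_mem hiS, hcard, Nat.add_sub_cancel]
        have hdij : v (r i - r j) = v (r i) := by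
          refine eq_of_prod (S.erase i) (fun l => v (r i - r l)) (v (r i)) hρ0 (fun l hl => ?_)
            hprod j (Finset.mem_erase.2 ⟨hij.symm, (hmemS j).2 hj⟩)
          refine (Valuation.map_sub v _ _).trans (max_le le_rfl ?_)
          rw [hsame l ((hmemS l).1 (Finset.mem_of_mem_erase hl))]
        rw [hdij, hsame j hj, sq]
      refine ⟨fun _ => hred hterm, fun _ => ?_⟩
      rw [map_mul, map_pow, hvs1, one_pow, one_mul]
      exact hred hterm
    · -- `s` small
      have hvt1 : v t = 1 := by
        have h1 : t = algebraMap K N t₁ + s := by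
          rw [hs]
          ring
        rw [h1, Valuation.map_add_eq_of_lt_left v (by rw [v_const v hK t₁ ht₁0]; exact hvs1),
          v_const v hK t₁ ht₁0]
      have hone : ∀ k, v (r k) = 1 := by
        intro k
        by_contra hk
        have hk' : v (r k) < 1 := lt_of_le_of_ne (hint k) hk
        have h1 := (hsmall k hk').1
        rw [hvt1] at h1
        exact absurd h1 (ne_of_lt (pow_lt_one₀ zero_le hk' (by omega)))
      refine ⟨fun h => ?_, fun _ => ?_⟩
      · exfalso
        rw [map_inv₀] at h
        have h1 := (inv_le_one₀ (zero_lt_iff.2 hvs0)).1 h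
        exact absurd h1 (not_le.2 hvs1)
      · have h1 : ∏ k, ((∏ l ∈ Finset.univ.erase k, v (r k - r l)) * v (aeval (r k) Q)) =
            v s ^ 2 := by
          rw [Finset.prod_congr rfl fun k _ => hderv k]
          rw [Finset.prod_congr rfl fun k _ => by rw [hone k, one_pow, one_mul],
            Finset.prod_pow, hbetav]
        have hPi : ∀ k, (∏ l ∈ Finset.univ.erase k, v (r k - r l)) * v (aeval (r k) Q) ≤ 1 :=
          fun k => mul_le_one' (prod_le_one' _ _ fun l _ => hdle k l) (hQle k)
        have hPk : ∀ k l, k ≠ l →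
            (∏ l ∈ Finset.univ.erase k, v (r k - r l)) * v (aeval (r k) Q) ≤ v (r k - r l) := by
          intro k l hkl
          rw [← Finset.mul_prod_erase (Finset.univ.erase k) (fun l => v (r k - r l))
            (Finset.mem_erase.2 ⟨hkl.symm, Finset.mem_univ l⟩), mul_assoc]
          calc v (r k - r l) * ((∏ x ∈ (Finset.univ.erase k).erase l, v (r k - r x)) *
                v (aeval (r k) Q)) ≤ v (r k - r l) * 1 :=
                mul_le_mul_right (mul_le_one' (prod_le_one' _ _ fun l _ => hdle k l) (hQle k)) _
            _ = _ := mul_one _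
        have h3 : v s ^ 2 ≤ v (r i - r j) ^ 2 := by
          have e1 := Finset.mul_prod_erase Finset.univ
            (fun k => (∏ l ∈ Finset.univ.erase k, v (r k - r l)) * v (aeval (r k) Q))
            (Finset.mem_univ i)
          have e2 := Finset.mul_prod_erase (Finset.univ.erase i)
            (fun k => (∏ l ∈ Finset.univ.erase k, v (r k - r l)) * v (aeval (r k) Q))
            (Finset.mem_erase.2 ⟨hij.symm, Finset.mem_univ j⟩)
          rw [← h1, ← e1, ← e2, ← mul_assoc, sq]
          have h4 := hPk j i hij.symm
          rw [hsym j i] at h4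
          calc _ ≤ (v (r i - r j) * v (r i - r j)) * 1 :=
                mul_le_mul' (mul_le_mul' (hPk i j hij) h4) (prod_le_one' _ _ fun k _ => hPi k)
            _ = _ := mul_one _
        rw [hplus, map_mul, map_div₀, map_mul, map_pow, map_pow, hone i, hone j, one_mul,
          ← mul_div_assoc, mul_one]
        exact (div_le_one₀ (zero_lt_iff.2 (pow_ne_zero 2 (hdne i j hij)))).2 h3
  · -- `t` large
    have hvs : v s = v t := by
      rw [hs]
      exact Valuation.map_sub_eq_of_lt_left v (lt_of_le_of_lt (hK _) hvt)
    refine ⟨fun _ => hred ?_, fun h => ?_⟩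
    · have hbig : ∀ k, 1 < v (r k) → v (r k) ^ (n - q) = v t := by
        intro k hk
        have h1 := congrArg v (hroot k)
        rw [map_mul, v_poly_big v hK P hD.monic _ hk, v_poly_big v hK Q hD.monicQ _ hk, hD.deg,
          hD.degQ] at h1
        have h3 : n = (n - q) + q := by have := hD.q1; omega
        have h5 : v (r k) ^ n = v (r k) ^ (n - q) * v (r k) ^ q := by rw [← pow_add, ← h3]
        rw [h5] at h1
        have h4 : v (r k) ^ q ≠ 0 := pow_ne_zero _ (ne_of_gt (lt_trans zero_lt_one hk))
        exact mul_right_cancel₀ h4 h1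
      have hmain : ∀ k l, k ≠ l → 1 < v (r k) → v (r k) * v (r l) ≤ v (r k - r l) ^ 2 := by
        intro k l hkl hk
        have hρ0 : v (r k) ≠ 0 := ne_of_gt (lt_trans zero_lt_one hk)
        have hle : ∀ m, v (r m) ≤ v (r k) := by
          intro m
          rcases le_or_gt (v (r m)) 1 with hm | hm
          · exact hm.trans hk.le
          · have h1 := hbig m hm
            rw [← hbig k hk] at h1
            have h3 : n - q ≠ 0 := by have := hD.q1; omega
            exact ((pow_left_inj₀ zero_le zero_le h3).1 h1).le
        have h1 := hderv k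
        rw [v_poly_big v hK Q hD.monicQ _ hk, hD.degQ,
          Valuation.map_sub_eq_of_lt_left v (lt_of_le_of_lt hβ1 hk), ← pow_add] at h1
        have h3 : ∏ l ∈ Finset.univ.erase k, v (r k - r l) = v (r k) ^ (n - 1) := by
          rw [hD.aq, pow_add] at h1
          exact mul_right_cancel₀ (pow_ne_zero _ hρ0) h1
        have h4 : v (r k - r l) = v (r k) := by
          refine eq_of_prod (Finset.univ.erase k) (fun l => v (r k - r l)) (v (r k)) hρ0
            (fun m _ => (Valuation.map_sub v _ _).trans (max_le le_rfl (hle m))) ?_ l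
            (Finset.mem_erase.2 ⟨hkl.symm, Finset.mem_univ l⟩)
          rw [h3, Finset.card_erase_of_mem (Finset.mem_univ k), Finset.card_univ, Fintype.card_fin]
        rw [h4, sq]
        exact mul_le_mul_right (hle l) _
      rcases le_or_gt (v (r i)) 1 with hi | hi
      · rcases le_or_gt (v (r j)) 1 with hj | hj
        · exfalso
          rcases hD.lin with hQ | ⟨l, hQ⟩
          · have h1 := congrArg v (hroot i)
            rw [hQ, map_one, mul_one] at h1
            have h3 := v_poly_le v hK P _ hi
            rw [h1] at h3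
            exact absurd h3 (not_le.2 hvt)
          · have h1 : aeval (r i) P - aeval (r j) P = t * (r i - r j) := by
              rw [hroot i, hroot j, hQ, map_add, map_add, aeval_X, aeval_X, aeval_C, aeval_C]
              ring
            have h3 : v (aeval (r i) P - aeval (r j) P) ≤ v (r i - r j) := by
              obtain ⟨R, hR⟩ : ∃ R : N, v R ≤ 1 ∧ aeval (r i) P - aeval (r j) P =
                  (r i - r j) * R := by
                have h4 : ∀ R : K[X], ∃ y : N, v y ≤ 1 ∧ aeval (r i) R - aeval (r j) R =
                    (r i - r j) * y := by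
                  intro R
                  induction R using Polynomial.induction_on' with
                  | add p q hp hq =>
                    obtain ⟨y, hy, hy2⟩ := hp
                    obtain ⟨z, hz, hz2⟩ := hq
                    refine ⟨y + z, (Valuation.map_add v _ _).trans (max_le hy hz), ?_⟩
                    rw [map_add, map_add, mul_add, ← hy2, ← hz2]
                    ring
                  | monomial m c =>
                    refine ⟨algebraMap K N c * ∑ k ∈ Finset.range m, r i ^ k * r j ^ (m - 1 - k),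
                      ?_, ?_⟩
                    · rw [map_mul]
                      refine mul_le_one' (hK _) (Valuation.map_sum_le v fun k _ => ?_)
                      rw [map_mul, map_pow, map_pow]
                      exact mul_le_one' (pow_le_one' hi _) (pow_le_one' hj _)
                    · rw [aeval_monomial, aeval_monomial, ← mul_sub, ← (Commute.all (r i)
                        (r j)).geom_sum₂_mul m]
                      ring
                exact h4 P
              rw [hR.2, map_mul]
              calc v (r i - r j) * v R ≤ v (r i - r j) * 1 := mul_le_mul_right hR.1 _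
                _ = _ := mul_one _
            rw [h1, map_mul] at h3
            have h5 : v t ≤ 1 := by
              by_contra h6
              rw [not_le] at h6
              have h7 : 1 * v (r i - r j) < v t * v (r i - r j) :=
                mul_lt_mul_of_pos_right h6 (zero_lt_iff.2 (hdne i j hij))
              rw [one_mul] at h7
              exact absurd h3 (not_le.2 h7)
            exact absurd h5 (not_le.2 hvt)
        · rw [mul_comm, hsym]
          exact hmain j i hij.symm hj
      · exact hmain i j hij hi
    · exfalso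
      rw [hvs] at h
      exact absurd h (not_le.2 hvt)

end main

end Pool.Agent.L7h25.AN
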