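import Mathlib
import Pool.Agent.L7h25.AN.Val

/-!
The piece VAL2.
-/

set_option autoImplicit false
set_option linter.unusedSimpArgs false

namespace Pool.Agent.L7h25.AN

open Polynomial

theorem dat_of_fam2 (K : Type) [Field K] [CharP K 2] (n : ℕ) (P Q : K[X]) (β : K) (hn : 5 ≤ n)
    (hF : Fam2 K n P Q β) : ∃ a q : ℕ, Dat K n a q P Q β := by
  have h2 : (2 : K[X]) = 0 := by
    have h1 : (2 : K) = 0 := by
      have := CharP.cast_eq_zero K 2
      exact_mod_cast this
    rw [← C_ofNat, h1, map_zero]
  rcases hF with ⟨he, h1, h3, hP, hQ⟩ | ⟨ho, h1, b, h3, h4, hP, hQ⟩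
  · obtain ⟨k, rfl⟩ : ∃ k, n = k + 2 := ⟨n - 2, by omega⟩
    have hk : ((k : ℕ) : K[X]) = 0 := by
      have h5 : Even k := by
        rw [Nat.even_add] at he
        exact he.2 (by decide)
      obtain ⟨l, hl⟩ := h5
      rw [hl, ← two_mul, Nat.cast_mul, Nat.cast_ofNat, h2, zero_mul]
    have hm1 : ((X : K[X]) ^ (k + 1)).Monic := monic_X_pow _
    have hm2 : (X + 1 : K[X]).Monic := by
      have h5 := monic_X_add_C (1 : K)
      rwa [map_one] at h5
    have hd2 : (X + 1 : K[X]).natDegree = 1 := by
      have h5 := natDegree_X_add_C (1 : K)
      rwa [map_one] at h5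
    refine ⟨k, 1, ?_⟩
    rw [show k + 2 - 1 = k + 1 from rfl] at hP
    exact
      { monic := by rw [hP]; exact hm1.mul hm2
        deg := by rw [hP, hm1.natDegree_mul hm2, natDegree_X_pow, hd2]
        low := ⟨X + 1, hP, by simp⟩
        monicQ := by rw [hQ]; exact monic_X_add_C _
        degQ := by rw [hQ]; exact natDegree_X_add_C _
        W := by
          rw [hP, hQ]
          simp only [derivative_mul, derivative_X_pow, derivative_add, derivative_one,
            derivative_X, derivative_C, map_natCast, Nat.cast_add, Nat.cast_one, hk, zero_add,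
            add_zero, mul_one, one_mul, map_one, map_add]
          simp only [show k + 1 - 1 = k from rfl, map_pow]
          linear_combination (X ^ k * (C β ^ 2 * X + C β * X)) * h2
        aq := by omega
        n1 := by omega
        q1 := by omega
        Q0 := by
          rw [hQ]
          simpa using h1
        Qβ := by
          rw [hQ]
          simp only [eval_add, eval_X, eval_C]
          intro h5
          have h6 : β * (1 + β) = 0 := by linear_combination h5
          rcases mul_eq_zero.1 h6 with h7 | h7
          · exact h1 h7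
          · apply h3
            have h8 : (1 : K) + 1 = 0 := CharTwo.add_self_eq_zero 1
            linear_combination h7 - h8
        Pβ := by
          rw [hP]
          simp only [eval_mul, eval_pow, eval_X, eval_add, eval_one]
          refine mul_ne_zero (pow_ne_zero _ h1) fun h7 => h3 ?_
          have h8 : (1 : K) + 1 = 0 := CharTwo.add_self_eq_zero 1
          linear_combination h7 - h8
        lin := Or.inr ⟨_, hQ⟩ }
  · obtain ⟨k, rfl⟩ : ∃ k, n = k + 3 := ⟨n - 3, by omega⟩
    have hk : ((k : ℕ) : K[X]) = 0 := by
      have h5 : Even k := by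
        obtain ⟨l, hl⟩ := ho
        exact ⟨l - 1, by omega⟩
      obtain ⟨l, hl⟩ := h5
      rw [hl, ← two_mul, Nat.cast_mul, Nat.cast_ofNat, h2, zero_mul]
    have hm1 : ((X : K[X]) ^ (k + 1)).Monic := monic_X_pow _
    have hmd : (X ^ 2 + C b * X + 1 : K[X]).Monic ∧ (X ^ 2 + C b * X + 1 : K[X]).natDegree = 2 := by
      constructor
      · monicity!
      · compute_degree!
    refine ⟨k, 0, ?_⟩
    rw [show k + 3 - 2 = k + 1 from rfl] at hP
    exact
      { monic := by rw [hP]; exact hm1.mul hmd.1
        deg := by rw [hP, hm1.natDegree_mul hmd.1, natDegree_X_pow, hmd.2]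
        low := ⟨X ^ 2 + C b * X + 1, hP, by simp⟩
        monicQ := by rw [hQ]; exact monic_one
        degQ := by rw [hQ]; exact natDegree_one
        W := by
          rw [hP, hQ, h1]
          simp only [derivative_mul, derivative_X_pow, derivative_add, derivative_one,
            derivative_X, derivative_C, map_natCast, Nat.cast_add, Nat.cast_one, hk, zero_add,
            add_zero, mul_one, one_mul, map_one, map_add, zero_mul, mul_zero, sub_zero,
            Nat.cast_ofNat]
          simp only [show k + 1 - 1 = k from rfl, show 2 - 1 = 1 from rfl, C_ofNat, h2]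
          linear_combination (X ^ k * (C b * X + X)) * h2
        aq := by omega
        n1 := by omega
        q1 := by omega
        Q0 := by rw [hQ]; simp
        Qβ := by rw [hQ]; simp
        Pβ := by
          rw [hP, h1]
          simp only [eval_mul, eval_pow, eval_X, eval_add, eval_one, eval_C, one_pow, one_mul,
            mul_one]
          intro h5
          apply h3
          have h8 : (1 : K) + 1 = 0 := CharTwo.add_self_eq_zero 1
          linear_combination h5 - h8
        lin := Or.inl hQ }

theorem t_val2 : St_val2 := by
  intro K _ _ n P Q β hn hF N _ _ t ht r hr hf O hO i j hij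
  have hcN : CharP N 2 := charP_of_injective_algebraMap (algebraMap K N).injective 2
  obtain ⟨a, q, hD⟩ := dat_of_fam2 K n P Q β hn hF
  have h1 := val_main O.valuation (fun x => (O.valuation_le_one_iff _).2 (hO x)) hD hr hf hcN ht
    i j hij
  simp only [O.valuation_le_one_iff] at h1
  exact h1

end Pool.Agent.L7h25.AN
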