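import Mathlib
import Pool.Agent.L7h25.AN.Val2
import Pool.Agent.L7h25.AN.Rat

/-!
The piece TWO.
-/

set_option autoImplicit false

namespace Pool.Agent.L7h25.AN

open Polynomial IntermediateField

theorem t_two (hTT : St_tt) : St_two := by
  intro K _ _ n P Q β hn hF N _ _ _ t ht r hr hf
  classical
  have hcN : CharP N 2 := charP_of_injective_algebraMap (algebraMap K N).injective 2
  obtain ⟨t₁, ht₁⟩ : ∃ t₁, t₁ = P.eval β / Q.eval β := ⟨_, rfl⟩
  obtain ⟨s, hs⟩ : ∃ s, s = t - algebraMap K N t₁ := ⟨_, rfl⟩
  have hts : t = s + algebraMap K N t₁ := by rw [hs]; ring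
  have hstr : Transcendental K s := by
    intro h
    apply ht
    rw [hts]
    exact h.add (isAlgebraic_algebraMap t₁)
  have hmemt : t ∈ adjoin K {s} := by
    have h1 := add_mem (mem_adjoin_simple_self K s)
      (IntermediateField.algebraMap_mem (adjoin K {s}) t₁)
    rwa [← hts] at h1
  -- `DD r ∈ K(s)`
  have hD : DD r ∈ adjoin K {s} := by
    let F := adjoin K {s}
    obtain ⟨fF, hfF⟩ : ∃ fF : F[X], fF = P.map (algebraMap K F) - C (⟨t, hmemt⟩ : F) *
        Q.map (algebraMap K F) := ⟨_, rfl⟩
    have hfN : fF.map (algebraMap F N) = ∏ i, (X - C (r i)) := by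
      rw [hfF, ← hf]
      simp only [Polynomial.map_sub, Polynomial.map_mul, map_C, Polynomial.map_map,
        ← IsScalarTower.algebraMap_eq]
      rfl
    have hsplit : (fF.map (algebraMap F N)).Splits := IsAlgClosed.splits _
    have hsep : fF.Separable := by
      rw [← Polynomial.separable_map (algebraMap F N), hfN]
      exact separable_prod_X_sub_C_iff.2 hr
    let M := adjoin F (fF.rootSet N)
    have i5 : fF.IsSplittingField F M := adjoin_rootSet_isSplittingField hsplit
    have i6 : FiniteDimensional F M := IsSplittingField.finiteDimensional M fF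
    have i7 : IsGalois F M := IsGalois.of_separable_splitting_field hsep
    have hf0 : fF.map (algebraMap F N) ≠ 0 := by
      rw [hfN]
      exact (monic_prod_of_monic _ _ fun i _ => monic_X_sub_C _).ne_zero
    have hrM : ∀ i, r i ∈ fF.rootSet N := by
      intro i
      rw [mem_rootSet']
      refine ⟨hf0, ?_⟩
      rw [aeval_def, ← eval_map, hfN, eval_prod]
      exact Finset.prod_eq_zero (Finset.mem_univ i) (by simp)
    let ρ : Fin n → M := fun i => ⟨r i, subset_adjoin _ _ (hrM i)⟩
    have hρ : Function.Injective ρ := fun i j hij => hr (congrArg Subtype.val hij)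
    have hcM : CharP M 2 := charP_of_injective_algebraMap (algebraMap K M).injective 2
    have hDρ : ((DD ρ : M) : N) = DD r := by
      have h1 : ∀ z : M, (z : N) = algebraMap M N z := fun z => rfl
      rw [h1, DD, DD, map_sum]
      refine Finset.sum_congr rfl fun i _ => ?_
      rw [map_sum]
      refine Finset.sum_congr rfl fun j _ => ?_
      rw [map_div₀, map_mul, map_pow, map_add]
      rfl
    have hbot : DD ρ ∈ (⊥ : IntermediateField F M) := by
      rw [IsGalois.mem_bot_iff_fixed]
      intro g
      have h1 : ∀ k, ∃ j, g (ρ k) = ρ j := by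
        intro k
        have h2 : aeval (ρ k) fF = 0 := by
          apply (algebraMap M N).injective
          rw [← aeval_algebraMap_apply, map_zero]
          have h3 := hrM k
          rw [mem_rootSet'] at h3
          exact h3.2
        have h3 : aeval (g (ρ k)) fF = 0 := by
          have h4 := aeval_algHom_apply (g : M →ₐ[F] M) (ρ k) fF
          have h5 : aeval (g (ρ k)) fF = g (aeval (ρ k) fF) := h4
          rw [h5, h2, map_zero]
        have h4 : aeval ((g (ρ k) : M) : N) fF = 0 := by
          have h5 := aeval_algebraMap_apply N (g (ρ k)) fF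
          rw [h3, map_zero] at h5
          exact h5
        rw [aeval_def, ← eval_map, hfN, eval_prod] at h4
        obtain ⟨j, -, hj⟩ := Finset.prod_eq_zero_iff.1 h4
        rw [eval_sub, eval_X, eval_C, sub_eq_zero] at hj
        exact ⟨j, Subtype.ext hj⟩
      choose π hπ using h1
      have hinj : Function.Injective π := by
        intro k l hkl
        apply hρ
        apply g.injective
        rw [hπ, hπ, hkl]
      let π' : Equiv.Perm (Fin n) := Equiv.ofBijective π (Finite.injective_iff_bijective.1 hinj)
      have h2 : g (DD ρ) = DD (fun i => ρ (π' i)) := by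
        rw [DD, DD, map_sum]
        refine Finset.sum_congr rfl fun i _ => ?_
        rw [map_sum]
        refine Finset.sum_congr rfl fun j _ => ?_
        rw [map_div₀, map_mul, map_pow, map_add, hπ, hπ]
        rfl
      rw [h2, ((hTT M n ρ hρ).2 π').2]
    obtain ⟨z, hz⟩ := IntermediateField.mem_bot.1 hbot
    rw [← hDρ, ← hz]
    exact z.2
  have hval := t_val2 K n P Q β hn hF N t ht r hr hf
  rw [← ht₁, ← hs] at hval ⊢
  refine t_rat K N s (DD r) hstr hD fun O hO => ⟨fun hsO => ?_, fun hsO => ?_⟩
  · rw [DD]
    refine sum_mem fun i _ => sum_mem fun j hj => ?_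
    exact (hval O hO i j (ne_of_lt (Finset.mem_Ioi.1 hj))).1 hsO
  · rw [DD, Finset.mul_sum]
    refine sum_mem fun i _ => ?_
    rw [Finset.mul_sum]
    refine sum_mem fun j hj => ?_
    exact (hval O hO i j (ne_of_lt (Finset.mem_Ioi.1 hj))).2 hsO

end Pool.Agent.L7h25.AN
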