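import Mathlib
import Pool.Agent.L7h25.AN.AsmE
import Pool.Agent.L7h25.AN.TwoT
import Pool.Agent.L7h25.AN.TTt
import Pool.Agent.L7h25.AN.ClsA
import Pool.Agent.L7h76.AN.Irr2

/-!
Alternating groups are good kernels in every positive characteristic.
-/

set_option autoImplicit false

namespace Pool.Agent.L7h25.AN

open Pool.Agent.Y60.DC (GoodKerP LocP)

theorem good_alt_two (n : ℕ) (hn : 5 ≤ n) (h6 : n ≠ 6) :
    GoodKerP 2 (alternatingGroup (Fin n)) :=
  good_of 2 n hn h6 (locP_of 2 n hn h6 fun K L _ _ _ _ _ _ _ χ =>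
    reg_sgnFib_two Pool.Agent.L7h76.AN.st_pen2 Pool.Agent.L7h76.AN.st_irr2 t_tt (t_two t_tt)
      K L n hn χ)

theorem altGood (p : ℕ) [Fact p.Prime] : AltGood p := by
  intro n hn h6
  by_cases hp : p = 2
  · subst hp
    exact good_alt_two n hn h6
  · exact good_alt_odd p hp n hn h6

end Pool.Agent.L7h25.AN
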