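import Mathlib
import Pool.Agent.L7h25.AN.GoodAll
import Pool.Agent.N600.UK.Main
import Pool.Agent.Y140.HD.Hilb
import Pool.Agent.N70.PP.Voc

/-!
Groups with normal subgroups whose composition factors are allowed: they occur over the same fields
as the quotients.
-/

set_option autoImplicit false

namespace Pool.Agent.L7h25.AN

open Pool.Agent.Y60.DC Pool.Agent.Y60.DCF
open Nfff32c05
open Pool.Agent.H391R2 (isRealizable_of isRealizable_quotient)
open Pool.Agent.H391R2.T4 (RegSol WeakSol HilbField)
open Pool.Agent.TH59.WX (exists_gal_of)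
open Pool.Agent.TH444.TW (RS RSK RegularOver regSol_of_regularOver)
open Pool.Agent.N600.UK (triv_aut regularOver_of_regSol reg_quot snd_rsk)
open Pool.Agent.TH377.IG (SpecProp spec_hilb)
open Pool.Agent.N70.PP.Voc (Occurs OccursRegularly Hilbertian OccursIff OccursAll Solvable)

variable {p : ℕ} [Fact p.Prime]

theorem rskA_field {W W' : Type} [Group W] [Group W'] {r : W' →* W} (h : RSK (ZMod p) r)
    (K : Type) [Field K] [CharP K p] : RSK K r := by
  intro K' M _ _ _ _ _ _ _ ε
  have : CharP K' p := charP_of_injective_algebraMap (algebraMap K K').injective p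
  let _ : Algebra (ZMod p) K' := ZMod.algebra K' p
  exact h K' M ε

theorem occurs_iffA (K X : Type) [Field K] [Group X] [Finite X] :
    Occurs K X ↔ IsRealizable K X := by
  constructor
  · rintro ⟨L, i1, i2, i3, i4, ⟨e⟩⟩
    exact isRealizable_of L e.symm
  · intro h
    obtain ⟨L, i1, i2, i3, i4, ⟨e⟩⟩ := exists_gal_of K X h
    exact ⟨L, i1, i2, i3, i4, ⟨e.symm⟩⟩

theorem occurs_quotA (K X Y : Type) [Field K] [Group X] [Finite X] [Group Y] [Finite Y]
    (q : X →* Y) (hq : Function.Surjective q) (h : Occurs K X) : Occurs K Y := by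
  rw [occurs_iffA] at h ⊢
  obtain ⟨L, i1, i2, i3, i4, ⟨f⟩⟩ := exists_gal_of K X h
  exact isRealizable_quotient L (q.comp f.symm.toMonoidHom) (hq.comp f.symm.surjective)

theorem regular_quotA (K X Y : Type) [Field K] [Group X] [Finite X] [Group Y] [Finite Y]
    (q : X →* Y) (hq : Function.Surjective q) (h : OccursRegularly K X) :
    OccursRegularly K Y := by
  refine regularOver_of_regSol ?_
  exact reg_quot 1 1 q hq (fun y => rfl) (regSol_of_regularOver h)

theorem occurs_stepA {K : Type} [Field K] (hK : SpecProp K) {X Y : Type} [Group X] [Finite X]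
    [Group Y] [Finite Y] (r : X →* Y) (hr : RSK K r) (h : Occurs K Y) : Occurs K X := by
  obtain ⟨L, i1, i2, i3, i4, ⟨f⟩⟩ := h
  obtain ⟨F, j1, j2, j3, j4, j5, j6, j7, j8, γ', hγ', -⟩ := hr.all L f
  obtain ⟨F, j1, j2, j3, j4, j5, j6, γ, -⟩ := hK L X _ ⟨F, j1, j2, j3, j4, j5, j6, j7, j8, γ', hγ'⟩
  exact ⟨F, j1, j2, j5, j6, ⟨γ⟩⟩

theorem regular_stepA {K : Type} [Field K] {P Q : Type} [Group P] [Finite P]
    [Group Q] [Finite Q] (r : P →* Q) (hr : RSK K r) (h : OccursRegularly K Q) :
    OccursRegularly K P := by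
  have h1 : RSK K (1 : Q →* Unit) := by
    refine RSK.quot (MonoidHom.fst Q Unit) Prod.fst_surjective (fun y => ?_) (snd_rsk K Q h Unit)
    exact Subsingleton.elim _ _
  have h2 : RSK K ((1 : Q →* Unit).comp r) := RSK.comp h1 hr
  let ε : (K ≃ₐ[K] K) ≃* Unit :=
    { toFun := fun _ => ()
      invFun := fun _ => 1
      left_inv := fun σ => triv_aut _ _
      right_inv := fun _ => rfl
      map_mul' := fun _ _ => rfl }
  have h4 := h2.all K ε
  have h5 : ε.symm.toMonoidHom.comp ((1 : Q →* Unit).comp r) = 1 := by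
    ext x
    rfl
  rw [h5] at h4
  exact regularOver_of_regSol h4

theorem occursIff_rsk {X Y : Type} [Group X] [Finite X] [Group Y] [Finite Y] (q : X →* Y)
    (hq : Function.Surjective q) (h : RSK (ZMod p) q) : OccursIff p X Y := by
  refine ⟨fun k _ _ => ⟨occurs_quotA _ X Y q hq, ?_⟩,
    fun K _ _ hK => ⟨occurs_quotA _ X Y q hq, occurs_stepA (spec_hilb hK) q (rskA_field h K)⟩,
    fun K _ _ => ⟨regular_quotA K X Y q hq, regular_stepA q (rskA_field h K)⟩⟩
  have : CharP (RatFunc k) p := charP_ratFunc k p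
  exact occurs_stepA (spec_hilb (Pool.Agent.Y140.HD.hilb_ratFunc k)) q (rskA_field h _)

/-- Normal subgroups whose composition factors are allowed. -/
theorem occursIff_of_compIn (X : Type) [Group X] [Finite X] (N : Subgroup X) [N.Normal]
    (h : CompIn (FactorA p) N) : OccursIff p X (X ⧸ N) := by
  have hk : CompIn (FactorA p) (QuotientGroup.mk' N).ker := by
    rw [QuotientGroup.ker_mk']
    exact h
  have hs : StepA p (ZMod p) (QuotientGroup.mk' N) :=
    StepA.kernel _ (QuotientGroup.mk'_surjective N) inferInstance hk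
  exact occursIff_rsk _ (QuotientGroup.mk'_surjective N) (hs.main p (altGood p) inferInstance).2

theorem occurs_unit (K X : Type) [Field K] [Group X] [Subsingleton X] : Occurs K X := by
  refine ⟨K, inferInstance, inferInstance, inferInstance, inferInstance, ⟨?_⟩⟩
  exact
    { toFun := fun _ => 1
      invFun := fun _ => 1
      left_inv := fun σ => triv_aut _ _
      right_inv := fun _ => Subsingleton.elim _ _
      map_mul' := fun _ _ => Subsingleton.elim _ _ }

theorem regular_unit (K X : Type) [Field K] [Group X] [Finite X] [Subsingleton X] :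
    OccursRegularly K X := by
  have h5 : RS (MulEquiv.refl X : X →* X) := RS.of_equiv (MulEquiv.refl X)
  let ε : (K ≃ₐ[K] K) ≃* X :=
    { toFun := fun _ => 1
      invFun := fun _ => 1
      left_inv := fun σ => triv_aut _ _
      right_inv := fun _ => Subsingleton.elim _ _
      map_mul' := fun _ _ => Subsingleton.elim _ _ }
  have h4 := h5.all K K ε
  have h6 : ε.symm.toMonoidHom.comp (MulEquiv.refl X : X →* X) = 1 := by
    ext x
    rfl
  rw [h6] at h4
  exact regularOver_of_regSol h4

/-- Groups whose composition factors are allowed. -/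
theorem occursAll_of_compIn (X : Type) [Group X] [Finite X]
    (h : CompIn (FactorA p) X) : OccursAll p X := by
  have e : X ≃* (⊤ : Subgroup X) := (Subgroup.topEquiv).symm
  have h0 : CompIn (FacA p) X := compIn_mono (fun T _ h => FactorA.old T h) h
  have h1 : CompIn (FacA p) (⊤ : Subgroup X) :=
    Pool.Agent.Y419.DC.quot (fun T T' _ _ h h' => FacA.iso p T T' h h')
        (fun T _ h => FacA.simple p T h) h0 _ e.toMonoidHom e.surjective
  have hr : RSK (ZMod p) (QuotientGroup.mk' (⊤ : Subgroup X)) := by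
    intro K' M _ _ _ _ _ _ _ ε
    have hc : CharP K' p := charP_of_injective_algebraMap (algebraMap (ZMod p) K').injective p
    refine regA_inf p (altGood p) K' M _ _
      (ε.symm.surjective.comp (QuotientGroup.mk'_surjective _)) ?_
    have h2 : (ε.symm.toMonoidHom.comp (QuotientGroup.mk' (⊤ : Subgroup X))).ker = ⊤ := by
      ext x
      rw [MonoidHom.mem_ker]
      simp only [Subgroup.mem_top, iff_true]
      have h3 : (QuotientGroup.mk' (⊤ : Subgroup X)) x = 1 := by
        rw [← MonoidHom.mem_ker, QuotientGroup.ker_mk']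
        exact Subgroup.mem_top _
      show ε.symm ((QuotientGroup.mk' (⊤ : Subgroup X)) x) = 1
      rw [h3, map_one]
    rw [h2]
    exact h1
  obtain ⟨g1, g2, g3⟩ := occursIff_rsk _ (QuotientGroup.mk'_surjective (⊤ : Subgroup X)) hr
  have hss : Subsingleton (X ⧸ (⊤ : Subgroup X)) := QuotientGroup.subsingleton_quotient_top
  exact ⟨fun k _ _ => (g1 k).2 (occurs_unit _ _), fun K _ _ hK => (g2 K hK).2 (occurs_unit _ _),
    fun K _ _ => (g3 K).2 (regular_unit K _)⟩

/-- Embedding problems in the class. -/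
theorem solvable_of_stepA {K L X : Type} [Field K] [CharP K p] [Field L] [Algebra K L]
    [FiniteDimensional K L] [IsGalois K L] [Group X] (α : X →* (L ≃ₐ[K] L)) (h : StepA p K α) :
    Solvable α := by
  obtain ⟨hX, h1⟩ := stepA_one p (altGood p) K L X α h
  refine ⟨h1, fun hK => ?_⟩
  obtain ⟨F, j1, j2, j3, j4, j5, j6, j7, j8, γ', hγ', -⟩ := h1
  exact spec_hilb hK L X α ⟨F, j1, j2, j3, j4, j5, j6, j7, j8, γ', hγ'⟩

end Pool.Agent.L7h25.AN
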