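import Mathlib
import Pool.Agent.L7h25.AN.Lad
import Pool.Agent.L7h25.AN.OccA

/-!
Complete simple groups as composition factors.
-/

set_option autoImplicit false

namespace Pool.Agent.L7h25.AN

open Pool.Agent.Y60.DC Pool.Agent.Y60.DCF
open Pool.Agent.H391R2.T4 (RegSol WeakSol HilbField)
open Pool.Agent.TH59.WX (finite_of_kernel)
open Pool.Agent.TH444.TW (Cls RS RSK RegularOver infinite_ratFunc infinite_of_hilb)
open Pool.Agent.N600.UK (CL reg_quot cl_of_center snd_rsk conj_inj)
open Pool.Agent.N70.PP.Voc (OccursRegularly)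

variable {p : ℕ} [Fact p.Prime]

/-- Complete groups. -/
theorem good_completeA {T : Type} [Group T] [Finite T] (hC : CL T)
    (hI : ∀ a : MulAut T, ∃ g : T, a = MulAut.conj g)
    (hR : RegularOver (ZMod p) T) : GoodKerP p T := by
  intro K L X _ _ _ _ _ _ _ _ α hα ⟨e⟩
  let _ : Algebra (ZMod p) K := ZMod.algebra K p
  have hfinX : Finite X := finite_of_kernel α e.symm
  let ι : T ≃* α.ker := e.symm
  let c : X →* MulAut T := (MulAut.congr ι.symm).toMonoidHom.comp MulAut.conjNormal
  have hc : ∀ w : T, c (ι w) = MulAut.conj w := by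
    intro w
    apply MulEquiv.ext
    intro x
    change ι.symm (MulAut.conjNormal (ι w : X) (ι x)) = w * x * w⁻¹
    rw [MulEquiv.symm_apply_eq]
    apply Subtype.ext
    rw [MulAut.conjNormal_apply]
    simp only [map_mul, map_inv, Subgroup.coe_mul, Subgroup.coe_inv]
  have hconj : Function.Bijective (MulAut.conj : T →* MulAut T) :=
    ⟨conj_inj hC, fun a => by
      obtain ⟨g, hg⟩ := hI a
      exact ⟨g, hg.symm⟩⟩
  let E : T ≃* MulAut T := MulEquiv.ofBijective _ hconj
  let π : X →* T := E.symm.toMonoidHom.comp c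
  have hπ : ∀ w : T, π (ι w : X) = w := by
    intro w
    change E.symm (c (ι w)) = w
    rw [hc, MulEquiv.symm_apply_eq]
    rfl
  let r : X →* T × (L ≃ₐ[K] L) := π.prod α
  have hr : Function.Bijective r := by
    constructor
    · rw [injective_iff_map_eq_one]
      intro x hx
      have h1 : π x = 1 := congrArg Prod.fst hx
      have h2 : α x = 1 := congrArg Prod.snd hx
      obtain ⟨w, hw⟩ := ι.surjective ⟨x, h2⟩
      have h3 : (ι w : X) = x := congrArg Subtype.val hw
      rw [← h3, hπ] at h1
      rw [← h3, h1, map_one]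
      rfl
    · rintro ⟨p, ρ⟩
      obtain ⟨x₀, rfl⟩ := hα ρ
      refine ⟨(ι (p * (π x₀)⁻¹) : X) * x₀, ?_⟩
      refine Prod.ext ?_ ?_
      · change π _ = p
        rw [map_mul, hπ, inv_mul_cancel_right]
      · change α _ = α x₀
        rw [map_mul]
        have h1 : α (ι (p * (π x₀)⁻¹) : X) = 1 := (ι _).2
        rw [h1, one_mul]
  have hfinΓ : Finite (L ≃ₐ[K] L) := inferInstance
  have h2 : RegSol K L (T × (L ≃ₐ[K] L)) (MonoidHom.snd _ _) :=
    snd_rsk (ZMod p) T hR (L ≃ₐ[K] L) K L (MulEquiv.refl _)
  exact reg_quot α (MonoidHom.snd _ _) (MulEquiv.ofBijective r hr).symm.toMonoidHom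
    (MulEquiv.ofBijective r hr).symm.surjective (fun y => by
      obtain ⟨x, rfl⟩ := (MulEquiv.ofBijective r hr).surjective y
      change α ((MulEquiv.ofBijective r hr).symm (MulEquiv.ofBijective r hr x)) = (r x).2
      rw [MulEquiv.symm_apply_apply]
      rfl) h2

/-- The class in the form used in the recursion. -/
def FacB (p : ℕ) [Fact p.Prime] (T : Type) [Group T] : Prop :=
  FacA p T ∨ IsCompleteSimple p T

theorem FactorB.old {T : Type} [Group T] (h : FactorB p T) : FacB p T := by
  rcases h with h | h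
  · exact Or.inl (FactorA.old T h)
  · exact Or.inr h

theorem IsCompleteSimple.iso {T T' : Type} [Group T] [Group T'] (e : T ≃* T')
    (h : IsCompleteSimple p T) : IsCompleteSimple p T' := by
  obtain ⟨h1, h2, ⟨a, b, hab⟩, h4, h5⟩ := h
  refine ⟨Finite.of_equiv _ e.toEquiv, e.symm.isSimpleGroup, ⟨e a, e b, fun h => hab ?_⟩,
    fun f => ?_, ?_⟩
  · apply e.injective
    rw [map_mul, map_mul, h]
  · obtain ⟨g, hg⟩ := h4 ((MulAut.congr e.symm) f)
    refine ⟨e g, ?_⟩
    apply MulEquiv.ext
    intro x
    have h6 := DFunLike.congr_fun hg (e.symm x)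
    change e.symm (f (e.symm.symm (e.symm x))) = g * e.symm x * g⁻¹ at h6
    rw [MulEquiv.symm_symm, MulEquiv.apply_symm_apply, MulEquiv.symm_apply_eq] at h6
    rw [h6, MulAut.conj_apply, map_mul, map_mul, MulEquiv.apply_symm_apply, map_inv]
  · have h7 : Finite T' := Finite.of_equiv _ e.toEquiv
    exact regular_quotA (ZMod p) T T' e.toMonoidHom e.surjective h5

theorem FacB.iso (T T' : Type) [Group T] [Group T']
    (e : Nonempty (T ≃* T')) (h : FacB p T) : FacB p T' := by
  rcases h with h | h
  · exact Or.inl (FacA.iso p T T' e h)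
  · exact Or.inr (h.iso e.some)

theorem FacB.simple (T : Type) [Group T] (h : FacB p T) : IsSimpleGroup T := by
  rcases h with h | h
  · exact FacA.simple p T h
  · exact h.2.1

theorem center_of_simple (T : Type) [Group T] (h : IsSimpleGroup T) (hab : ∃ a b : T, a * b ≠ b * a) :
    Subgroup.center T = ⊥ := by
  obtain ⟨a, b, hab⟩ := hab
  rcases (inferInstance : (Subgroup.center T).Normal).eq_bot_or_eq_top with h1 | h1
  · exact h1
  · exfalso
    apply hab
    have h2 : a ∈ Subgroup.center T := by
      rw [h1]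
      exact Subgroup.mem_top a
    exact ((Subgroup.mem_center_iff.1 h2) b).symm

theorem FacB.good (T : Type) [Group T] (h : FacB p T) :
    Nat.card T = p ∨ (Finite T ∧ Subgroup.center T = ⊥ ∧ GoodKerP p T) := by
  rcases h with h | ⟨h1, h2, h3, h4, h5⟩
  · exact FacA.good p (altGood p) T h
  · right
    have hc := center_of_simple T h2 h3
    exact ⟨h1, hc, good_completeA (cl_of_center hc) h4 h5⟩

/-- Embedding problems over infinite fields of characteristic `p` whose kernel has composition
factors in `FacB p`. -/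
theorem regB_inf (K L X : Type) [Field K] [CharP K p]
    [Infinite K] [Field L] [Algebra K L] [FiniteDimensional K L] [IsGalois K L] [Group X]
    [Finite X] (α : X →* (L ≃ₐ[K] L)) (hα : Function.Surjective α)
    (h : CompIn (FacB p) α.ker) : RegSol K L X α :=
  kern_reg_gen p (fun T _ => FacB p T) (fun T T' _ _ e h => FacB.iso T T' e h)
    (fun T _ h => FacB.simple T h) (fun T _ h => FacB.good T h) _ K L X α hα h rfl

theorem rskB {W W' : Type} [Group W] [Group W'] (π : W' →* W) (hs : Function.Surjective π)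
    [Finite W'] (h : CompIn (FacB p) π.ker) : RSK (ZMod p) π := by
  intro K' M _ _ _ _ _ _ _ ε
  have hc : CharP K' p := charP_of_injective_algebraMap (algebraMap (ZMod p) K').injective p
  refine regB_inf K' M _ _ (ε.symm.surjective.comp hs) ?_
  have h1 : (ε.symm.toMonoidHom.comp π).ker = π.ker := by
    ext x
    rw [MonoidHom.mem_ker, MonoidHom.mem_ker]
    exact map_eq_one_iff ε.symm ε.symm.injective
  rw [h1]
  exact h

end Pool.Agent.L7h25.AN
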