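import Mathlib
import Pool.Agent.L7h25.AN.Lad
import Pool.Agent.L7h25.AN.Cpl

/-!
The class `Ladder p`: realizations.
-/

set_option autoImplicit false

namespace Pool.Agent.L7h25.AN

open Pool.Agent.Y60.DC Pool.Agent.Y60.DCF
open Pool.Agent.H391R2.T4 (RegSol WeakSol HilbField)
open Pool.Agent.TH15.IGP (Lim)
open Pool.Agent.TH444.TW (Cls RS RSK RegularOver infinite_ratFunc infinite_of_hilb)
open Pool.Agent.TH377.IG (SpecProp spec_hilb)
open Pool.Agent.N70.PP.Voc (Occurs OccursRegularly Hilbertian OccursIff OccursAll Solvable)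

variable {p : ℕ} [Fact p.Prime]

theorem Ladder.surjective {W W' : Type} [Group W] [Group W'] {π : W' →* W} (h : Ladder p π) :
    Function.Surjective π := by
  induction h with
  | kernel π hs hfin h => exact hs
  | abelian π s hs hfin hcomm => exact fun w => ⟨s w, hs w⟩
  | inner π A hA hp =>
    obtain ⟨k, ψ, ι, s, h1, h2, h3, h4⟩ := hp
    exact fun w => ⟨s w, h3 w⟩
  | comp π q _ _ h1 h2 => exact h1.comp h2
  | quot π q hq _ h =>
    intro w
    obtain ⟨x, hx⟩ := h w
    exact ⟨q x, hx⟩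

theorem Ladder.main {W W' : Type} [Group W] [Group W'] {π : W' →* W} (h : Ladder p π) :
    Finite W → Finite W' ∧ RSK (ZMod p) π := by
  induction h with
  | kernel π hs hfin h =>
    intro hW
    have hW' : Finite _ := Pool.Agent.TH444.TW.finite_of_ker π
    exact ⟨hW', rskB π hs (compIn_mono (fun T _ h => FactorB.old h) h)⟩
  | abelian π s hs hfin hcomm =>
    exact (StepA.base π (Step.base π (Cls.abelian π s hs hfin hcomm))).main p (altGood p)
  | inner π A hA hp =>
    exact (StepA.base π (Step.base π (Cls.inner π A hA hp))).main p (altGood p)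
  | comp π q hp hq ihp ihq =>
    intro hW
    obtain ⟨h1, h2⟩ := ihp hW
    obtain ⟨h3, h4⟩ := ihq h1
    exact ⟨h3, RSK.comp h2 h4⟩
  | quot π q hq hpq ih =>
    intro hW
    obtain ⟨h1, h2⟩ := ih hW
    exact ⟨Finite.of_surjective q hq, RSK.quot q hq (fun x => rfl) h2⟩

theorem Ladder.occursIff {X Y : Type} [Group X] [Group Y] [Finite Y] {π : X →* Y}
    (h : Ladder p π) : OccursIff p X Y := by
  obtain ⟨h1, h2⟩ := h.main inferInstance
  exact occursIff_rsk π h.surjective h2

/-- Groups whose composition factors are allowed. -/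
theorem occursAll_of_compInB (X : Type) [Group X] [Finite X]
    (h : CompIn (FactorB p) X) : OccursAll p X := by
  have e : X ≃* (⊤ : Subgroup X) := (Subgroup.topEquiv).symm
  have h0 : CompIn (FacB p) X := compIn_mono (fun T _ h => FactorB.old h) h
  have h1 : CompIn (FacB p) (⊤ : Subgroup X) :=
    Pool.Agent.Y419.DC.quot (fun T T' _ _ h h' => FacB.iso T T' h h')
        (fun T _ h => FacB.simple T h) h0 _ e.toMonoidHom e.surjective
  have hr : RSK (ZMod p) (QuotientGroup.mk' (⊤ : Subgroup X)) := by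
    refine rskB _ (QuotientGroup.mk'_surjective _) ?_
    rw [QuotientGroup.ker_mk']
    exact h1
  obtain ⟨g1, g2, g3⟩ := occursIff_rsk _ (QuotientGroup.mk'_surjective (⊤ : Subgroup X)) hr
  have hss : Subsingleton (X ⧸ (⊤ : Subgroup X)) := QuotientGroup.subsingleton_quotient_top
  exact ⟨fun k _ _ => (g1 k).2 (occurs_unit _ _), fun K _ _ hK => (g2 K hK).2 (occurs_unit _ _),
    fun K _ _ => (g3 K).2 (regular_unit K _)⟩

theorem ladder_finite (W : ℕ → Type)
    [∀ i, Group (W i)] (π : ∀ i, W (i + 1) →* W i) (hp : ∀ i, Ladder p (π i))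
    (h0 : Finite (W 0)) : ∀ i, Finite (W i) := by
  intro i
  induction i with
  | zero => exact h0
  | succ i ih => exact ((hp i).main ih).1

/-- Finite embedding problems. -/
theorem ladder_one (K L X : Type) [Field K] [CharP K p]
    [Field L] [Algebra K L] [FiniteDimensional K L] [IsGalois K L] [Group X]
    (α : X →* (L ≃ₐ[K] L)) (h : Ladder p α) : Finite X ∧ RegSol K L X α := by
  obtain ⟨h1, h2⟩ := h.main inferInstance
  refine ⟨h1, ?_⟩
  have h3 := (rskA_field h2 K).all L (MulEquiv.refl _)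
  exact h3

/-- Regular towers over `K(t)`. -/
theorem ladder_regular (K L : Type) [Field K] [CharP K p]
    [Field L] [Algebra K L] [FiniteDimensional K L]
    [IsGalois K L] (W : ℕ → Type) [∀ i, Group (W i)] (π : ∀ i, W (i + 1) →* W i)
    (hp : ∀ i, Ladder p (π i)) (e₀ : W 0 ≃* (L ≃ₐ[K] L)) :
    ∃ (F : Type) (_ : Field F) (_ : Algebra (RatFunc K) F) (_ : Algebra L F)
      (_ : Algebra K F) (_ : IsScalarTower K (RatFunc K) F) (_ : IsScalarTower K L F)
      (_ : IsGalois (RatFunc K) F) (γ : (F ≃ₐ[RatFunc K] F) ≃* Lim π),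
      (∀ i, IsOpen {σ : F ≃ₐ[RatFunc K] F | (γ σ).1 i = 1}) ∧
      (∀ (σ : F ≃ₐ[RatFunc K] F) (x : L),
        σ (algebraMap L F x) = algebraMap L F (e₀ ((γ σ).1 0) x)) ∧
      ∀ y : F, IsAlgebraic L y → y ∈ Set.range (algebraMap L F) := by
  have hfin := ladder_finite W π hp (Finite.of_equiv _ e₀.symm.toEquiv)
  refine Pool.Agent.TH377.IG.tower_regular K L
    (fun Ω _ _ _ _ _ _ j => Pool.Agent.TH377.IG.regStep K L Ω j) W π (fun i => ?_) e₀
  intro M _ _ _ _ ε
  have := infinite_ratFunc K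
  exact (rskA_field ((hp i).main (hfin i)).2 K) (RatFunc K) M ε

/-- Towers over Hilbertian fields. -/
theorem ladder_hilb {K : Type} [Field K] [CharP K p]
    (hK : HilbField K)
    (W : ℕ → Type) [∀ i, Group (W i)] (π : ∀ i, W (i + 1) →* W i) (hp : ∀ i, Ladder p (π i))
    (L : Type) [Field L] [Algebra K L] [FiniteDimensional K L] [IsGalois K L]
    (e₀ : W 0 ≃* (L ≃ₐ[K] L)) :
    ∃ (F : Type) (_ : Field F) (_ : Algebra K F) (_ : Algebra L F) (_ : IsScalarTower K L F)
      (_ : IsGalois K F) (γ : (F ≃ₐ[K] F) ≃* Lim π),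
      (∀ i, IsOpen {σ : F ≃ₐ[K] F | (γ σ).1 i = 1}) ∧
      ∀ (σ : F ≃ₐ[K] F) (x : L),
        σ (algebraMap L F x) = algebraMap L F (e₀ ((γ σ).1 0) x) := by
  have := infinite_of_hilb hK
  have hfin := ladder_finite W π hp (Finite.of_equiv _ e₀.symm.toEquiv)
  exact Pool.Agent.TH377.IG.tower_spec (spec_hilb hK) W π
    (fun i M _ _ _ _ ε => (rskA_field ((hp i).main (hfin i)).2 K) K M ε) L e₀

/-- Proper solutions over Hilbertian fields. -/
theorem ladder_hilb_one {K : Type} [Field K] [CharP K p]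
    (hK : HilbField K) (L X : Type) [Field L]
    [Algebra K L] [FiniteDimensional K L] [IsGalois K L] [Group X] (α : X →* (L ≃ₐ[K] L))
    (h : Ladder p α) :
    ∃ (F : Type) (_ : Field F) (_ : Algebra K F) (_ : Algebra L F)
          (_ : IsScalarTower K L F),
          FiniteDimensional K F ∧ IsGalois K F ∧
          ∃ γ : (F ≃ₐ[K] F) ≃* X, ∀ σ : F ≃ₐ[K] F, α (γ σ) = σ.restrictNormal L := by
  obtain ⟨h1, F, i1, i2, i3, i4, i5, i6, i7, i8, γ, hγ, -⟩ := ladder_one K L X α h
  exact spec_hilb hK L X α ⟨F, i1, i2, i3, i4, i5, i6, i7, i8, γ, hγ⟩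

end Pool.Agent.L7h25.AN
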