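import Pool.Agent.Y60.DCF.Defs

/-!
# Alternating groups as composition factors of kernels

* `IsAlt T`: the group `T` is isomorphic to an alternating group `A_n`, `n ≥ 5`, `n ≠ 6`.
* `FactorA p T`: `T` is one of the groups `Factor p T` (file `Pool/Agent/Y60/DCF/Defs.lean`) or one of
  the groups `IsAlt T`.
* `StepA p K`: the class of homomorphisms.
-/

set_option autoImplicit false

open Pool.Agent.Y60.DC (CompIn)
open Pool.Agent.Y60.DCF (Factor Step)

namespace Pool.Agent.L7h25.AN

/-- `T` is isomorphic to an alternating group `A_n`, `n ≥ 5`, `n ≠ 6`. -/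
def IsAlt (T : Type) [Group T] : Prop :=
  ∃ n : ℕ, 5 ≤ n ∧ n ≠ 6 ∧ Nonempty (T ≃* alternatingGroup (Fin n))

/-- The composition factors which are allowed: the groups `Factor p T` and the alternating groups
`A_n`, `n ≥ 5`, `n ≠ 6`. -/
def FactorA (p : ℕ) [Fact p.Prime] (T : Type) [Group T] : Prop :=
  Factor p T ∨ IsAlt T

/-- The class `StepA p K` of homomorphisms of groups. -/
inductive StepA (p : ℕ) [Fact p.Prime] (K : Type) [Field K] :
    ∀ {W W' : Type} [Group W] [Group W'], (W' →* W) → Prop
  /-- the class `Step p K` -/
  | base {W W' : Type} [Group W] [Group W'] (π : W' →* W) (h : Step p K π) : StepA p K π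
  /-- all epimorphisms (split or not) with a finite kernel whose composition factors are allowed -/
  | kernel {W W' : Type} [Group W] [Group W'] (π : W' →* W) (hs : Function.Surjective π)
      (hfin : Finite π.ker) (h : CompIn (FactorA p) π.ker) : StepA p K π
  /-- compositions -/
  | comp {W W' W'' : Type} [Group W] [Group W'] [Group W''] (π : W' →* W) (q : W'' →* W')
      (hp : StepA p K π) (hq : StepA p K q) : StepA p K (π.comp q)
  /-- quotients -/
  | quot {W W' W'' : Type} [Group W] [Group W'] [Group W''] (π : W' →* W) (q : W'' →* W')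
      (hq : Function.Surjective q) (hpq : StepA p K (π.comp q)) : StepA p K π

end Pool.Agent.L7h25.AN
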